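import Mathlib

set_option autoImplicit false

namespace Pool.Agent.K6.H76.Cop

open Real Set

/-- `s(u) = 1 / (1 + e^{2u})`. -/
noncomputable def sg (u : ℝ) : ℝ := 1 / (1 + exp (2 * u))

/-- `g(u) = ((1 + e^{-2u})/2)^γ`. -/
noncomputable def gg (γ u : ℝ) : ℝ := ((1 + exp (-2 * u)) / 2) ^ γ

noncomputable def g1 (γ u : ℝ) : ℝ := -2 * γ * sg u * gg γ u

noncomputable def g2 (γ u : ℝ) : ℝ := 4 * γ * (sg u - (1 - γ) * sg u ^ 2) * gg γ u

noncomputable def g3 (γ u : ℝ) : ℝ :=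
  4 * γ * (-2 * sg u * (1 - sg u) * (1 - 2 * (1 - γ) * sg u)
    - 2 * γ * sg u * (sg u - (1 - γ) * sg u ^ 2)) * gg γ u

theorem sg_pos (u : ℝ) : 0 < sg u := by unfold sg; positivity

theorem sg_lt_one (u : ℝ) : sg u < 1 := by
  unfold sg
  rw [div_lt_one (by positivity)]
  have := exp_pos (2 * u)
  linarith

theorem gg_pos (γ u : ℝ) : 0 < gg γ u := by unfold gg; positivity

theorem hasDerivAt_sg (u : ℝ) : HasDerivAt sg (-2 * sg u * (1 - sg u)) u := by
  have h1 : HasDerivAt (fun u : ℝ => 1 + exp (2 * u)) (exp (2 * u) * 2) u := by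
    have h2 : HasDerivAt (fun u : ℝ => 2 * u) 2 u := by
      simpa using (hasDerivAt_id u).const_mul 2
    simpa using (h2.exp).const_add 1
  have h3 : (1 + exp (2 * u)) ≠ 0 := by positivity
  have h4 := (hasDerivAt_const u (1:ℝ)).div h1 h3
  refine h4.congr_deriv ?_
  unfold sg
  field_simp
  ring

theorem hasDerivAt_gg (γ u : ℝ) : HasDerivAt (gg γ) (g1 γ u) u := by
  have h2 : HasDerivAt (fun u : ℝ => -2 * u) (-2) u := by
    simpa using (hasDerivAt_id u).const_mul (-2)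
  have h1 : HasDerivAt (fun u : ℝ => (1 + exp (-2 * u)) / 2) (exp (-2 * u) * (-2) / 2) u := by
    simpa using ((h2.exp).const_add 1).div_const 2
  have h3 : 0 < (1 + exp (-2 * u)) / 2 := by positivity
  have h4 := h1.rpow_const (p := γ) (Or.inl h3.ne')
  refine h4.congr_deriv ?_
  unfold g1 gg sg
  have h5 : exp (2 * u) = (exp (-2 * u))⁻¹ := by rw [← exp_neg]; ring_nf
  have h6 : ((1 + exp (-2 * u)) / 2) ^ (γ - 1) =
      ((1 + exp (-2 * u)) / 2) ^ γ / ((1 + exp (-2 * u)) / 2) := by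
    rw [rpow_sub h3, rpow_one]
  rw [h6, h5]
  have h7 := exp_pos (-2 * u)
  field_simp
  ring

theorem hasDerivAt_g1 (γ u : ℝ) : HasDerivAt (g1 γ) (g2 γ u) u := by
  have h := ((hasDerivAt_sg u).const_mul (-2 * γ)).mul (hasDerivAt_gg γ u)
  refine h.congr_deriv ?_
  unfold g1 g2
  ring

theorem hasDerivAt_g2 (γ u : ℝ) : HasDerivAt (g2 γ) (g3 γ u) u := by
  have h := (((hasDerivAt_sg u).sub (((hasDerivAt_sg u).pow 2).const_mul (1 - γ))).const_mul
    (4 * γ)).mul (hasDerivAt_gg γ u)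
  refine h.congr_deriv ?_
  unfold g1 g3
  simp only [Pi.pow_apply, Pi.sub_apply, Nat.cast_ofNat]
  ring

theorem gg_shift {γ : ℝ} (h0 : 0 ≤ γ) (h1 : γ ≤ 1) (u y : ℝ) :
    gg γ (u + y) ≤ gg γ u * exp (2 * |y|) := by
  have h2 : (1 + exp (-2 * (u + y))) / 2 ≤ exp (2 * |y|) * ((1 + exp (-2 * u)) / 2) := by
    have h3 : exp (-2 * (u + y)) ≤ exp (2 * |y|) * exp (-2 * u) := by
      rw [← exp_add]
      apply exp_le_exp.2
      have := neg_abs_le y
      linarith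
    have h4 : (1:ℝ) ≤ exp (2 * |y|) := by
      apply one_le_exp
      positivity
    have h5 := exp_pos (-2 * u)
    linarith
  unfold gg
  calc ((1 + exp (-2 * (u + y))) / 2) ^ γ
      ≤ (exp (2 * |y|) * ((1 + exp (-2 * u)) / 2)) ^ γ :=
        rpow_le_rpow (by positivity) h2 h0
    _ = exp (2 * |y|) ^ γ * ((1 + exp (-2 * u)) / 2) ^ γ := by
        rw [mul_rpow (by positivity) (by positivity)]
    _ ≤ exp (2 * |y|) * ((1 + exp (-2 * u)) / 2) ^ γ := by
        gcongr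
        calc exp (2 * |y|) ^ γ ≤ exp (2 * |y|) ^ (1:ℝ) :=
              rpow_le_rpow_of_exponent_le (one_le_exp (by positivity)) h1
          _ = exp (2 * |y|) := rpow_one _
    _ = _ := by ring

theorem abs_g3_le {γ : ℝ} (h0 : 0 ≤ γ) (h1 : γ ≤ 1) (u : ℝ) : |g3 γ u| ≤ 20 * gg γ u := by
  unfold g3
  rw [abs_mul, abs_of_pos (gg_pos γ u)]
  have hs := sg_pos u
  have hs1 := sg_lt_one u
  have hg := gg_pos γ u
  refine mul_le_mul_of_nonneg_right ?_ hg.le
  set s := sg u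
  have e1 : |1 - 2 * (1 - γ) * s| ≤ 1 := by
    rw [abs_le]
    constructor <;> nlinarith [mul_nonneg (sub_nonneg.2 h1) hs.le, mul_le_mul (sub_le_self 1 h0) hs1.le hs.le zero_le_one]
  have e2 : |s - (1 - γ) * s ^ 2| ≤ 1 := by
    rw [abs_le]
    have : 0 ≤ (1 - γ) * s ^ 2 := mul_nonneg (sub_nonneg.2 h1) (sq_nonneg _)
    have h3 : (1 - γ) * s ^ 2 ≤ 1 * s := by
      have : s ^ 2 ≤ s := by nlinarith
      have : (1 - γ) * s ^ 2 ≤ 1 * s ^ 2 := by
        apply mul_le_mul_of_nonneg_right _ (sq_nonneg _); linarith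
      linarith
    constructor <;> linarith
  have e3 : |2 * s * (1 - s)| ≤ 1 := by
    rw [abs_le]
    constructor <;> nlinarith
  rw [abs_mul]
  have e4 : |4 * γ| ≤ 4 := by rw [abs_of_nonneg (by positivity)]; linarith
  have e5 : |-2 * s * (1 - s) * (1 - 2 * (1 - γ) * s) - 2 * γ * s * (s - (1 - γ) * s ^ 2)| ≤ 5 := by
    have e6 : |-2 * s * (1 - s) * (1 - 2 * (1 - γ) * s)| ≤ 1 := by
      have : -2 * s * (1 - s) * (1 - 2 * (1 - γ) * s) = -((2 * s * (1 - s)) * (1 - 2 * (1 - γ) * s)) := by ring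
      rw [this, abs_neg, abs_mul]
      calc _ ≤ 1 * 1 := mul_le_mul e3 e1 (abs_nonneg _) zero_le_one
        _ = 1 := one_mul 1
    have e7 : |2 * γ * s * (s - (1 - γ) * s ^ 2)| ≤ 2 := by
      rw [abs_mul]
      have : |2 * γ * s| ≤ 2 := by
        rw [abs_of_nonneg (by positivity)]
        nlinarith [mul_nonneg h0 hs.le]
      calc _ ≤ 2 * 1 := mul_le_mul this e2 (abs_nonneg _) (by norm_num)
        _ = 2 := by norm_num
    calc _ ≤ |-2 * s * (1 - s) * (1 - 2 * (1 - γ) * s)| + |2 * γ * s * (s - (1 - γ) * s ^ 2)| := abs_sub _ _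
      _ ≤ 5 := by linarith
  calc _ ≤ 4 * 5 := mul_le_mul e4 e5 (abs_nonneg _) (by norm_num)
    _ = 20 := by norm_num

/-- a function with small derivative on a symmetric interval -/
theorem small_of_deriv {f f' : ℝ → ℝ} {C d : ℝ} (hd : 0 ≤ d)
    (hf : ∀ y, |y| ≤ d → HasDerivAt f (f' y) y) (hb : ∀ y, |y| ≤ d → |f' y| ≤ C) :
    ∀ y, |y| ≤ d → |f y - f 0| ≤ C * d := by
  intro y hy
  have hC : 0 ≤ C := (abs_nonneg _).trans (hb 0 (by simpa using hd))
  have h1 := Convex.norm_image_sub_le_of_norm_hasDerivWithin_le (f := f) (f' := f')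
    (s := Icc (-d) d) (x := 0) (y := y) (C := C)
    (fun x hx => (hf x (abs_le.2 hx)).hasDerivWithinAt)
    (fun x hx => by simpa using hb x (abs_le.2 hx)) (convex_Icc _ _)
    (by simp [hd]) (abs_le.1 hy)
  simp only [norm_eq_abs, sub_zero] at h1
  exact h1.trans (mul_le_mul_of_nonneg_left hy hC)

theorem taylor {γ : ℝ} (h0 : 0 ≤ γ) (h1 : γ ≤ 1) (u d : ℝ) :
    |gg γ (u + d) - gg γ u - g1 γ u * d - g2 γ u * d ^ 2 / 2| ≤
      20 * gg γ u * (exp (2 * |d|) * |d| ^ 3) := by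
  set C := 20 * gg γ u * exp (2 * |d|) with hC
  have hC0 : 0 ≤ C := by have := gg_pos γ u; positivity
  have hd := abs_nonneg d
  -- second derivative
  have s2 : ∀ y, |y| ≤ |d| → |g2 γ (u + y) - g2 γ u| ≤ C * |d| := by
    have := small_of_deriv (f := fun y => g2 γ (u + y)) (f' := fun y => g3 γ (u + y)) (C := C)
      (abs_nonneg d) (fun y _ => by
        simpa using (hasDerivAt_g2 γ (u + y)).comp_const_add u y)
      (fun y hy => by
        calc |g3 γ (u + y)| ≤ 20 * gg γ (u + y) := abs_g3_le h0 h1 _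
          _ ≤ 20 * (gg γ u * exp (2 * |y|)) := by gcongr; exact gg_shift h0 h1 u y
          _ ≤ 20 * (gg γ u * exp (2 * |d|)) := by
              have := gg_pos γ u
              gcongr
          _ = C := by rw [hC]; ring)
    intro y hy
    simpa using this y hy
  have s1 : ∀ y, |y| ≤ |d| → |g1 γ (u + y) - g1 γ u - g2 γ u * y| ≤ C * |d| * |d| := by
    have := small_of_deriv (f := fun y => g1 γ (u + y) - g2 γ u * y)
      (f' := fun y => g2 γ (u + y) - g2 γ u) (C := C * |d|)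
      (abs_nonneg d) (fun y _ => by
        have a1 := (hasDerivAt_g1 γ (u + y)).comp_const_add u y
        have a2 := (hasDerivAt_id y).const_mul (g2 γ u)
        refine (a1.sub a2).congr_deriv ?_
        ring) s2
    intro y hy
    have h := this y hy
    simp only [add_zero, mul_zero, sub_zero] at h
    convert h using 2
    ring
  have s0 := small_of_deriv (f := fun y => gg γ (u + y) - g1 γ u * y - g2 γ u * y ^ 2 / 2)
      (f' := fun y => g1 γ (u + y) - g1 γ u - g2 γ u * y) (C := C * |d| * |d|)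
      (abs_nonneg d) (fun y _ => by
        have a1 := (hasDerivAt_gg γ (u + y)).comp_const_add u y
        have a2 := (hasDerivAt_id y).const_mul (g1 γ u)
        have a3 := (((hasDerivAt_id y).pow 2).const_mul (g2 γ u)).div_const 2
        have a4 := (a1.sub a2).sub a3
        refine a4.congr_deriv ?_
        simp
        ring) s1 d le_rfl
  simp only [add_zero, mul_zero, sub_zero] at s0
  have e : gg γ (u + d) - gg γ u - g1 γ u * d - g2 γ u * d ^ 2 / 2 =
      gg γ (u + d) - g1 γ u * d - g2 γ u * d ^ 2 / 2 - (gg γ u - g2 γ u * 0 ^ 2 / 2) := by ring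
  rw [e]
  refine s0.trans (le_of_eq ?_)
  rw [hC]
  ring

theorem g2_nonneg {γ : ℝ} (h0 : 0 ≤ γ) (u : ℝ) : 0 ≤ g2 γ u := by
  unfold g2
  have hs := sg_pos u
  have hs1 := sg_lt_one u
  have hg := gg_pos γ u
  have : 0 ≤ sg u - (1 - γ) * sg u ^ 2 := by nlinarith [mul_nonneg h0 (sq_nonneg (sg u)), mul_pos hs (sub_pos.2 hs1)]
  positivity

theorem g2_le {γ : ℝ} (h0 : 0 ≤ γ) (h1 : γ ≤ 1) (u : ℝ) : g2 γ u ≤ 4 * gg γ u := by
  unfold g2
  have hs := sg_pos u
  have hs1 := sg_lt_one u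
  have hg := gg_pos γ u
  refine mul_le_mul_of_nonneg_right ?_ hg.le
  have e1 : sg u - (1 - γ) * sg u ^ 2 ≤ 1 := by
    have : 0 ≤ (1 - γ) * sg u ^ 2 := mul_nonneg (sub_nonneg.2 h1) (sq_nonneg _)
    linarith
  have e2 : 0 ≤ sg u - (1 - γ) * sg u ^ 2 := by
    nlinarith [mul_nonneg h0 (sq_nonneg (sg u)), mul_pos hs (sub_pos.2 hs1)]
  nlinarith

theorem g1_nonpos {γ : ℝ} (h0 : 0 ≤ γ) (u : ℝ) : g1 γ u ≤ 0 := by
  unfold g1
  have hs := sg_pos u
  have hg := gg_pos γ u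
  have : 0 ≤ 2 * γ * sg u * gg γ u := by positivity
  linarith

theorem neg_g1_le {γ : ℝ} (h0 : 0 ≤ γ) (h1 : γ ≤ 1) (u : ℝ) : -(2 * gg γ u) ≤ g1 γ u := by
  unfold g1
  have hs := sg_pos u
  have hs1 := sg_lt_one u
  have hg := gg_pos γ u
  have : γ * sg u ≤ 1 := by nlinarith
  nlinarith

theorem half_le_gg {γ : ℝ} (h0 : 0 ≤ γ) (h1 : γ ≤ 1) (u : ℝ) : 1 / 2 ≤ gg γ u := by
  unfold gg
  have h2 : (1:ℝ) / 2 ≤ (1 + exp (-2 * u)) / 2 := by have := exp_pos (-2 * u); linarith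
  calc (1:ℝ) / 2 = (1 / 2) ^ (1:ℝ) := (rpow_one _).symm
    _ ≤ (1 / 2) ^ γ := rpow_le_rpow_of_exponent_ge (by norm_num) (by norm_num) h1
    _ ≤ _ := rpow_le_rpow (by norm_num) h2 h0

theorem sg_mul_ge (u : ℝ) : exp (-u ^ 2) / 4 ≤ sg u * (1 - sg u) := by
  have h1 : sg u * (1 - sg u) = 1 / (4 * cosh u ^ 2) := by
    unfold sg
    rw [cosh_eq]
    have e1 : exp (2 * u) = exp u * exp u := by rw [← exp_add]; ring_nf
    have e2 : exp (-u) = (exp u)⁻¹ := exp_neg u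
    rw [e1, e2]
    have := exp_pos u
    field_simp
    ring
  have h2 : cosh u ^ 2 ≤ exp (u ^ 2) := by
    have h3 := cosh_le_exp_half_sq u
    calc cosh u ^ 2 ≤ exp (u ^ 2 / 2) ^ 2 := by
          have := cosh_pos u
          gcongr
      _ = exp (u ^ 2) := by rw [← exp_nat_mul]; congr 1; push_cast; ring
  rw [h1, exp_neg]
  have := cosh_pos u
  have h4 : 1 / exp (u ^ 2) ≤ 1 / cosh u ^ 2 := one_div_le_one_div_of_le (by positivity) h2
  calc (exp (u ^ 2))⁻¹ / 4 = (1 / exp (u ^ 2)) / 4 := by rw [one_div]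
    _ ≤ (1 / cosh u ^ 2) / 4 := by gcongr
    _ = _ := by field_simp

/-- The drift inequality. -/
theorem drift {γ : ℝ} (h0 : 0 < γ) (h1 : γ < 1) {e : ℝ} (he : 0 ≤ e) (u : ℝ) :
    γ * (1 - γ) * (exp (-u ^ 2) / 4) - 2 * e * gg γ u ≤ (γ + e) * g1 γ u + g2 γ u / 2 := by
  have hs := sg_pos u
  have hs1 := sg_lt_one u
  have hg := gg_pos γ u
  have hh := half_le_gg h0.le h1.le u
  have hq := sg_mul_ge u
  have e1 : (γ + e) * g1 γ u + g2 γ u / 2 =
      2 * γ * (1 - γ) * (sg u * (1 - sg u)) * gg γ u - 2 * e * (γ * sg u) * gg γ u := by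
    unfold g1 g2; ring
  rw [e1]
  have e2 : γ * sg u ≤ 1 := by nlinarith
  have e3 : 2 * e * (γ * sg u) * gg γ u ≤ 2 * e * gg γ u := by
    have : 2 * e * (γ * sg u) ≤ 2 * e * 1 := mul_le_mul_of_nonneg_left e2 (by positivity)
    nlinarith
  have e4 : γ * (1 - γ) * (exp (-u ^ 2) / 4) ≤ 2 * γ * (1 - γ) * (sg u * (1 - sg u)) * gg γ u := by
    have hp : 0 ≤ γ * (1 - γ) := by nlinarith
    calc γ * (1 - γ) * (exp (-u ^ 2) / 4) ≤ γ * (1 - γ) * (sg u * (1 - sg u)) := by gcongr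
      _ = 2 * γ * (1 - γ) * (sg u * (1 - sg u)) * (1 / 2) := by ring
      _ ≤ _ := by
        have : 0 ≤ 2 * γ * (1 - γ) * (sg u * (1 - sg u)) := by
          have : 0 ≤ sg u * (1 - sg u) := by nlinarith
          have h2 : 0 ≤ 2 * (γ * (1 - γ)) := by linarith
          calc (0:ℝ) ≤ 2 * (γ * (1 - γ)) * (sg u * (1 - sg u)) := mul_nonneg h2 this
            _ = _ := by ring
        gcongr
  linarith

end Pool.Agent.K6.H76.Cop
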