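import Mathlib

/-!
# The copolymer model near a selective interface

Definitions used in the statement: the inter-arrival law, the renewal process with signs, the
charges, the partition function, the free energy and the critical curve.
-/

set_option autoImplicit false

namespace Pool.Agent.K6.H76.Cop

open MeasureTheory ProbabilityTheory Filter Topology

/-- `K` is an inter-arrival law on `{1, 2, ...}` with `K(n) ~ c_K n^{-(1+α)}`, `c_K > 0`. -/
structure IsInterArrivalLaw (α : ℝ) (K : ℕ → ℝ) : Prop where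
  nonneg : ∀ n, 0 ≤ K n
  zero : K 0 = 0
  hasSum : HasSum K 1
  tail : ∃ c : ℝ, 0 < c ∧
    Asymptotics.IsEquivalent atTop K (fun n : ℕ => c * (n : ℝ) ^ (-(1 + α)))

/-- `ξ 0, ξ 1, ...` are the inter-arrival times (i.i.d. with law `K`) and `ε 0, ε 1, ...` the
independent fair signs of the excursions, on the probability space `(T, P)`. -/
structure IsSignedRenewal {T : Type*} [MeasurableSpace T] (K : ℕ → ℝ) (ξ : ℕ → T → ℕ)
    (ε : ℕ → T → ℤ) (P : Measure T) : Prop where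
  measurable_time : ∀ i, Measurable (ξ i)
  measurable_sign : ∀ i, Measurable (ε i)
  law : ∀ i n, P.real {t | ξ i t = n} = K n
  plus : ∀ i, P.real {t | ε i t = 1} = 1 / 2
  minus : ∀ i, P.real {t | ε i t = -1} = 1 / 2
  indep_time_sign : ∀ i, IndepFun (ξ i) (ε i) P
  indep : iIndepFun (fun i t => (ξ i t, ε i t)) P

/-- The charges, on `(Ω, μ)`: `X i` is `ω_{i+1}`. They are i.i.d., centred, of variance one, with
all exponential moments finite. -/
structure IsCharges {Ω : Type*} [MeasurableSpace Ω] (X : ℕ → Ω → ℝ) (μ : Measure Ω) : Prop where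
  measurable : ∀ i, Measurable (X i)
  indep : iIndepFun X μ
  ident : ∀ i, IdentDistrib (X i) (X 0) μ μ
  mean : ∫ ω, X 0 ω ∂μ = 0
  variance : ∫ ω, X 0 ω ^ 2 ∂μ = 1
  expMoments : ∀ t : ℝ, Integrable (fun ω => Real.exp (t * X 0 ω)) μ

/-- The renewal points: `τ_0 = 0` and `τ_i = ξ_0 + ... + ξ_{i-1}`. -/
def renewalPoint {T : Type*} (ξ : ℕ → T → ℕ) (i : ℕ) (t : T) : ℕ := ∑ j ∈ Finset.range i, ξ j t

open Classical in
/-- `Δ_n = 1` if `n` lies in an excursion `(τ_i, τ_{i+1}]` of sign `-1`, and `0` otherwise. -/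
noncomputable def below {T : Type*} (ξ : ℕ → T → ℕ) (ε : ℕ → T → ℤ) (n : ℕ) (t : T) : ℝ :=
  if ∃ i, renewalPoint ξ i t < n ∧ n ≤ renewalPoint ξ (i + 1) t ∧ ε i t = -1 then 1 else 0

/-- The partition function
`Z_N = E exp (-2 lam ∑_{n=1}^N Δ_n (ω_n + h))`, where `ω_{n+1} = x n`. -/
noncomputable def partitionFunction {T : Type*} [MeasurableSpace T] (ξ : ℕ → T → ℕ)
    (ε : ℕ → T → ℤ) (P : Measure T) (lam h : ℝ) (N : ℕ) (x : ℕ → ℝ) : ℝ :=
  ∫ t, Real.exp (-2 * lam * ∑ n ∈ Finset.range N, below ξ ε (n + 1) t * (x n + h)) ∂P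

/-- The free energy `f(lam, h) = lim (1/N) E log Z_N` (the limit exists, and is written as an
upper limit). -/
noncomputable def freeEnergy {T Ω : Type*} [MeasurableSpace T] [MeasurableSpace Ω]
    (ξ : ℕ → T → ℕ) (ε : ℕ → T → ℤ) (P : Measure T) (X : ℕ → Ω → ℝ) (μ : Measure Ω)
    (lam h : ℝ) : ℝ :=
  limsup (fun N : ℕ =>
    (1 / (N : ℝ)) * ∫ ω, Real.log (partitionFunction ξ ε P lam h N (fun n => X n ω)) ∂μ) atTop

/-- The critical curve `h_c(lam) = sup {h ≥ 0 : f(lam, h) > 0}`. -/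
noncomputable def criticalCurve {T Ω : Type*} [MeasurableSpace T] [MeasurableSpace Ω]
    (ξ : ℕ → T → ℕ) (ε : ℕ → T → ℤ) (P : Measure T) (X : ℕ → Ω → ℝ) (μ : Measure Ω)
    (lam : ℝ) : ℝ :=
  sSup {h : ℝ | 0 ≤ h ∧ 0 < freeEnergy ξ ε P X μ lam h}

end Pool.Agent.K6.H76.Cop
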