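import Pool.Agent.K6.H76.Cop.W

set_option autoImplicit false

namespace Pool.Agent.K6.H76.Cop

open Real Set Filter Topology

/-- The renewal sequence of weights of total mass larger than one is not bounded by a polynomial. -/
theorem uR_grow {w : ℕ → ℝ} (hw : ∀ n, 0 ≤ w n) {n₀ : ℕ}
    (hn : 1 < ∑ i ∈ Finset.range n₀, w (i + 1)) (C : ℝ) (k L₁ : ℕ) :
    ∃ L, L₁ ≤ L ∧ C * (L + 1 : ℝ) ^ k < uR w L := by
  by_contra hcon
  push Not at hcon
  -- choose x < 1
  have hcont : Continuous fun x : ℝ => ∑ i ∈ Finset.range n₀, w (i + 1) * x ^ (i + 1) := by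
    fun_prop
  have hev : ∀ᶠ x in 𝓝 (1:ℝ), 1 < ∑ i ∈ Finset.range n₀, w (i + 1) * x ^ (i + 1) := by
    apply (hcont.tendsto 1).eventually (lt_mem_nhds _)
    simpa using hn
  obtain ⟨x, hx, hx0, hx1⟩ : ∃ x : ℝ, 1 < ∑ i ∈ Finset.range n₀, w (i + 1) * x ^ (i + 1) ∧
      0 < x ∧ x < 1 := by
    have h1 : ∀ᶠ x in 𝓝[<] (1:ℝ), 1 < ∑ i ∈ Finset.range n₀, w (i + 1) * x ^ (i + 1) :=
      hev.filter_mono nhdsWithin_le_nhds
    have h2 : ∀ᶠ x in 𝓝[<] (1:ℝ), x ∈ Set.Ioo (0:ℝ) 1 := Ioo_mem_nhdsLT one_pos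
    obtain ⟨x, h3, h4⟩ := (h1.and h2).exists
    exact ⟨x, h3, h4.1, h4.2⟩
  set v : ℕ → ℝ := fun L => uR w L * x ^ L with hv
  have hv0 : ∀ L, 0 ≤ v L := fun L => mul_nonneg (uR_nonneg hw L) (pow_nonneg hx0.le _)
  have hvs : ∀ L, v (L + 1) = ∑ i ∈ Finset.range (L + 1), (w (i + 1) * x ^ (i + 1)) * v (L - i) := by
    intro L
    simp only [hv]
    rw [uR_succ, Finset.sum_mul]
    refine Finset.sum_congr rfl fun i hi => ?_
    have hi' : i ≤ L := by simp only [Finset.mem_range] at hi; omega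
    have e : x ^ (L + 1) = x ^ (i + 1) * x ^ (L - i) := by
      rw [← pow_add]; congr 1; omega
    rw [e]; ring
  set P : ℕ → ℝ := fun N => ∑ L ∈ Finset.range N, v L with hP
  have hPmono : ∀ {a b : ℕ}, a ≤ b → P a ≤ P b := by
    intro a b hab
    exact Finset.sum_le_sum_of_subset_of_nonneg (Finset.range_mono hab) fun i _ _ => hv0 i
  have hP0 : ∀ N, 0 ≤ P N := fun N => Finset.sum_nonneg fun i _ => hv0 i
  have hstep : ∀ N, n₀ ≤ N → 1 + P (N - n₀) ≤ P (N + 1) := by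
    intro N hN
    have e1 : P (N + 1) = ∑ L ∈ Finset.range N, v (L + 1) + v 0 := by
      simp only [hP]
      rw [Finset.sum_range_succ']
    have e2 : v 0 = 1 := by simp [hv, uR_zero]
    have e3 : ∑ L ∈ Finset.range N, v (L + 1) =
        ∑ m ∈ Finset.range N, ∑ j ∈ Finset.range (N - m), (w (m + 1) * x ^ (m + 1)) * v j := by
      rw [← Finset.sum_range_diag_flip N (fun i j => (w (i + 1) * x ^ (i + 1)) * v j)]
      exact Finset.sum_congr rfl fun L _ => hvs L
    have e4 : P (N - n₀) ≤ ∑ L ∈ Finset.range N, v (L + 1) := by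
      rw [e3]
      calc P (N - n₀) = 1 * P (N - n₀) := (one_mul _).symm
        _ ≤ (∑ i ∈ Finset.range n₀, w (i + 1) * x ^ (i + 1)) * P (N - n₀) :=
            mul_le_mul_of_nonneg_right hx.le (hP0 _)
        _ = ∑ m ∈ Finset.range n₀, (w (m + 1) * x ^ (m + 1)) * P (N - n₀) := by
            rw [Finset.sum_mul]
        _ ≤ ∑ m ∈ Finset.range n₀, ∑ j ∈ Finset.range (N - m), (w (m + 1) * x ^ (m + 1)) * v j := by
            refine Finset.sum_le_sum fun m hm => ?_
            have hm' : m < n₀ := by simpa using hm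
            rw [← Finset.mul_sum]
            have : 0 ≤ w (m + 1) * x ^ (m + 1) := mul_nonneg (hw _) (pow_nonneg hx0.le _)
            exact mul_le_mul_of_nonneg_left (hPmono (by omega)) this
        _ ≤ _ := by
            refine Finset.sum_le_sum_of_subset_of_nonneg (Finset.range_mono hN) fun m _ _ => ?_
            refine Finset.sum_nonneg fun j _ => ?_
            exact mul_nonneg (mul_nonneg (hw _) (pow_nonneg hx0.le _)) (hv0 j)
    rw [e1, e2]
    linarith
  have hlin : ∀ j : ℕ, (j : ℝ) ≤ P (j * (n₀ + 1)) := by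
    intro j
    induction j with
    | zero => simp [hP]
    | succ j ih =>
      have h1 := hstep (j * (n₀ + 1) + n₀) (by omega)
      have e : j * (n₀ + 1) + n₀ - n₀ = j * (n₀ + 1) := by omega
      have e' : j * (n₀ + 1) + n₀ + 1 = (j + 1) * (n₀ + 1) := by ring
      rw [e, e'] at h1
      push_cast
      linarith
  -- boundedness
  have hsum : Summable fun L : ℕ => C * ((L + 1 : ℝ) ^ k * x ^ L) := by
    have h1 : Summable fun L : ℕ => ((L : ℝ) ^ k * x ^ L) :=
      summable_pow_mul_geometric_of_norm_lt_one k (by rwa [norm_eq_abs, abs_of_pos hx0])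
    have h2 := (summable_nat_add_iff 1).2 h1
    have h3 : Summable fun L : ℕ => ((L + 1 : ℝ) ^ k * x ^ L) := by
      refine (h2.mul_left x⁻¹).congr fun L => ?_
      push_cast
      rw [pow_succ]
      field_simp
    exact h3.mul_left C
  have hsum' : Summable v := by
    rw [← summable_nat_add_iff L₁] at hsum ⊢
    refine Summable.of_nonneg_of_le (fun L => hv0 _) (fun L => ?_) hsum
    have := hcon (L + L₁) (by omega)
    simp only [hv]
    calc uR w (L + L₁) * x ^ (L + L₁) ≤ (C * ((L + L₁ : ℕ) + 1 : ℝ) ^ k) * x ^ (L + L₁) :=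
          mul_le_mul_of_nonneg_right this (pow_nonneg hx0.le _)
      _ = _ := by ring
  obtain ⟨j, hj⟩ := exists_nat_gt (∑' L, v L)
  have h1 := hlin j
  have h2 : P (j * (n₀ + 1)) ≤ ∑' L, v L := hsum'.sum_le_tsum _ fun i _ => hv0 i
  linarith

/-- `K n ~ c n^{-(1+α)}` -/
theorem tail_upper {K : ℕ → ℝ} {α c : ℝ} (hα : 0 < α) (hc : 0 < c)
    (hs : Tendsto (fun N => ∑ i ∈ Finset.range N, K (i + 1)) atTop (𝓝 1))
    (hK : Tendsto (fun n : ℕ => K n * (n:ℝ) ^ (1 + α)) atTop (𝓝 c)) :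
    ∀ᶠ N : ℕ in atTop, 1 - (2 * c / α) * (N:ℝ) ^ (-α) ≤ ∑ i ∈ Finset.range N, K (i + 1) := by
  have h1 : ∀ᶠ n : ℕ in atTop, K n * (n:ℝ) ^ (1 + α) ≤ 2 * c :=
    (hK.eventually (gt_mem_nhds (by linarith : c < 2 * c))).mono fun n h => le_of_lt h
  obtain ⟨n₁, hn₁⟩ := eventually_atTop.1 h1
  rw [eventually_atTop]
  refine ⟨max n₁ 1, fun N hN => ?_⟩
  have hN1 : n₁ ≤ N := (le_max_left _ _).trans hN
  have hN2 : 1 ≤ N := (le_max_right _ _).trans hN
  -- the antitone quantity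
  set F : ℕ → ℝ := fun M => ∑ i ∈ Finset.range M, K (i + 1) + (2 * c / α) * (M:ℝ) ^ (-α) with hF
  have hanti : ∀ M, N ≤ M → F (M + 1) ≤ F M := by
    intro M hM
    have hM1 : (0:ℝ) < M := by exact_mod_cast (by omega : 0 < M)
    have hM2 : (0:ℝ) < (M:ℝ) + 1 := by linarith
    have hk := hn₁ (M + 1) (by omega)
    push_cast at hk
    -- bernoulli
    have hb : ((M:ℝ) + 1) ^ (-α) * (1 + α / (M + 1)) ≤ (M:ℝ) ^ (-α) := by
      have e1 : (M:ℝ) ^ (-α) = ((M:ℝ) + 1) ^ (-α) * (M / (M + 1)) ^ (-α) := by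
        rw [← mul_rpow hM2.le (by positivity)]
        congr 1
        field_simp
      rw [e1]
      have h3 : 0 < ((M:ℝ) + 1) ^ (-α) := rpow_pos_of_pos hM2 _
      refine mul_le_mul_of_nonneg_left ?_ h3.le
      have h4 : (0:ℝ) < M / (M + 1) := by positivity
      rw [rpow_def_of_pos h4]
      have h5 : log (M / (M + 1)) ≤ -(1 / (M + 1)) := by
        have := log_le_sub_one_of_pos h4
        have e : (M:ℝ) / (M + 1) - 1 = -(1 / (M + 1)) := by field_simp; ring
        linarith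
      have h6 := add_one_le_exp (log (M / (M + 1)) * -α)
      have h7 : α / (M + 1) ≤ log (M / (M + 1)) * -α := by
        have : α * (1 / ((M:ℝ) + 1)) ≤ α * (-log (M / (M + 1))) :=
          mul_le_mul_of_nonneg_left (by linarith) hα.le
        calc α / ((M:ℝ) + 1) = α * (1 / (M + 1)) := by ring
          _ ≤ α * (-log (M / (M + 1))) := this
          _ = _ := by ring
      linarith
    have hk2 : K (M + 1) ≤ 2 * c * ((M:ℝ) + 1) ^ (-(1 + α)) := by
      rw [rpow_neg hM2.le, ← div_eq_mul_inv, le_div_iff₀ (rpow_pos_of_pos hM2 _)]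
      exact hk
    have e2 : ((M:ℝ) + 1) ^ (-(1 + α)) = ((M:ℝ) + 1) ^ (-α) * (1 / (M + 1)) := by
      have : -(1 + α) = -α + (-1) := by ring
      rw [this, rpow_add hM2, rpow_neg_one, one_div]
    simp only [hF]
    rw [Finset.sum_range_succ]
    push_cast
    have h8 : K (M + 1) ≤ (2 * c / α) * ((M:ℝ) ^ (-α) - ((M:ℝ) + 1) ^ (-α)) := by
      refine hk2.trans ?_
      rw [e2]
      have h9 : ((M:ℝ) + 1) ^ (-α) * (α / (M + 1)) ≤ (M:ℝ) ^ (-α) - ((M:ℝ) + 1) ^ (-α) := by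
        linarith
      calc 2 * c * (((M:ℝ) + 1) ^ (-α) * (1 / (M + 1)))
          = (2 * c / α) * (((M:ℝ) + 1) ^ (-α) * (α / (M + 1))) := by field_simp
        _ ≤ _ := by gcongr
    linarith
  have hanti2 : ∀ j, F (N + j) ≤ F N := by
    intro j
    induction j with
    | zero => simp
    | succ j ih => exact (hanti (N + j) (by omega)).trans ih
  have hlim : Tendsto F atTop (𝓝 (1 + (2 * c / α) * 0)) := by
    refine hs.add (Tendsto.const_mul _ ?_)
    exact (tendsto_rpow_neg_atTop hα).comp tendsto_natCast_atTop_atTop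
  have hlim2 : Tendsto (fun j => F (N + j)) atTop (𝓝 (1 + (2 * c / α) * 0)) := by
    have := hlim.comp (tendsto_add_atTop_nat N)
    refine this.congr fun j => ?_
    simp [add_comm]
  have := le_of_tendsto' hlim2 hanti2
  simp only [hF] at this
  linarith

/-- The weights have total mass larger than one. -/
theorem mass {K : ℕ → ℝ} {α c η : ℝ} (hα : 0 < α) (hc : 0 < c) (hη : 0 < η)
    (hK0 : ∀ n, 0 ≤ K n)
    (hs : Tendsto (fun N => ∑ i ∈ Finset.range N, K (i + 1)) atTop (𝓝 1))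
    (hK : Tendsto (fun n : ℕ => K n * (n:ℝ) ^ (1 + α)) atTop (𝓝 c)) :
    ∃ A : ℝ, 2 ≤ A ∧ ∃ t₀ > 0, ∀ t, 0 < t → t ≤ t₀ → ∀ b : ℕ → ℝ,
      (∀ n : ℕ, n * t ≤ A → 1 ≤ b n) → (∀ n : ℕ, 1 ≤ n * t → n * t ≤ 2 → 1 + η ≤ b n) →
      ∃ n₀ : ℕ, 1 < ∑ i ∈ Finset.range n₀, K (i + 1) * b (i + 1) := by
  -- choose A
  have htend : Tendsto (fun A : ℝ => (2 / α) * (A / 2) ^ (-α)) atTop (𝓝 ((2 / α) * 0)) := by
    refine Tendsto.const_mul _ ?_
    exact (tendsto_rpow_neg_atTop hα).comp (tendsto_id.atTop_div_const (by norm_num))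
  rw [mul_zero] at htend
  have hpos : 0 < η * (2:ℝ) ^ (-(3 + α)) := by positivity
  obtain ⟨A, hA1, hA2⟩ := ((htend.eventually (gt_mem_nhds hpos)).and (eventually_ge_atTop 2)).exists
  obtain ⟨n₁, hn₁⟩ := eventually_atTop.1 (tail_upper hα hc hs hK)
  have h1 : ∀ᶠ n : ℕ in atTop, c / 2 ≤ K n * (n:ℝ) ^ (1 + α) :=
    (hK.eventually (lt_mem_nhds (by linarith : c / 2 < c))).mono fun n h => le_of_lt h
  obtain ⟨n₂, hn₂⟩ := eventually_atTop.1 h1
  refine ⟨A, hA2, min (1 / 2) (1 / (n₁ + n₂ + 1)), ?_, ?_⟩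
  · refine lt_min (by norm_num) (by positivity)
  intro t ht htt b hb1 hb2
  have ht1 : t ≤ 1 / 2 := htt.trans (min_le_left _ _)
  have ht2 : t ≤ 1 / (n₁ + n₂ + 1) := htt.trans (min_le_right _ _)
  have hinv : (n₁ + n₂ + 1 : ℝ) ≤ 1 / t := by
    rw [le_div_iff₀ ht]
    rw [le_div_iff₀ (by positivity)] at ht2
    linarith
  have hinv2 : (2:ℝ) ≤ 1 / t := by rw [le_div_iff₀ ht]; linarith
  set N := ⌊A / t⌋₊ with hN
  have hAt : 0 ≤ A / t := by positivity
  have hN1 : (N:ℝ) ≤ A / t := Nat.floor_le hAt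
  have hN2 : A / t - 1 < N := by have := Nat.lt_floor_add_one (A / t); linarith
  have hAt2 : 2 * (1 / t) ≤ A / t := by
    rw [mul_one_div]; gcongr
  have hN3 : A / (2 * t) ≤ N := by
    have : A / (2 * t) = (A / t) / 2 := by field_simp
    rw [this]
    linarith
  have hNn : n₁ ≤ N := by
    have : (n₁:ℝ) ≤ N := by
      have : (0:ℝ) ≤ n₂ := by positivity
      linarith
    exact_mod_cast this
  refine ⟨N, ?_⟩
  have htail := hn₁ N hNn
  -- the block
  set M := ⌈1 / t⌉₊ with hM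
  have hM1 : 1 / t ≤ M := Nat.le_ceil _
  have hM2 : (M:ℝ) < 1 / t + 1 := Nat.ceil_lt_add_one (by positivity)
  set Q := ⌊2 / t⌋₊ with hQ
  have hQ1 : (Q:ℝ) ≤ 2 / t := Nat.floor_le (by positivity)
  have hQ2 : 2 / t - 1 < Q := by have := Nat.lt_floor_add_one (2 / t); linarith
  have e2t : 2 / t = 2 * (1 / t) := by ring
  have hQN : Q ≤ N := by
    apply Nat.floor_mono
    gcongr
  have hMpos : 1 ≤ M := by
    have : (1:ℝ) ≤ M := by linarith
    exact_mod_cast this
  -- split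
  have hsplit : ∑ i ∈ Finset.range N, K (i + 1) + η * ∑ i ∈ Finset.Ico (M - 1) Q, K (i + 1) ≤
      ∑ i ∈ Finset.range N, K (i + 1) * b (i + 1) := by
    have hsub : Finset.Ico (M - 1) Q ⊆ Finset.range N := by
      intro x hx
      simp only [Finset.mem_Ico, Finset.mem_range] at hx ⊢
      omega
    have e1 : η * ∑ i ∈ Finset.Ico (M - 1) Q, K (i + 1) =
        ∑ i ∈ Finset.range N, if i ∈ Finset.Ico (M - 1) Q then η * K (i + 1) else 0 := by
      rw [← Finset.sum_filter, Finset.mul_sum]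
      refine Finset.sum_congr ?_ fun _ _ => rfl
      ext x
      simp only [Finset.mem_filter]
      exact ⟨fun h => ⟨hsub h, h⟩, fun h => h.2⟩
    rw [e1, ← Finset.sum_add_distrib]
    refine Finset.sum_le_sum fun i hi => ?_
    have hiN : i + 1 ≤ N := by simp only [Finset.mem_range] at hi; omega
    have hiN' : ((i + 1 : ℕ) : ℝ) ≤ N := by exact_mod_cast hiN
    have hk := hK0 (i + 1)
    have hle : ((i + 1 : ℕ) : ℝ) * t ≤ A := by
      have : ((i + 1 : ℕ) : ℝ) ≤ A / t := hiN'.trans hN1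
      rwa [le_div_iff₀ ht] at this
    split_ifs with hmem
    · simp only [Finset.mem_Ico] at hmem
      have h2 : M ≤ i + 1 := by omega
      have h3 : i + 1 ≤ Q := by omega
      have h2' : (M:ℝ) ≤ ((i + 1 : ℕ) : ℝ) := by exact_mod_cast h2
      have h3' : ((i + 1 : ℕ) : ℝ) ≤ Q := by exact_mod_cast h3
      have h4 : 1 ≤ ((i + 1 : ℕ) : ℝ) * t := by
        have : 1 / t ≤ ((i + 1 : ℕ) : ℝ) := hM1.trans h2'
        rwa [div_le_iff₀ ht] at this
      have h5 : ((i + 1 : ℕ) : ℝ) * t ≤ 2 := by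
        have : ((i + 1 : ℕ) : ℝ) ≤ 2 / t := h3'.trans hQ1
        rwa [le_div_iff₀ ht] at this
      have := hb2 (i + 1) h4 h5
      nlinarith
    · have := hb1 (i + 1) hle
      nlinarith
  -- lower bound for the block
  have hblock : c * (2:ℝ) ^ (-(3 + α)) * t ^ α ≤ ∑ i ∈ Finset.Ico (M - 1) Q, K (i + 1) := by
    have h2 : ∀ i ∈ Finset.Ico (M - 1) Q, c / 2 * (2 / t) ^ (-(1 + α)) ≤ K (i + 1) := by
      intro i hi
      simp only [Finset.mem_Ico] at hi
      have h2 : M ≤ i + 1 := by omega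
      have h3 : i + 1 ≤ Q := by omega
      have h2' : (M:ℝ) ≤ ((i + 1 : ℕ) : ℝ) := by exact_mod_cast h2
      have h3' : ((i + 1 : ℕ) : ℝ) ≤ Q := by exact_mod_cast h3
      have hn2 : n₂ ≤ i + 1 := by
        have : (n₂:ℝ) ≤ ((i + 1 : ℕ) : ℝ) := by
          have : (0:ℝ) ≤ n₁ := by positivity
          linarith
        exact_mod_cast this
      have h4 := hn₂ (i + 1) hn2
      have hip : (0:ℝ) < ((i + 1 : ℕ) : ℝ) := by positivity
      have h5 : c / 2 * ((i + 1 : ℕ) : ℝ) ^ (-(1 + α)) ≤ K (i + 1) := by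
        rw [rpow_neg hip.le, ← div_eq_mul_inv, div_le_iff₀ (rpow_pos_of_pos hip _)]
        exact h4
      refine le_trans ?_ h5
      have h6 : (2 / t) ^ (-(1 + α)) ≤ ((i + 1 : ℕ) : ℝ) ^ (-(1 + α)) := by
        apply rpow_le_rpow_of_nonpos hip (h3'.trans hQ1)
        linarith
      gcongr
    have h3 := Finset.card_nsmul_le_sum (Finset.Ico (M - 1) Q) (fun i => K (i + 1)) _ h2
    refine le_trans ?_ h3
    rw [nsmul_eq_mul, Nat.card_Ico]
    have hcard : 1 / (2 * t) ≤ ((Q - (M - 1) : ℕ) : ℝ) := by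
      have hMQ : M - 1 ≤ Q := by
        have : (M:ℝ) ≤ Q + 1 := by linarith
        have : M ≤ Q + 1 := by exact_mod_cast this
        omega
      rw [Nat.cast_sub hMQ, Nat.cast_sub hMpos]
      have : 1 / (2 * t) = (1 / t) / 2 := by field_simp
      rw [this]
      push_cast
      linarith
    have hp2 : 0 < c / 2 * (2 / t) ^ (-(1 + α)) := by positivity
    calc c * (2:ℝ) ^ (-(3 + α)) * t ^ α = 1 / (2 * t) * (c / 2 * (2 / t) ^ (-(1 + α))) := by
          rw [div_rpow (by norm_num) ht.le]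
          have e1 : (2:ℝ) ^ (-(3 + α)) = 2 ^ (-(1 + α)) * (1 / 4) := by
            have : -(3 + α) = -(1 + α) + (-2) := by ring
            rw [this, rpow_add (by norm_num)]
            congr 1
            rw [rpow_neg (by norm_num)]
            norm_num
          have e2 : t ^ α = t ^ (1 + α) * t⁻¹ := by
            rw [← rpow_neg_one t, ← rpow_add ht]; congr 1; ring
          rw [e1, e2, rpow_neg ht.le]
          have : 0 < t ^ (1 + α) := rpow_pos_of_pos ht _
          field_simp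
          norm_num
      _ ≤ _ := by gcongr
  -- tail at N
  have htail2 : (2 * c / α) * (N:ℝ) ^ (-α) ≤ c * ((2 / α) * (A / 2) ^ (-α)) * t ^ α := by
    have h2 : (N:ℝ) ^ (-α) ≤ (A / (2 * t)) ^ (-α) := by
      apply rpow_le_rpow_of_nonpos (by positivity) hN3
      linarith
    have h3 : (A / (2 * t)) ^ (-α) = (A / 2) ^ (-α) * t ^ α := by
      have : A / (2 * t) = (A / 2) / t := by field_simp
      rw [this, div_rpow (by positivity) ht.le, rpow_neg ht.le, div_inv_eq_mul]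
    rw [h3] at h2
    calc (2 * c / α) * (N:ℝ) ^ (-α) ≤ (2 * c / α) * ((A / 2) ^ (-α) * t ^ α) := by gcongr
      _ = _ := by ring
  have htα : 0 < t ^ α := rpow_pos_of_pos ht _
  have hfin : c * ((2 / α) * (A / 2) ^ (-α)) * t ^ α < η * (c * (2:ℝ) ^ (-(3 + α)) * t ^ α) := by
    have : c * t ^ α * ((2 / α) * (A / 2) ^ (-α)) < c * t ^ α * (η * (2:ℝ) ^ (-(3 + α))) :=
      mul_lt_mul_of_pos_left hA1 (by positivity)
    linarith
  have hbl2 : η * (c * (2:ℝ) ^ (-(3 + α)) * t ^ α) ≤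
      η * ∑ i ∈ Finset.Ico (M - 1) Q, K (i + 1) := by gcongr
  linarith

end Pool.Agent.K6.H76.Cop
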