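import Pool.Agent.K6.H76.Cop.Grow

set_option autoImplicit false

namespace Pool.Agent.K6.H76.Cop

open Real Set Filter Topology MeasureTheory ProbabilityTheory

variable {Ω : Type*} [mΩ : MeasurableSpace Ω] {X : ℕ → Ω → ℝ} {μ : Measure Ω} {K : ℕ → ℝ}

theorem layer {w γ : ℝ} (hw : 0 ≤ w) (h0 : 0 < γ) (h1 : γ < 1) (J : ℕ) :
    w ^ γ ≤ 1 + exp γ * ∑ j ∈ Finset.range J, exp (γ * j) * (if exp j ≤ w then 1 else 0) +
      exp (-((1 - γ) * J)) * w := by
  have hs0 : 0 ≤ ∑ j ∈ Finset.range J, exp (γ * j) * (if exp (j:ℝ) ≤ w then (1:ℝ) else 0) := by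
    refine Finset.sum_nonneg fun j _ => ?_
    split_ifs <;> positivity
  have ht0 : 0 ≤ exp (-((1 - γ) * J)) * w := by positivity
  rcases lt_or_ge w 1 with h | h
  · have := rpow_le_one hw h.le h0.le
    have : 0 ≤ exp γ * ∑ j ∈ Finset.range J, exp (γ * j) * (if exp (j:ℝ) ≤ w then (1:ℝ) else 0) := by
      positivity
    linarith
  rcases le_or_gt (exp J) w with h2 | h2
  · have hw0 : 0 < w := by linarith
    have h3 : w ^ γ ≤ exp (-((1 - γ) * J)) * w := by
      have e : w ^ γ = w ^ (-(1 - γ)) * w := by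
        nth_rewrite 3 [← rpow_one w]
        rw [← rpow_add hw0]
        congr 1; ring
      rw [e]
      refine mul_le_mul_of_nonneg_right ?_ hw
      calc w ^ (-(1 - γ)) ≤ (exp J) ^ (-(1 - γ)) := by
            apply rpow_le_rpow_of_nonpos (exp_pos _) h2; linarith
        _ = exp (-((1 - γ) * J)) := by rw [← exp_mul]; ring_nf
    have : 0 ≤ exp γ * ∑ j ∈ Finset.range J, exp (γ * j) * (if exp (j:ℝ) ≤ w then (1:ℝ) else 0) := by
      positivity
    linarith
  · have hw0 : 0 < w := by linarith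
    have hlog0 : 0 ≤ log w := log_nonneg h
    set j := ⌊log w⌋₊ with hj
    have hj1 : (j:ℝ) ≤ log w := Nat.floor_le hlog0
    have hj2 : log w < j + 1 := Nat.lt_floor_add_one _
    have hjJ : j < J := by
      have : log w < J := by rwa [log_lt_iff_lt_exp hw0]
      have : (j:ℝ) < J := by linarith
      exact_mod_cast this
    have h3 : exp (j:ℝ) ≤ w := by
      calc exp (j:ℝ) ≤ exp (log w) := exp_le_exp.2 hj1
        _ = w := exp_log hw0
    have h4 : w ^ γ ≤ exp γ * exp (γ * j) := by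
      rw [← exp_add, rpow_def_of_pos hw0]
      apply exp_le_exp.2
      nlinarith
    have h5 : exp (γ * j) ≤ ∑ j ∈ Finset.range J, exp (γ * j) *
        (if exp (j:ℝ) ≤ w then (1:ℝ) else 0) := by
      have := Finset.single_le_sum (f := fun j : ℕ => exp (γ * j) *
        (if exp (j:ℝ) ≤ w then (1:ℝ) else 0)) (fun i _ => by
          split_ifs <;> positivity) (Finset.mem_range.2 hjJ)
      simp only [h3, if_true, mul_one] at this
      exact this
    have h6 : exp γ * exp (γ * j) ≤ exp γ * ∑ j ∈ Finset.range J, exp (γ * j) *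
        (if exp (j:ℝ) ≤ w then (1:ℝ) else 0) := by gcongr
    linarith

/-- There is a good level. -/
theorem level (hK : KK K) (hX : Charges X μ) {l γ : ℝ} (hl : 0 ≤ l) (h0 : 0 < γ)
    (h1 : γ < 1) (h : ℝ) {b : ℕ → ℝ} (hb : ∀ n, b n = 0 ∨ 1 ≤ b n)
    (hbe : ∀ a n, n ≠ 0 → b n ≤ ∫ ω, ph X l h a n ω ^ γ ∂μ)
    {n₀ : ℕ} (hn : 1 < ∑ i ∈ Finset.range n₀, K (i + 1) * b (i + 1)) {c₁ : ℝ} (hc : 0 < c₁)
    (L₀ : ℕ) :
    ∃ L, L₀ ≤ L ∧ 1 ≤ L ∧ ∃ T > 0, (L:ℝ) < μ.real {ω | T ≤ W K X l h L 0 ω} * (c₁ * T) ^ γ := by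
  have hprob := hX.prob
  by_contra hcon
  push Not at hcon
  have hb0 : ∀ n, 0 ≤ b n := fun n => by rcases hb n with h | h <;> linarith
  have hw : ∀ n, 0 ≤ K n * b n := fun n => mul_nonneg (hK.nonneg n) (hb0 n)
  set R := log (rho X μ l h) with hR
  have hrho := one_le_rho hX hl h
  have hR0 : 0 ≤ R := log_nonneg hrho
  have h1γ : 0 < 1 - γ := by linarith
  set C := exp γ * (c₁ ^ γ)⁻¹ * (R / (1 - γ) + 1) with hC
  have hcγ : 0 < c₁ ^ γ := rpow_pos_of_pos hc _
  have hC0 : 0 ≤ C := by positivity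
  have key : ∀ L, L₀ ≤ L → 1 ≤ L → uR (fun n => K n * b n) L ^ γ ≤ (2 + C) * (L + 1 : ℝ) ^ 2 := by
    intro L hL hL1
    have f1 := frac_moment hK hX hl h0 h1.le h hb hbe L 0
    refine f1.trans ?_
    set J := ⌈R * L / (1 - γ)⌉₊ with hJ
    have hJ1 : R * L / (1 - γ) ≤ J := Nat.le_ceil _
    have hJ2 : (J:ℝ) < R * L / (1 - γ) + 1 := Nat.ceil_lt_add_one (by positivity)
    have hmeas := measurable_W (K := K) hX l h L 0
    have hms : ∀ T, MeasurableSet {ω | T ≤ W K X l h L 0 ω} := fun T =>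
      measurableSet_le measurable_const hmeas
    have hpt : ∀ ω, W K X l h L 0 ω ^ γ ≤ 1 + exp γ * ∑ j ∈ Finset.range J,
        exp (γ * j) * ({ω | exp (j:ℝ) ≤ W K X l h L 0 ω}.indicator (fun _ => (1:ℝ)) ω) +
        exp (-((1 - γ) * J)) * W K X l h L 0 ω := by
      intro ω
      have := layer (W_nonneg hK X l h L 0 ω) h0 h1 J
      simpa only [Set.indicator_apply, Set.mem_ofPred_eq] using this
    have hi1 : Integrable (fun ω => ∑ j ∈ Finset.range J,
        exp (γ * j) * ({ω | exp (j:ℝ) ≤ W K X l h L 0 ω}.indicator (fun _ => (1:ℝ)) ω)) μ :=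
      integrable_finsetSum _ fun j _ => ((integrable_const (1:ℝ)).indicator (hms _)).const_mul _
    have hi2 : Integrable (fun ω => 1 + exp γ * ∑ j ∈ Finset.range J,
        exp (γ * j) * ({ω | exp (j:ℝ) ≤ W K X l h L 0 ω}.indicator (fun _ => (1:ℝ)) ω)) μ :=
      (integrable_const _).add (hi1.const_mul _)
    have hi3 := (int_W hK hX hl h L 0).const_mul (exp (-((1 - γ) * J)))
    have hm := integral_mono (int_W_rpow hK hX hl h0.le h1.le h L 0) (hi2.add hi3) hpt
    refine hm.trans ?_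
    have e1 : ∫ ω, ((1 + exp γ * ∑ j ∈ Finset.range J,
        exp (γ * j) * ({ω | exp (j:ℝ) ≤ W K X l h L 0 ω}.indicator (fun _ => (1:ℝ)) ω)) +
        exp (-((1 - γ) * J)) * W K X l h L 0 ω) ∂μ =
        1 + exp γ * ∑ j ∈ Finset.range J, exp (γ * j) * μ.real {ω | exp (j:ℝ) ≤ W K X l h L 0 ω} +
        exp (-((1 - γ) * J)) * ∫ ω, W K X l h L 0 ω ∂μ := by
      rw [integral_add hi2 hi3, integral_add (integrable_const _) (hi1.const_mul _),
        integral_const_mul, integral_const_mul, integral_finsetSum]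
      · simp only [integral_const, probReal_univ, one_smul]
        congr 3
        refine Finset.sum_congr rfl fun j _ => ?_
        rw [integral_const_mul, integral_indicator_const _ (hms _)]
        simp
      · intro j _
        exact ((integrable_const (1:ℝ)).indicator (hms _)).const_mul _
    have e1' : ∫ ω, ((fun ω => 1 + exp γ * ∑ j ∈ Finset.range J,
        exp (γ * j) * ({ω | exp (j:ℝ) ≤ W K X l h L 0 ω}.indicator (fun _ => (1:ℝ)) ω)) +
        fun ω => exp (-((1 - γ) * J)) * W K X l h L 0 ω) ω ∂μ = _ := e1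
    rw [e1']
    -- the terms
    have t1 : ∀ j ∈ Finset.range J, exp (γ * j) * μ.real {ω | exp (j:ℝ) ≤ W K X l h L 0 ω} ≤
        L * (c₁ ^ γ)⁻¹ := by
      intro j _
      have := hcon L hL hL1 (exp j) (exp_pos _)
      rw [mul_rpow hc.le (exp_pos _).le, ← exp_mul, mul_comm (j:ℝ) γ] at this
      rw [← div_eq_mul_inv, le_div_iff₀ hcγ]
      linarith
    have t2 := Finset.sum_le_card_nsmul _ _ _ t1
    rw [Finset.card_range, nsmul_eq_mul] at t2
    have t3 : exp (-((1 - γ) * J)) * ∫ ω, W K X l h L 0 ω ∂μ ≤ 1 := by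
      have u1 := integral_W_le hK hX hl h L 0
      have u2 : rho X μ l h ^ L = exp (R * L) := by
        rw [hR, ← rpow_natCast, rpow_def_of_pos (by linarith)]
      rw [u2] at u1
      calc exp (-((1 - γ) * J)) * ∫ ω, W K X l h L 0 ω ∂μ
          ≤ exp (-((1 - γ) * J)) * exp (R * L) := by gcongr
        _ = exp (-((1 - γ) * J) + R * L) := by rw [exp_add]
        _ ≤ 1 := by
          apply exp_le_one_iff.2
          rw [div_le_iff₀ h1γ] at hJ1
          linarith
    have hL1' : (1:ℝ) ≤ L := by exact_mod_cast hL1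
    have t4 : exp γ * (J * (L * (c₁ ^ γ)⁻¹)) ≤ C * (L + 1) ^ 2 := by
      have u3 : (J:ℝ) ≤ (R / (1 - γ) + 1) * (L + 1) := by
        have : R * L / (1 - γ) = R / (1 - γ) * L := by ring
        have h2 : 0 ≤ R / (1 - γ) := by positivity
        nlinarith
      calc exp γ * (J * (L * (c₁ ^ γ)⁻¹)) ≤
          exp γ * (((R / (1 - γ) + 1) * (L + 1)) * ((L + 1) * (c₁ ^ γ)⁻¹)) := by
            gcongr
            linarith
        _ = _ := by rw [hC]; ring
    have t5 : exp γ * ∑ j ∈ Finset.range J, exp (γ * j) *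
        μ.real {ω | exp (j:ℝ) ≤ W K X l h L 0 ω} ≤ exp γ * (J * (L * (c₁ ^ γ)⁻¹)) := by
      gcongr
    have t6 : (2:ℝ) ≤ 2 * (L + 1) ^ 2 := by nlinarith
    linarith
  -- growth
  set k := ⌈2 / γ⌉₊ with hk
  obtain ⟨L, hL, hgr⟩ := uR_grow hw hn ((2 + C) ^ (1 / γ)) k (max L₀ 1)
  have hk1 := key L ((le_max_left _ _).trans hL) ((le_max_right _ _).trans hL)
  have hu := uR_nonneg hw L
  have h2 : uR (fun n => K n * b n) L ≤ ((2 + C) * (L + 1 : ℝ) ^ 2) ^ (1 / γ) := by
    calc uR (fun n => K n * b n) L = (uR (fun n => K n * b n) L ^ γ) ^ (1 / γ) := by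
          rw [← rpow_mul hu, mul_one_div_cancel h0.ne', rpow_one]
      _ ≤ _ := by gcongr
  have h3 : ((2 + C) * (L + 1 : ℝ) ^ 2) ^ (1 / γ) ≤ (2 + C) ^ (1 / γ) * (L + 1 : ℝ) ^ k := by
    rw [mul_rpow (by positivity) (by positivity)]
    gcongr
    calc (((L:ℝ) + 1) ^ 2) ^ (1 / γ) = ((L:ℝ) + 1) ^ (2 / γ) := by
          rw [← rpow_natCast, ← rpow_mul (by positivity)]
          congr 1
          push_cast
          ring
      _ ≤ ((L:ℝ) + 1) ^ (k:ℝ) := by
          apply rpow_le_rpow_of_exponent_le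
          · have : (0:ℝ) ≤ L := by positivity
            linarith
          · exact Nat.le_ceil _
      _ = ((L:ℝ) + 1) ^ k := rpow_natCast _ _
  linarith

end Pool.Agent.K6.H76.Cop
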