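import Pool.Agent.K6.H76.Cop.Ren

set_option autoImplicit false

namespace Pool.Agent.K6.H76.Cop

open Real Set Filter Topology MeasureTheory ProbabilityTheory

variable {T Ω : Type*} [mT : MeasurableSpace T] [mΩ : MeasurableSpace Ω]
  {K : ℕ → ℝ} {ξ : ℕ → T → ℕ} {ε : ℕ → T → ℤ} {P : Measure T} {X : ℕ → Ω → ℝ} {μ : Measure Ω}

/-- the critical set is bounded above -/
theorem bddAbove_crit (hR : IsSignedRenewal K ξ ε P) (hX : Charges X μ) {l : ℝ} (hl : 0 < l) :
    BddAbove {h : ℝ | 0 ≤ h ∧ 0 < freeEnergy ξ ε P X μ l h} := by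
  set M := ∫ ω, exp (-2 * l * X 0 ω) ∂μ with hM
  have hprob := hX.prob
  have hM0 : 0 < M := by
    have : 0 < mgf (X 0) μ (-2 * l) := mgf_pos (hX.mgf (-2 * l))
    exact this
  refine ⟨log M / (2 * l), ?_⟩
  rintro h ⟨h0, hf⟩
  by_contra hcon
  push Not at hcon
  have h1 : M * exp (-2 * l * h) ≤ 1 := by
    rw [div_lt_iff₀ (by positivity)] at hcon
    calc M * exp (-2 * l * h) = exp (log M) * exp (-2 * l * h) := by rw [exp_log hM0]
      _ = exp (log M + -2 * l * h) := by rw [exp_add]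
      _ ≤ 1 := by apply exp_le_one_iff.2; linarith
  have h2 := fun N => annealed hR hX hl.le h1 N
  have h3 : freeEnergy ξ ε P X μ l h ≤ 0 := by
    unfold freeEnergy
    refine limsup_le_of_le ?_ (Filter.Eventually.of_forall fun N => ?_)
    · refine IsCoboundedUnder.of_frequently_ge (a := -(2 * l * ((∫ ω, |X 0 ω| ∂μ) + |h|))) ?_
      exact Filter.Frequently.of_forall fun N => (abs_le.1 (abs_fv hR hX hl.le h N)).1
    · exact mul_nonpos_of_nonneg_of_nonpos (by positivity) (h2 N)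
  linarith

theorem freeEnergy_pos (hR : IsSignedRenewal K ξ ε P) (hX : Charges X μ) {l h δ : ℝ} (hl : 0 ≤ l)
    (hδ : 0 < δ)
    (hW : ∀ᶠ N : ℕ in atTop, (∀ ω, 0 < W K X l h N 0 ω) ∧
      Integrable (fun ω => log (W K X l h N 0 ω)) μ ∧
      δ * N ≤ ∫ ω, log (W K X l h N 0 ω) ∂μ) :
    0 < freeEnergy ξ ε P X μ l h := by
  refine hδ.trans_le ?_
  unfold freeEnergy
  refine le_limsup_of_frequently_le (Filter.Eventually.frequently ?_) ?_
  · filter_upwards [hW, eventually_gt_atTop 0] with N ⟨h1, h2, h3⟩ hN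
    have hN' : (0:ℝ) < N := by exact_mod_cast hN
    have h4 : ∫ ω, log (W K X l h N 0 ω) ∂μ ≤
        ∫ ω, log (partitionFunction ξ ε P l h N (fun n => X n ω)) ∂μ :=
      integral_mono h2 (integrable_log_pf hR hX hl h N) fun ω =>
        log_le_log (h1 ω) (W_le_pf hR X hl h N ω)
    rw [one_div, ← div_eq_inv_mul, le_div_iff₀ hN']
    exact h3.trans h4
  · refine isBoundedUnder_of ⟨2 * l * ((∫ ω, |X 0 ω| ∂μ) + |h|), fun N => ?_⟩
    exact (abs_le.1 (abs_fv hR hX hl h N)).2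

/-- The strict lower bound on the slope at the origin. -/
theorem main {α : ℝ} (hα : 0 < α) (hK : IsInterArrivalLaw α K) (hR : IsSignedRenewal K ξ ε P)
    (hX : IsCharges X μ) :
    ∃ δ > 0, ∀ᶠ lam in 𝓝[>] (0:ℝ), (1 / (1 + α) + δ) * lam ≤ criticalCurve ξ ε P X μ lam := by
  have hX' := hX.charges
  have hprob := hX'.prob
  have hKK := hK.kk
  obtain ⟨c, hc, htail⟩ := hK.tendsto_tail
  set γ := 1 / (1 + α) with hγ
  have hα1 : 0 < 1 + α := by linarith
  have h0 : 0 < γ := by positivity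
  have h1 : γ < 1 := by rw [hγ, div_lt_one hα1]; linarith
  obtain ⟨e₂, he₂, l₂, hl₂, κ₂, hκ₂, hm₂⟩ := mom hX' h0 h1 (A := 2) (by norm_num)
  obtain ⟨A, hA, t₀, ht₀, hmass⟩ := mass hα hc hκ₂ hK.nonneg hK.tendsto_sum htail
  obtain ⟨eA, heA, lA, hlA, κA, hκA, hmA⟩ := mom hX' h0 h1 (A := A) (by linarith)
  -- c₁
  have hev : ∀ᶠ n : ℕ in atTop, min 1 (c / 4) * (n:ℝ) ^ (-(1 + α)) ≤ K n / 2 := by
    filter_upwards [htail.eventually (lt_mem_nhds (by linarith : c / 2 < c)),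
      eventually_gt_atTop 0] with n hn hn0
    have hn' : (0:ℝ) < n := by exact_mod_cast hn0
    have hp : 0 < (n:ℝ) ^ (1 + α) := rpow_pos_of_pos hn' _
    rw [rpow_neg hn'.le, ← div_eq_mul_inv, div_le_iff₀ hp]
    have : min 1 (c / 4) ≤ c / 4 := min_le_right _ _
    linarith
  obtain ⟨n₁, hn₁⟩ := eventually_atTop.1 hev
  have hc₁ : 0 < min 1 (c / 4) := lt_min one_pos (by positivity)
  refine ⟨min e₂ eA, lt_min he₂ heA, ?_⟩
  have hl₀ : 0 < min (min l₂ lA) (min 1 t₀) :=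
    lt_min (lt_min hl₂ hlA) (lt_min one_pos ht₀)
  filter_upwards [Ioc_mem_nhdsGT hl₀] with l hl
  obtain ⟨hl1, hl2⟩ := hl
  have hla : l ≤ l₂ := hl2.trans ((min_le_left _ _).trans (min_le_left _ _))
  have hlb : l ≤ lA := hl2.trans ((min_le_left _ _).trans (min_le_right _ _))
  have hlc : l ≤ 1 := hl2.trans ((min_le_right _ _).trans (min_le_left _ _))
  have hld : l ≤ t₀ := hl2.trans ((min_le_right _ _).trans (min_le_right _ _))
  set e := min e₂ eA with he
  have he0 : 0 ≤ e := (lt_min he₂ heA).le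
  set h := (γ + e) * l with hh
  have hh0 : 0 ≤ h := by positivity
  -- the weights
  classical
  set b : ℕ → ℝ := fun n => if (n:ℝ) * l ^ 2 ≤ A then
    (if 1 ≤ (n:ℝ) * l ^ 2 ∧ (n:ℝ) * l ^ 2 ≤ 2 then 1 + κ₂ else 1) else 0 with hb
  have hb1 : ∀ n, b n = 0 ∨ 1 ≤ b n := by
    intro n
    simp only [hb]
    split_ifs
    · right; linarith
    · right; exact le_rfl
    · left; rfl
  have hbe : ∀ a n, n ≠ 0 → b n ≤ ∫ ω, ph X l h a n ω ^ γ ∂μ := by
    intro a n _
    simp only [ph_rpow]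
    simp only [hb]
    split_ifs with h2 h3
    · have h4 := (hm₂ e he0 (min_le_left _ _) l hl1 hla a n h3.2).2
      refine le_trans ?_ h4
      have : κ₂ * 1 ≤ κ₂ * ((n:ℝ) * l ^ 2) := by gcongr; exact h3.1
      linarith
    · have h4 := (hmA e he0 (min_le_right _ _) l hl1 hlb a n h2).2
      refine le_trans ?_ h4
      have : 0 ≤ κA * ((n:ℝ) * l ^ 2) := by positivity
      linarith
    · exact integral_nonneg fun ω => (gg_pos _ _).le
  have hl2t : l ^ 2 ≤ t₀ := by nlinarith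
  obtain ⟨n₀, hn₀⟩ := hmass (l ^ 2) (by positivity) hl2t b
    (fun n hn => by
      simp only [hb]
      rw [if_pos hn]
      split_ifs <;> linarith)
    (fun n hn hn2 => by
      simp only [hb]
      rw [if_pos (hn2.trans hA), if_pos ⟨hn, hn2⟩])
  obtain ⟨δ, hδ, hW⟩ := rare hKK hX' (l := l) (h := h) hα hγ hl1.le hc₁ (min_le_left _ _) hn₁ hb1
    hbe hn₀
  have hpos := freeEnergy_pos (ξ := ξ) (ε := ε) (P := P) hR hX' hl1.le hδ hW
  exact le_csSup (bddAbove_crit hR hX' hl1) ⟨hh0, hpos⟩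

end Pool.Agent.K6.H76.Cop
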