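import Pool.Agent.K6.H76.Cop.An

set_option autoImplicit false

namespace Pool.Agent.K6.H76.Cop

open Real Set MeasureTheory ProbabilityTheory

variable {Ω : Type*} [mΩ : MeasurableSpace Ω]

/-- The charges: `X i` is `ω_{i+1}`. -/
structure Charges (X : ℕ → Ω → ℝ) (μ : Measure Ω) : Prop where
  measurable : ∀ i, Measurable (X i)
  indep : iIndepFun X μ
  ident : ∀ i, IdentDistrib (X i) (X 0) μ μ
  mean : ∫ ω, X 0 ω ∂μ = 0
  variance : ∫ ω, X 0 ω ^ 2 ∂μ = 1
  mgf : ∀ t : ℝ, Integrable (fun ω => exp (t * X 0 ω)) μ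

/-- sigma-algebra of the charges with index in `S` -/
@[reducible] def sgm (X : ℕ → Ω → ℝ) (S : Set ℕ) : MeasurableSpace Ω :=
  ⨆ i ∈ S, MeasurableSpace.comap (X i) inferInstance

variable {X : ℕ → Ω → ℝ} {μ : Measure Ω}

theorem Charges.prob (hX : Charges X μ) : IsProbabilityMeasure μ := hX.indep.isProbabilityMeasure

theorem sgm_le (hX : Charges X μ) (S : Set ℕ) : sgm X S ≤ mΩ :=
  iSup₂_le fun i _ => (hX.measurable i).comap_le

theorem sgm_mono (X : ℕ → Ω → ℝ) {S T : Set ℕ} (h : S ⊆ T) : sgm X S ≤ sgm X T :=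
  biSup_mono fun _ hi => h hi

theorem meas_X (X : ℕ → Ω → ℝ) {S : Set ℕ} {i : ℕ} (hi : i ∈ S) :
    @Measurable Ω ℝ (sgm X S) _ (X i) :=
  Measurable.mono (comap_measurable (X i))
    (le_iSup₂_of_le (f := fun i (_ : i ∈ S) => MeasurableSpace.comap (X i) inferInstance)
      i hi le_rfl) le_rfl

theorem indep_of (hX : Charges X μ) {S T : Set ℕ} (hST : Disjoint S T) {f g : Ω → ℝ}
    (hf : @Measurable Ω ℝ (sgm X S) _ f) (hg : @Measurable Ω ℝ (sgm X T) _ g) :
    IndepFun f g μ := by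
  rw [IndepFun_iff_Indep]
  refine indep_of_indep_of_le_left (indep_of_indep_of_le_right
    (indep_iSup_of_disjoint (fun i => (hX.measurable i).comap_le) hX.indep.iIndep hST) ?_) ?_
  · exact hg.comap_le
  · exact hf.comap_le

theorem exp_abs_le (t x : ℝ) : exp (t * |x|) ≤ exp (t * x) + exp (-t * x) := by
  rcases abs_cases x with ⟨h, _⟩ | ⟨h, _⟩
  · rw [h]; have := exp_pos (-t * x); linarith
  · rw [h]
    have e : t * -x = -t * x := by ring
    rw [e]; have := exp_pos (t * x); linarith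

theorem Charges.mgf_abs (hX : Charges X μ) (t : ℝ) (i : ℕ) :
    Integrable (fun ω => exp (t * |X i ω|)) μ := by
  have h0 : Integrable (fun ω => exp (t * |X 0 ω|)) μ := by
    refine Integrable.mono' ((hX.mgf t).add (hX.mgf (-t))) ?_ ?_
    · exact ((hX.measurable 0).abs.const_mul t).exp.aestronglyMeasurable
    · refine Filter.Eventually.of_forall fun ω => ?_
      simp only [Pi.add_apply, norm_eq_abs, abs_exp]
      exact exp_abs_le t _
  have h1 := (hX.ident i).comp (u := fun x : ℝ => exp (t * |x|)) (by fun_prop)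
  exact h1.integrable_iff.2 h0

/-- The majorant for the remainder. -/
noncomputable def GG (y : ℝ) : ℝ := (|y| + 1) ^ 3 * exp (2 * (|y| + 1))

theorem GG_le (y : ℝ) : GG y ≤ (6 * exp 3) * exp (3 * |y|) := by
  unfold GG
  have h1 : (|y| + 1) ^ 3 ≤ 6 * exp (|y| + 1) := by
    have := pow_div_factorial_le_exp (x := |y| + 1) (by positivity) 3
    have h3 : ((Nat.factorial 3 : ℕ) : ℝ) = 6 := by norm_num [Nat.factorial]
    rw [h3, div_le_iff₀ (by norm_num)] at this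
    linarith
  calc (|y| + 1) ^ 3 * exp (2 * (|y| + 1)) ≤ (6 * exp (|y| + 1)) * exp (2 * (|y| + 1)) := by gcongr
    _ = (6 * exp 3) * exp (3 * |y|) := by
      rw [mul_assoc, mul_assoc, ← exp_add, ← exp_add]; ring_nf

theorem measurable_GG : Measurable GG := by unfold GG; fun_prop

theorem Charges.int_GG (hX : Charges X μ) (i : ℕ) : Integrable (fun ω => GG (X i ω)) μ := by
  refine Integrable.mono' ((hX.mgf_abs 3 i).const_mul (6 * exp 3)) ?_ ?_
  · exact (measurable_GG.comp (hX.measurable i)).aestronglyMeasurable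
  · refine Filter.Eventually.of_forall fun ω => ?_
    have : 0 ≤ GG (X i ω) := by unfold GG; positivity
    rw [norm_eq_abs, abs_of_nonneg this]
    exact GG_le _

theorem Charges.int_sq (hX : Charges X μ) (i : ℕ) : Integrable (fun ω => X i ω ^ 2) μ := by
  refine Integrable.mono' (hX.int_GG i) ((hX.measurable i).pow_const 2).aestronglyMeasurable ?_
  refine Filter.Eventually.of_forall fun ω => ?_
  rw [norm_eq_abs, abs_of_nonneg (sq_nonneg _)]
  unfold GG
  have h1 : (1:ℝ) ≤ exp (2 * (|X i ω| + 1)) := one_le_exp (by positivity)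
  have h2 : X i ω ^ 2 ≤ (|X i ω| + 1) ^ 3 := by
    rw [← sq_abs]
    have := abs_nonneg (X i ω)
    nlinarith [pow_nonneg this 3]
  have h3 : 0 ≤ (|X i ω| + 1) ^ 3 := by positivity
  nlinarith

theorem Charges.int_id (hX : Charges X μ) (i : ℕ) : Integrable (X i) μ := by
  refine Integrable.mono' (hX.int_GG i) (hX.measurable i).aestronglyMeasurable ?_
  refine Filter.Eventually.of_forall fun ω => ?_
  rw [norm_eq_abs]
  unfold GG
  have h1 : (1:ℝ) ≤ exp (2 * (|X i ω| + 1)) := one_le_exp (by positivity)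
  have h2 : |X i ω| ≤ (|X i ω| + 1) ^ 3 := by
    have := abs_nonneg (X i ω)
    nlinarith [pow_nonneg this 3, pow_nonneg this 2]
  have h3 : 0 ≤ (|X i ω| + 1) ^ 3 := by positivity
  nlinarith

theorem Charges.mean' (hX : Charges X μ) (i : ℕ) : ∫ ω, X i ω ∂μ = 0 :=
  (hX.ident i).integral_eq.trans hX.mean

theorem Charges.variance' (hX : Charges X μ) (i : ℕ) : ∫ ω, X i ω ^ 2 ∂μ = 1 := by
  have := ((hX.ident i).comp (u := fun x : ℝ => x ^ 2) (by fun_prop)).integral_eq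
  exact this.trans hX.variance

/-- `E (|X|+1)^3 e^{2(|X|+1)}` -/
noncomputable def BB (X : ℕ → Ω → ℝ) (μ : Measure Ω) : ℝ := ∫ ω, GG (X 0 ω) ∂μ

theorem Charges.int_GG_eq (hX : Charges X μ) (i : ℕ) : ∫ ω, GG (X i ω) ∂μ = BB X μ :=
  ((hX.ident i).comp (u := GG) measurable_GG).integral_eq

theorem BB_nonneg (X : ℕ → Ω → ℝ) (μ : Measure Ω) : 0 ≤ BB X μ :=
  integral_nonneg fun ω => by simp only [Pi.zero_apply]; unfold GG; positivity

theorem measurable_sg : Measurable sg := by unfold sg; fun_prop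
theorem measurable_gg (γ : ℝ) : Measurable (gg γ) := by unfold gg; fun_prop
theorem measurable_g1 (γ : ℝ) : Measurable (g1 γ) := by
  unfold g1
  exact (measurable_const.mul measurable_sg).mul (measurable_gg γ)
theorem measurable_g2 (γ : ℝ) : Measurable (g2 γ) := by
  unfold g2
  exact (measurable_const.mul (measurable_sg.sub ((measurable_sg.pow_const 2).const_mul _))).mul
    (measurable_gg γ)

/-- One step. -/
theorem step (hX : Charges X μ) {γ : ℝ} (h0 : 0 < γ) (h1 : γ < 1) {c l : ℝ} (hc : 0 ≤ c)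
    (hc1 : c ≤ 1) (hl : 0 ≤ l) (hl1 : l ≤ 1) (i : ℕ) {U : Ω → ℝ} (hU : Measurable U)
    (hUX : IndepFun U (X i) μ) (hi : Integrable (fun ω => gg γ (U ω)) μ) :
    Integrable (fun ω => gg γ (U ω + l * (X i ω + c * l))) μ ∧
    ∫ ω, gg γ (U ω + l * (X i ω + c * l)) ∂μ ≤ (1 + (4 + 20 * BB X μ) * l ^ 2) * ∫ ω, gg γ (U ω) ∂μ ∧
    ∫ ω, gg γ (U ω) ∂μ + l ^ 2 * ∫ ω, (c * g1 γ (U ω) + g2 γ (U ω) / 2) ∂μ
      - 20 * BB X μ * l ^ 3 * ∫ ω, gg γ (U ω) ∂μ ≤ ∫ ω, gg γ (U ω + l * (X i ω + c * l)) ∂μ := by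
  have hprob := hX.prob
  have hB := BB_nonneg X μ
  set B := BB X μ
  -- the increment
  set D : Ω → ℝ := fun ω => l * (X i ω + c * l) with hD
  have hDm : Measurable D := ((hX.measurable i).add_const _).const_mul l
  have bound : ∀ ω, exp (2 * |D ω|) * |D ω| ^ 3 ≤ l ^ 3 * GG (X i ω) := by
    intro ω
    have hcl : c * l ≤ 1 := by nlinarith
    have hcl0 : 0 ≤ c * l := by positivity
    have b1 : |D ω| ≤ l * (|X i ω| + 1) := by
      rw [hD]
      simp only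
      rw [abs_mul, abs_of_nonneg hl]
      gcongr
      calc |X i ω + c * l| ≤ |X i ω| + |c * l| := abs_add_le _ _
        _ ≤ |X i ω| + 1 := by rw [abs_of_nonneg hcl0]; linarith
    have b2 : |D ω| ≤ |X i ω| + 1 := by
      have : l * (|X i ω| + 1) ≤ 1 * (|X i ω| + 1) := by gcongr
      linarith
    have hx := abs_nonneg (X i ω)
    calc exp (2 * |D ω|) * |D ω| ^ 3 ≤ exp (2 * (|X i ω| + 1)) * (l * (|X i ω| + 1)) ^ 3 := by
          gcongr
      _ = l ^ 3 * GG (X i ω) := by unfold GG; ring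
  have iG : Integrable (fun ω => GG (X i ω)) μ := hX.int_GG i
  have iX := hX.int_id i
  have iX2 := hX.int_sq i
  have iD : Integrable D μ := (iX.add (integrable_const _)).const_mul l
  have iD2 : Integrable (fun ω => D ω ^ 2) μ := by
    have : (fun ω => D ω ^ 2) = fun ω => l ^ 2 * (X i ω ^ 2 + (2 * c * l) * X i ω + (c * l) ^ 2) := by
      funext ω; rw [hD]; ring
    rw [this]
    exact ((iX2.add (iX.const_mul _)).add (integrable_const _)).const_mul _
  have eD : ∫ ω, D ω ∂μ = c * l ^ 2 := by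
    rw [hD]
    rw [integral_const_mul, integral_add iX (integrable_const _), hX.mean' i]
    simp
    ring
  have eD2 : ∫ ω, D ω ^ 2 ∂μ = l ^ 2 + c ^ 2 * l ^ 4 := by
    have : (fun ω => D ω ^ 2) = fun ω => l ^ 2 * (X i ω ^ 2 + (2 * c * l) * X i ω + (c * l) ^ 2) := by
      funext ω; rw [hD]; ring
    have ia : Integrable (fun ω => X i ω ^ 2 + (2 * c * l) * X i ω) μ := iX2.add (iX.const_mul _)
    rw [this, integral_const_mul, integral_add ia (integrable_const _),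
      integral_add iX2 (iX.const_mul _), integral_const_mul, hX.mean' i, hX.variance' i]
    simp
    ring
  -- integrability of the derivatives
  have i1 : Integrable (fun ω => g1 γ (U ω)) μ := by
    refine Integrable.mono' (hi.const_mul 2) ((measurable_g1 γ).comp hU).aestronglyMeasurable ?_
    refine Filter.Eventually.of_forall fun ω => ?_
    rw [norm_eq_abs, abs_of_nonpos (g1_nonpos h0.le _)]
    have := neg_g1_le h0.le h1.le (U ω)
    linarith
  have i2 : Integrable (fun ω => g2 γ (U ω)) μ := by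
    refine Integrable.mono' (hi.const_mul 4) ((measurable_g2 γ).comp hU).aestronglyMeasurable ?_
    refine Filter.Eventually.of_forall fun ω => ?_
    rw [norm_eq_abs, abs_of_nonneg (g2_nonneg h0.le _)]
    exact g2_le h0.le h1.le (U ω)
  have ind0 : IndepFun (fun ω => gg γ (U ω)) (fun ω => GG (X i ω)) μ :=
    hUX.comp (measurable_gg γ) measurable_GG
  have ind1 : IndepFun (fun ω => g1 γ (U ω)) D μ :=
    hUX.comp (φ := g1 γ) (ψ := fun x => l * (x + c * l)) (measurable_g1 γ) (by fun_prop)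
  have ind2 : IndepFun (fun ω => g2 γ (U ω)) (fun ω => D ω ^ 2) μ :=
    hUX.comp (φ := g2 γ) (ψ := fun x => (l * (x + c * l)) ^ 2) (measurable_g2 γ) (by fun_prop)
  have j0 : Integrable (fun ω => gg γ (U ω) * GG (X i ω)) μ := ind0.integrable_mul hi iG
  have j1 : Integrable (fun ω => g1 γ (U ω) * D ω) μ := ind1.integrable_mul i1 iD
  have j2 : Integrable (fun ω => g2 γ (U ω) * D ω ^ 2) μ := ind2.integrable_mul i2 iD2
  have e0 : ∫ ω, gg γ (U ω) * GG (X i ω) ∂μ = (∫ ω, gg γ (U ω) ∂μ) * B := by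
    rw [ind0.integral_fun_mul_eq_mul_integral hi.aestronglyMeasurable iG.aestronglyMeasurable,
      hX.int_GG_eq i]
  have e1 : ∫ ω, g1 γ (U ω) * D ω ∂μ = (∫ ω, g1 γ (U ω) ∂μ) * (c * l ^ 2) := by
    rw [ind1.integral_fun_mul_eq_mul_integral i1.aestronglyMeasurable iD.aestronglyMeasurable, eD]
  have e2 : ∫ ω, g2 γ (U ω) * D ω ^ 2 ∂μ = (∫ ω, g2 γ (U ω) ∂μ) * (l ^ 2 + c ^ 2 * l ^ 4) := by
    rw [ind2.integral_fun_mul_eq_mul_integral i2.aestronglyMeasurable iD2.aestronglyMeasurable, eD2]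
  have tay : ∀ ω, |gg γ (U ω + D ω) - gg γ (U ω) - g1 γ (U ω) * D ω - g2 γ (U ω) * D ω ^ 2 / 2| ≤
      20 * l ^ 3 * (gg γ (U ω) * GG (X i ω)) := by
    intro ω
    refine (taylor h0.le h1.le (U ω) (D ω)).trans ?_
    have hg := gg_pos γ (U ω)
    calc 20 * gg γ (U ω) * (exp (2 * |D ω|) * |D ω| ^ 3)
        ≤ 20 * gg γ (U ω) * (l ^ 3 * GG (X i ω)) :=
          mul_le_mul_of_nonneg_left (bound ω) (by positivity)
      _ = _ := by ring
  have upp : ∀ ω, gg γ (U ω + D ω) ≤ gg γ (U ω) + g1 γ (U ω) * D ω + g2 γ (U ω) * D ω ^ 2 / 2 +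
      20 * l ^ 3 * (gg γ (U ω) * GG (X i ω)) := by
    intro ω
    have := (abs_le.1 (tay ω)).2
    linarith
  have low : ∀ ω, gg γ (U ω) + g1 γ (U ω) * D ω + g2 γ (U ω) * D ω ^ 2 / 2 -
      20 * l ^ 3 * (gg γ (U ω) * GG (X i ω)) ≤ gg γ (U ω + D ω) := by
    intro ω
    have := (abs_le.1 (tay ω)).1
    linarith
  have ja : Integrable (fun ω => gg γ (U ω) + g1 γ (U ω) * D ω) μ := hi.add j1
  have j2' : Integrable (fun ω => g2 γ (U ω) * D ω ^ 2 / 2) μ := j2.div_const 2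
  have jb : Integrable (fun ω => gg γ (U ω) + g1 γ (U ω) * D ω + g2 γ (U ω) * D ω ^ 2 / 2) μ :=
    ja.add j2'
  have jc : Integrable (fun ω => 20 * l ^ 3 * (gg γ (U ω) * GG (X i ω))) μ := j0.const_mul _
  have iu : Integrable (fun ω => gg γ (U ω) + g1 γ (U ω) * D ω + g2 γ (U ω) * D ω ^ 2 / 2 +
      20 * l ^ 3 * (gg γ (U ω) * GG (X i ω))) μ :=
    jb.add jc
  have il : Integrable (fun ω => gg γ (U ω) + g1 γ (U ω) * D ω + g2 γ (U ω) * D ω ^ 2 / 2 -
      20 * l ^ 3 * (gg γ (U ω) * GG (X i ω))) μ :=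
    jb.sub jc
  have ig : Integrable (fun ω => gg γ (U ω + D ω)) μ := by
    refine Integrable.mono' iu ((measurable_gg γ).comp (hU.add hDm)).aestronglyMeasurable ?_
    refine Filter.Eventually.of_forall fun ω => ?_
    rw [norm_eq_abs, abs_of_pos (gg_pos _ _)]
    exact upp ω
  have eu : ∫ ω, (gg γ (U ω) + g1 γ (U ω) * D ω + g2 γ (U ω) * D ω ^ 2 / 2 +
      20 * l ^ 3 * (gg γ (U ω) * GG (X i ω))) ∂μ =
      ∫ ω, gg γ (U ω) ∂μ + (∫ ω, g1 γ (U ω) ∂μ) * (c * l ^ 2) +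
      (∫ ω, g2 γ (U ω) ∂μ) * (l ^ 2 + c ^ 2 * l ^ 4) / 2 +
      20 * l ^ 3 * ((∫ ω, gg γ (U ω) ∂μ) * B) := by
    rw [integral_add jb jc, integral_add ja j2', integral_add hi j1, integral_div,
      integral_const_mul, e0, e1, e2]
  have el : ∫ ω, (gg γ (U ω) + g1 γ (U ω) * D ω + g2 γ (U ω) * D ω ^ 2 / 2 -
      20 * l ^ 3 * (gg γ (U ω) * GG (X i ω))) ∂μ =
      ∫ ω, gg γ (U ω) ∂μ + (∫ ω, g1 γ (U ω) ∂μ) * (c * l ^ 2) +
      (∫ ω, g2 γ (U ω) ∂μ) * (l ^ 2 + c ^ 2 * l ^ 4) / 2 -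
      20 * l ^ 3 * ((∫ ω, gg γ (U ω) ∂μ) * B) := by
    rw [integral_sub jb jc, integral_add ja j2', integral_add hi j1, integral_div,
      integral_const_mul, e0, e1, e2]
  have hup : ∫ ω, gg γ (U ω + D ω) ∂μ ≤ _ := integral_mono ig iu upp
  have hlo : _ ≤ ∫ ω, gg γ (U ω + D ω) ∂μ := integral_mono il ig low
  rw [eu] at hup
  rw [el] at hlo
  have n1 : ∫ ω, g1 γ (U ω) ∂μ ≤ 0 := integral_nonpos fun ω => g1_nonpos h0.le _
  have n2 : 0 ≤ ∫ ω, g2 γ (U ω) ∂μ := integral_nonneg fun ω => g2_nonneg h0.le _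
  have n3 : ∫ ω, g2 γ (U ω) ∂μ ≤ 4 * ∫ ω, gg γ (U ω) ∂μ := by
    rw [← integral_const_mul]
    exact integral_mono i2 (hi.const_mul 4) fun ω => g2_le h0.le h1.le _
  have n0 : 0 ≤ ∫ ω, gg γ (U ω) ∂μ := integral_nonneg fun ω => (gg_pos γ _).le
  refine ⟨ig, hup.trans ?_, le_trans ?_ hlo⟩
  · set I0 := ∫ ω, gg γ (U ω) ∂μ
    set I1 := ∫ ω, g1 γ (U ω) ∂μ
    set I2 := ∫ ω, g2 γ (U ω) ∂μ
    have a1 : I1 * (c * l ^ 2) ≤ 0 := mul_nonpos_of_nonpos_of_nonneg n1 (by positivity)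
    have a2 : I2 * (l ^ 2 + c ^ 2 * l ^ 4) / 2 ≤ 4 * l ^ 2 * I0 := by
      have hc2 : c ^ 2 ≤ 1 := by nlinarith
      have hl4 : l ^ 4 ≤ l ^ 2 := by
        have : l ^ 2 ≤ 1 := by nlinarith
        nlinarith [sq_nonneg l]
      have b3 : c ^ 2 * l ^ 4 ≤ l ^ 2 := by
        calc c ^ 2 * l ^ 4 ≤ 1 * l ^ 2 := by gcongr
          _ = l ^ 2 := one_mul _
      have b4 : I2 * (l ^ 2 + c ^ 2 * l ^ 4) ≤ (4 * I0) * (2 * l ^ 2) := by
        apply mul_le_mul n3 (by linarith) (by positivity) (by positivity)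
      linarith
    have a3 : 20 * l ^ 3 * (I0 * B) ≤ 20 * B * l ^ 2 * I0 := by
      have hl3 : l ^ 3 ≤ l ^ 2 := by nlinarith [sq_nonneg l]
      have : 0 ≤ 20 * (I0 * B) := by positivity
      nlinarith
    linarith
  · have i3 : ∫ ω, (c * g1 γ (U ω) + g2 γ (U ω) / 2) ∂μ =
        c * (∫ ω, g1 γ (U ω) ∂μ) + (∫ ω, g2 γ (U ω) ∂μ) / 2 := by
      rw [integral_add (i1.const_mul c) (i2.div_const 2), integral_const_mul, integral_div]
    rw [i3]
    set I0 := ∫ ω, gg γ (U ω) ∂μ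
    set I1 := ∫ ω, g1 γ (U ω) ∂μ
    set I2 := ∫ ω, g2 γ (U ω) ∂μ
    have : 0 ≤ I2 * (c ^ 2 * l ^ 4) := by positivity
    nlinarith

end Pool.Agent.K6.H76.Cop
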