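import Pool.Agent.K6.H76.Cop.Mom

set_option autoImplicit false

namespace Pool.Agent.K6.H76.Cop

open Real Set MeasureTheory ProbabilityTheory

variable {Ω : Type*} [mΩ : MeasurableSpace Ω] {X : ℕ → Ω → ℝ} {μ : Measure Ω}

/-- `l * ∑_{a ≤ i < a+n} (X i + h)` -/
noncomputable def uu (X : ℕ → Ω → ℝ) (l h : ℝ) (a n : ℕ) (ω : Ω) : ℝ :=
  l * ∑ i ∈ Finset.Ico a (a + n), (X i ω + h)

omit mΩ in
theorem uu_zero (l h : ℝ) (a : ℕ) (ω : Ω) : uu X l h a 0 ω = 0 := by simp [uu]

omit mΩ in
theorem uu_succ (l h : ℝ) (a n : ℕ) (ω : Ω) :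
    uu X l h a (n + 1) ω = uu X l h a n ω + l * (X (a + n) ω + h) := by
  unfold uu
  rw [← add_assoc, Finset.sum_Ico_succ_top (by omega)]
  ring

theorem meas_uu (X : ℕ → Ω → ℝ) (l h : ℝ) (a n : ℕ) :
    @Measurable Ω ℝ (sgm X (Set.Ico a (a + n))) _ (uu X l h a n) := by
  have : uu X l h a n = fun ω => l * ∑ i ∈ Finset.Ico a (a + n), (X i ω + h) := rfl
  rw [this]
  refine Measurable.const_mul ?_ l
  refine Finset.measurable_sum _ fun i hi => ?_
  exact (meas_X X (by simpa using hi)).add_const h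

theorem measurable_uu (hX : Charges X μ) (l h : ℝ) (a n : ℕ) : Measurable (uu X l h a n) :=
  (meas_uu X l h a n).mono (sgm_le hX _) le_rfl

theorem indep_uu (hX : Charges X μ) (l h : ℝ) (a n : ℕ) :
    IndepFun (uu X l h a n) (X (a + n)) μ := by
  refine indep_of hX (S := Set.Ico a (a + n)) (T := {a + n}) ?_ (meas_uu X l h a n)
    (meas_X X (by simp))
  simp

theorem uu_moments (hX : Charges X μ) (l c : ℝ) (a n : ℕ) :
    Integrable (uu X l (c * l) a n) μ ∧ Integrable (fun ω => uu X l (c * l) a n ω ^ 2) μ ∧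
    ∫ ω, uu X l (c * l) a n ω ∂μ = n * c * l ^ 2 ∧
    ∫ ω, uu X l (c * l) a n ω ^ 2 ∂μ = n * l ^ 2 + n ^ 2 * c ^ 2 * l ^ 4 := by
  have hprob := hX.prob
  induction n with
  | zero =>
    have : (uu X l (c * l) a 0) = fun _ => 0 := by funext ω; exact uu_zero _ _ _ _
    simp [this]
  | succ n ih =>
    obtain ⟨i1, i2, e1, e2⟩ := ih
    have hd1 : Integrable (fun ω => l * (X (a + n) ω + c * l)) μ :=
      ((hX.int_id _).add (integrable_const _)).const_mul l
    have hd2 : Integrable (fun ω => (l * (X (a + n) ω + c * l)) ^ 2) μ := by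
      have : (fun ω => (l * (X (a + n) ω + c * l)) ^ 2) =
          fun ω => l ^ 2 * (X (a + n) ω ^ 2 + (2 * c * l) * X (a + n) ω + (c * l) ^ 2) := by
        funext ω; ring
      rw [this]
      exact (((hX.int_sq _).add ((hX.int_id _).const_mul _)).add (integrable_const _)).const_mul _
    have ed1 : ∫ ω, l * (X (a + n) ω + c * l) ∂μ = c * l ^ 2 := by
      rw [integral_const_mul, integral_add (hX.int_id _) (integrable_const _), hX.mean']
      simp
      ring
    have ed2 : ∫ ω, (l * (X (a + n) ω + c * l)) ^ 2 ∂μ = l ^ 2 + c ^ 2 * l ^ 4 := by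
      have : (fun ω => (l * (X (a + n) ω + c * l)) ^ 2) =
          fun ω => l ^ 2 * (X (a + n) ω ^ 2 + (2 * c * l) * X (a + n) ω + (c * l) ^ 2) := by
        funext ω; ring
      have ia : Integrable (fun ω => X (a + n) ω ^ 2 + (2 * c * l) * X (a + n) ω) μ :=
        (hX.int_sq _).add ((hX.int_id _).const_mul _)
      rw [this, integral_const_mul, integral_add ia (integrable_const _),
        integral_add (hX.int_sq _) ((hX.int_id _).const_mul _), integral_const_mul, hX.mean',
        hX.variance']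
      simp
      ring
    have ind : IndepFun (uu X l (c * l) a n) (fun ω => l * (X (a + n) ω + c * l)) μ :=
      (indep_uu hX l (c * l) a n).comp (φ := id) (ψ := fun x => l * (x + c * l)) measurable_id
        (by fun_prop)
    have ip : Integrable (fun ω => uu X l (c * l) a n ω * (l * (X (a + n) ω + c * l))) μ :=
      ind.integrable_mul i1 hd1
    have ep : ∫ ω, uu X l (c * l) a n ω * (l * (X (a + n) ω + c * l)) ∂μ =
        (n * c * l ^ 2) * (c * l ^ 2) := by
      rw [ind.integral_fun_mul_eq_mul_integral i1.aestronglyMeasurable hd1.aestronglyMeasurable,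
        e1, ed1]
    have f1 : (uu X l (c * l) a (n + 1)) =
        fun ω => uu X l (c * l) a n ω + l * (X (a + n) ω + c * l) := by
      funext ω; exact uu_succ _ _ _ _ _
    have f2 : (fun ω => uu X l (c * l) a (n + 1) ω ^ 2) = fun ω => uu X l (c * l) a n ω ^ 2 +
        2 * (uu X l (c * l) a n ω * (l * (X (a + n) ω + c * l))) +
        (l * (X (a + n) ω + c * l)) ^ 2 := by
      funext ω; rw [uu_succ]; ring
    have ia : Integrable (fun ω => uu X l (c * l) a n ω ^ 2 +
        2 * (uu X l (c * l) a n ω * (l * (X (a + n) ω + c * l)))) μ := i2.add (ip.const_mul 2)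
    refine ⟨?_, ?_, ?_, ?_⟩
    · rw [f1]; exact i1.add hd1
    · rw [f2]; exact ia.add hd2
    · rw [f1, integral_add i1 hd1, e1, ed1]; push_cast; ring
    · rw [f2, integral_add ia hd2, integral_add i2 (ip.const_mul 2), integral_const_mul, e2, ep,
        ed2]
      push_cast; ring

theorem exp_neg_sq_ge (hX : Charges X μ) {l c A : ℝ} (hc : 0 ≤ c) (hc1 : c ≤ 1) (hl : 0 ≤ l)
    (a n : ℕ) (hn : n * l ^ 2 ≤ A) :
    exp (-(A + A ^ 2)) ≤ ∫ ω, exp (-(uu X l (c * l) a n ω) ^ 2) ∂μ := by
  have hprob := hX.prob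
  obtain ⟨i1, i2, e1, e2⟩ := uu_moments hX l c a n
  have hm : Measurable (uu X l (c * l) a n) := measurable_uu hX _ _ _ _
  have h0 : 0 ≤ n * l ^ 2 := by positivity
  have hA : 0 ≤ A := h0.trans hn
  have hb : ∫ ω, uu X l (c * l) a n ω ^ 2 ∂μ ≤ A + A ^ 2 := by
    rw [e2]
    have : (n:ℝ) ^ 2 * c ^ 2 * l ^ 4 ≤ A ^ 2 := by
      calc (n:ℝ) ^ 2 * c ^ 2 * l ^ 4 = c ^ 2 * (n * l ^ 2) ^ 2 := by ring
        _ ≤ 1 * A ^ 2 := by
          have : c ^ 2 ≤ 1 := by nlinarith
          gcongr
        _ = A ^ 2 := one_mul _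
    linarith
  set m := A + A ^ 2
  have hpt : ∀ ω, exp (-m) * (1 + m) - exp (-m) * uu X l (c * l) a n ω ^ 2 ≤
      exp (-(uu X l (c * l) a n ω) ^ 2) := by
    intro ω
    set x := uu X l (c * l) a n ω ^ 2
    have h1 := add_one_le_exp (m - x)
    have h2 : exp (-x) = exp (-m) * exp (m - x) := by rw [← exp_add]; ring_nf
    rw [h2]
    have h3 := exp_pos (-m)
    nlinarith
  have ie : Integrable (fun ω => exp (-(uu X l (c * l) a n ω) ^ 2)) μ := by
    refine Integrable.mono' (integrable_const (1:ℝ)) (hm.pow_const 2).neg.exp.aestronglyMeasurable ?_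
    refine Filter.Eventually.of_forall fun ω => ?_
    rw [norm_eq_abs, abs_exp]
    apply exp_le_one_iff.2
    have := sq_nonneg (uu X l (c * l) a n ω)
    linarith
  have h4 : ∫ ω, (exp (-m) * (1 + m) - exp (-m) * uu X l (c * l) a n ω ^ 2) ∂μ ≤ _ :=
    integral_mono ((integrable_const _).sub (i2.const_mul (exp (-m)))) ie hpt
  refine le_trans ?_ h4
  have h5 : ∫ ω, (exp (-m) * (1 + m) - exp (-m) * uu X l (c * l) a n ω ^ 2) ∂μ =
      exp (-m) * (1 + m) - exp (-m) * ∫ ω, uu X l (c * l) a n ω ^ 2 ∂μ := by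
    have h6 := integral_const_mul (μ := μ) (exp (-m)) (fun ω => uu X l (c * l) a n ω ^ 2)
    rw [integral_sub (integrable_const _) (i2.const_mul _), h6]
    simp
  rw [h5]
  have h3 := exp_pos (-m)
  nlinarith

theorem gg_zero (γ : ℝ) : gg γ 0 = 1 := by unfold gg; norm_num

theorem mom (hX : Charges X μ) {γ : ℝ} (h0 : 0 < γ) (h1 : γ < 1) {A : ℝ} (hA : 0 ≤ A) :
    ∃ e₀ > 0, ∃ l₀ > 0, ∃ κ > 0, ∀ e, 0 ≤ e → e ≤ e₀ → ∀ l, 0 < l → l ≤ l₀ → ∀ a n : ℕ,
      n * l ^ 2 ≤ A →
      Integrable (fun ω => gg γ (uu X l ((γ + e) * l) a n ω)) μ ∧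
      1 + κ * (n * l ^ 2) ≤ ∫ ω, gg γ (uu X l ((γ + e) * l) a n ω) ∂μ := by
  have hprob := hX.prob
  have hB := BB_nonneg X μ
  set B := BB X μ
  set κ := γ * (1 - γ) * exp (-(A + A ^ 2)) / 8 with hκ
  have hκ0 : 0 < κ := by
    have : 0 < 1 - γ := by linarith
    positivity
  set M := exp ((4 + 20 * B) * A) with hM
  have hM0 : 0 < M := exp_pos _
  refine ⟨min (1 - γ) (κ / (4 * M)), ?_, min 1 (κ / (40 * (B + 1) * M)), ?_, κ, hκ0, ?_⟩
  · exact lt_min (by linarith) (by positivity)
  · exact lt_min one_pos (by positivity)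
  intro e he hee l hl hll a n hn
  have he1 : e ≤ 1 - γ := hee.trans (min_le_left _ _)
  have he2 : e ≤ κ / (4 * M) := hee.trans (min_le_right _ _)
  have hl1 : l ≤ 1 := hll.trans (min_le_left _ _)
  have hl2 : l ≤ κ / (40 * (B + 1) * M) := hll.trans (min_le_right _ _)
  have hc : 0 ≤ γ + e := by linarith
  have hc1 : γ + e ≤ 1 := by linarith
  -- induction
  have key : ∀ m : ℕ, m ≤ n → Integrable (fun ω => gg γ (uu X l ((γ + e) * l) a m ω)) μ ∧
      ∫ ω, gg γ (uu X l ((γ + e) * l) a m ω) ∂μ ≤ (1 + (4 + 20 * B) * l ^ 2) ^ m ∧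
      1 + κ * (m * l ^ 2) ≤ ∫ ω, gg γ (uu X l ((γ + e) * l) a m ω) ∂μ := by
    intro m
    induction m with
    | zero =>
      intro _
      have : (fun ω => gg γ (uu X l ((γ + e) * l) a 0 ω)) = fun _ => 1 := by
        funext ω; rw [uu_zero, gg_zero]
      simp [this]
    | succ m ih =>
      intro hm
      obtain ⟨ii, iu, il⟩ := ih (by omega)
      have hmA : m * l ^ 2 ≤ A := by
        refine le_trans ?_ hn
        have : (m:ℝ) ≤ n := by exact_mod_cast (by omega : m ≤ n)
        gcongr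
      obtain ⟨s1, s2, s3⟩ := step hX h0 h1 hc hc1 hl.le hl1 (a + m)
        (measurable_uu hX l ((γ + e) * l) a m) (indep_uu hX l ((γ + e) * l) a m) ii
      have hs : (fun ω => gg γ (uu X l ((γ + e) * l) a (m + 1) ω)) =
          fun ω => gg γ (uu X l ((γ + e) * l) a m ω + l * (X (a + m) ω + (γ + e) * l)) := by
        funext ω; rw [uu_succ]
      rw [hs]
      refine ⟨s1, ?_, ?_⟩
      · calc _ ≤ _ := s2
          _ ≤ (1 + (4 + 20 * B) * l ^ 2) * (1 + (4 + 20 * B) * l ^ 2) ^ m :=
            mul_le_mul_of_nonneg_left iu (by positivity)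
          _ = _ := by ring
      · set I0 := ∫ ω, gg γ (uu X l ((γ + e) * l) a m ω) ∂μ with hI0
        have hI0M : I0 ≤ M := by
          refine iu.trans ?_
          calc (1 + (4 + 20 * B) * l ^ 2) ^ m ≤ exp ((4 + 20 * B) * l ^ 2) ^ m := by
                have := add_one_le_exp ((4 + 20 * B) * l ^ 2)
                have h5 : 0 ≤ 1 + (4 + 20 * B) * l ^ 2 := by positivity
                gcongr
                linarith
            _ = exp ((4 + 20 * B) * (m * l ^ 2)) := by
                rw [← exp_nat_mul]; congr 1; ring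
            _ ≤ M := by
                rw [hM]
                gcongr
        have hI00 : 0 ≤ I0 := integral_nonneg fun ω => (gg_pos γ _).le
        -- drift
        have hm : Measurable (uu X l ((γ + e) * l) a m) := measurable_uu hX _ _ _ _
        have ie : Integrable (fun ω => exp (-(uu X l ((γ + e) * l) a m ω) ^ 2)) μ := by
          refine Integrable.mono' (integrable_const (1:ℝ))
            (hm.pow_const 2).neg.exp.aestronglyMeasurable ?_
          refine Filter.Eventually.of_forall fun ω => ?_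
          rw [norm_eq_abs, abs_exp]
          apply exp_le_one_iff.2
          have := sq_nonneg (uu X l ((γ + e) * l) a m ω)
          linarith
        have i1 : Integrable (fun ω => g1 γ (uu X l ((γ + e) * l) a m ω)) μ := by
          refine Integrable.mono' (ii.const_mul 2) ((measurable_g1 γ).comp hm).aestronglyMeasurable ?_
          refine Filter.Eventually.of_forall fun ω => ?_
          rw [norm_eq_abs, abs_of_nonpos (g1_nonpos h0.le _)]
          have := neg_g1_le h0.le h1.le (uu X l ((γ + e) * l) a m ω)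
          linarith
        have i2 : Integrable (fun ω => g2 γ (uu X l ((γ + e) * l) a m ω)) μ := by
          refine Integrable.mono' (ii.const_mul 4) ((measurable_g2 γ).comp hm).aestronglyMeasurable ?_
          refine Filter.Eventually.of_forall fun ω => ?_
          rw [norm_eq_abs, abs_of_nonneg (g2_nonneg h0.le _)]
          exact g2_le h0.le h1.le _
        have i3 : Integrable (fun ω => (γ + e) * g1 γ (uu X l ((γ + e) * l) a m ω) +
            g2 γ (uu X l ((γ + e) * l) a m ω) / 2) μ := (i1.const_mul _).add (i2.div_const 2)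
        have i4 : Integrable (fun ω => γ * (1 - γ) *
            (exp (-(uu X l ((γ + e) * l) a m ω) ^ 2) / 4)) μ := (ie.div_const 4).const_mul _
        have i5 : Integrable (fun ω => 2 * e * gg γ (uu X l ((γ + e) * l) a m ω)) μ :=
          ii.const_mul _
        have hdr := integral_mono (i4.sub i5) i3 (fun ω => drift h0 h1 he
          (uu X l ((γ + e) * l) a m ω))
        have e5 : ∫ ω, (γ * (1 - γ) * (exp (-(uu X l ((γ + e) * l) a m ω) ^ 2) / 4) -
            2 * e * gg γ (uu X l ((γ + e) * l) a m ω)) ∂μ =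
            γ * (1 - γ) * ((∫ ω, exp (-(uu X l ((γ + e) * l) a m ω) ^ 2) ∂μ) / 4) - 2 * e * I0 := by
          rw [integral_sub i4 i5, integral_const_mul, integral_const_mul, integral_div]
        have hdr' : γ * (1 - γ) * ((∫ ω, exp (-(uu X l ((γ + e) * l) a m ω) ^ 2) ∂μ) / 4) -
            2 * e * I0 ≤ ∫ ω, ((γ + e) * g1 γ (uu X l ((γ + e) * l) a m ω) +
            g2 γ (uu X l ((γ + e) * l) a m ω) / 2) ∂μ := by
          rw [← e5]; exact hdr
        have hq := exp_neg_sq_ge hX hc hc1 hl.le a m hmA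
        have hq2 : 2 * κ ≤ γ * (1 - γ) *
            ((∫ ω, exp (-(uu X l ((γ + e) * l) a m ω) ^ 2) ∂μ) / 4) := by
          rw [hκ]
          have h1' : 0 ≤ γ * (1 - γ) := by nlinarith
          have := mul_le_mul_of_nonneg_left hq h1'
          linarith
        have hs1 : 2 * e * I0 ≤ κ / 2 := by
          calc 2 * e * I0 ≤ 2 * (κ / (4 * M)) * M := by gcongr
            _ = κ / 2 := by field_simp; ring
        have hs2 : 20 * B * l * I0 ≤ κ / 2 := by
          calc 20 * B * l * I0 ≤ 20 * (B + 1) * (κ / (40 * (B + 1) * M)) * M := by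
                gcongr
                linarith
            _ = κ / 2 := by field_simp; ring
        set J := ∫ ω, ((γ + e) * g1 γ (uu X l ((γ + e) * l) a m ω) +
            g2 γ (uu X l ((γ + e) * l) a m ω) / 2) ∂μ with hJ
        have hJ2 : 2 * κ - κ / 2 ≤ J := by linarith
        have hl2' : 0 ≤ l ^ 2 := sq_nonneg l
        have t1 : l ^ 2 * (2 * κ - κ / 2) ≤ l ^ 2 * J := mul_le_mul_of_nonneg_left hJ2 hl2'
        have t2 : l ^ 2 * (20 * B * l * I0) ≤ l ^ 2 * (κ / 2) := mul_le_mul_of_nonneg_left hs2 hl2'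
        refine le_trans ?_ s3
        push_cast
        linarith
  have := key n le_rfl
  exact ⟨this.1, this.2.2⟩

end Pool.Agent.K6.H76.Cop
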