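import Pool.Agent.K6.H76.Cop.Level

set_option autoImplicit false

namespace Pool.Agent.K6.H76.Cop

open Real Set Filter Topology MeasureTheory ProbabilityTheory

section det

variable {Ω : Type*} {X : ℕ → Ω → ℝ} {K : ℕ → ℝ}

open Classical in
/-- last end of a good block among the first `n` blocks -/
noncomputable def ee (K : ℕ → ℝ) (X : ℕ → Ω → ℝ) (l h T : ℝ) (L : ℕ) (ω : Ω) : ℕ → ℕ
  | 0 => 0
  | (n + 1) => if T ≤ W K X l h L (n * L) ω then n + 1 else ee K X l h T L ω n

open Classical in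
/-- number of good blocks among the first `n` -/
noncomputable def mm (K : ℕ → ℝ) (X : ℕ → Ω → ℝ) (l h T : ℝ) (L n : ℕ) (ω : Ω) : ℝ :=
  ∑ k ∈ Finset.range n, if T ≤ W K X l h L (k * L) ω then (1:ℝ) else 0

theorem ee_le (K : ℕ → ℝ) (X : ℕ → Ω → ℝ) (l h T : ℝ) (L : ℕ) (ω : Ω) (n : ℕ) :
    ee K X l h T L ω n ≤ n := by
  induction n with
  | zero => simp [ee]
  | succ n ih =>
    rw [ee]
    split_ifs <;> omega

/-- the potential -/
theorem block (hK : KK K) {α c₁ : ℝ} (hα : 0 < α) (hc : 0 < c₁) (hc1 : c₁ ≤ 1) {l h T p : ℝ}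
    (hT : 0 < T) (hp : 0 < p) {L : ℕ} (hL : 1 ≤ L)
    (hKL : ∀ n, L ≤ n → c₁ * (n:ℝ) ^ (-(1 + α)) ≤ K n / 2) (ω : Ω) (n : ℕ) :
    0 < W K X l h (ee K X l h T L ω n * L) 0 ω ∧
    mm K X l h T L n ω * (log T + log c₁ - (1 + α) * (log (L / p) - 1)) -
      (1 + α) * p * ee K X l h T L ω n ≤ log (W K X l h (ee K X l h T L ω n * L) 0 ω) := by
  classical
  have hLr : (1:ℝ) ≤ L := by exact_mod_cast hL
  induction n with
  | zero => simp [ee, mm, W_zero]
  | succ n ih =>
    obtain ⟨ihp, ih⟩ := ih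
    have hm : mm K X l h T L (n + 1) ω = mm K X l h T L n ω +
        if T ≤ W K X l h L (n * L) ω then (1:ℝ) else 0 := by
      unfold mm
      rw [Finset.sum_range_succ]
    rw [hm, ee]
    split_ifs with hg
    · -- good block
      set e := ee K X l h T L ω n with he
      have hen : e ≤ n := ee_le _ _ _ _ _ _ _ _
      -- the jump
      have hj : c₁ * ((L:ℝ) * (n - e + 1)) ^ (-(1 + α)) ≤ W K X l h ((n - e) * L) (0 + e * L) ω := by
        have hge : (1:ℝ) ≤ (n:ℝ) - e + 1 := by
          have : (e:ℝ) ≤ n := by exact_mod_cast hen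
          linarith
        rcases hen.eq_or_lt with h1 | h1
        · rw [h1]
          simp only [sub_self, zero_add, mul_one, Nat.sub_self, zero_mul, W_zero]
          have h2 : (L:ℝ) ^ (-(1 + α)) ≤ 1 := rpow_le_one_of_one_le_of_nonpos hLr (by linarith)
          have h3 : 0 ≤ (L:ℝ) ^ (-(1 + α)) := by positivity
          nlinarith
        · have h2 : (n - e) * L ≠ 0 := by
            have : 0 < n - e := by omega
            positivity
          have h3 := W_ge hK X l h h2 (0 + e * L) ω
          have h4 : L ≤ (n - e) * L := by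
            have : 1 ≤ n - e := by omega
            nlinarith
          have h5 := hKL _ h4
          refine le_trans ?_ (h5.trans h3)
          have h6 : (((n - e) * L : ℕ) : ℝ) ≤ (L:ℝ) * (n - e + 1) := by
            push_cast [Nat.cast_sub hen]
            nlinarith
          have h7 : (0:ℝ) < (((n - e) * L : ℕ) : ℝ) := by exact_mod_cast Nat.pos_of_ne_zero h2
          exact mul_le_mul_of_nonneg_left (rpow_le_rpow_of_nonpos h7 h6 (by linarith)) hc.le
      have hge : (1:ℝ) ≤ (n:ℝ) - e + 1 := by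
        have : (e:ℝ) ≤ n := by exact_mod_cast hen
        linarith
      have hpos1 : 0 < c₁ * ((L:ℝ) * (n - e + 1)) ^ (-(1 + α)) := by positivity
      have hWj : 0 < W K X l h ((n - e) * L) (0 + e * L) ω := hpos1.trans_le hj
      have hWg : 0 < W K X l h L (n * L) ω := hT.trans_le hg
      -- product bound
      have m1 := W_mul hK X l h (e * L) ((n - e) * L) 0 ω
      have m2 := W_mul hK X l h (e * L + (n - e) * L) L 0 ω
      have e1 : e * L + (n - e) * L = n * L := by rw [← add_mul]; congr 1; omega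
      rw [e1] at m1 m2
      have e2 : n * L + L = (n + 1) * L := by ring
      rw [e2, zero_add] at m2
      have hprod : W K X l h (e * L) 0 ω * W K X l h ((n - e) * L) (0 + e * L) ω *
          W K X l h L (n * L) ω ≤ W K X l h ((n + 1) * L) 0 ω := by
        refine le_trans ?_ m2
        gcongr
      have hpp : 0 < W K X l h (e * L) 0 ω * W K X l h ((n - e) * L) (0 + e * L) ω *
          W K X l h L (n * L) ω := by positivity
      refine ⟨hpp.trans_le hprod, ?_⟩
      have hlog := log_le_log hpp hprod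
      rw [log_mul (by positivity) hWg.ne', log_mul ihp.ne' hWj.ne'] at hlog
      have hl1 := log_le_log hpos1 hj
      rw [log_mul hc.ne' (by positivity), log_rpow (by positivity)] at hl1
      have hl2 := log_le_log hT hg
      -- tangent line
      have hL0 : (0:ℝ) < L := by linarith
      have htan : log ((L:ℝ) * (n - e + 1)) ≤ log (L / p) + p * ((n:ℝ) - e + 1) - 1 := by
        have e3 : (L:ℝ) * (n - e + 1) = (L / p) * (p * (n - e + 1)) := by field_simp
        have h8 : 0 < p * ((n:ℝ) - e + 1) := by positivity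
        rw [e3, log_mul (by positivity) h8.ne']
        have := log_le_sub_one_of_pos h8
        linarith
      have htan2 : (1 + α) * log ((L:ℝ) * (n - e + 1)) ≤
          (1 + α) * (log (L / p) + p * ((n:ℝ) - e + 1) - 1) := by gcongr
      push_cast
      linarith
    · exact ⟨ihp, by simpa using ih⟩

theorem final (hK : KK K) {α c₁ : ℝ} (hα : 0 < α) (hc : 0 < c₁) (hc1 : c₁ ≤ 1) {l h T p : ℝ}
    (hT : 0 < T) (hp : 0 < p) {L : ℕ} (hL : 1 ≤ L)
    (hKL : ∀ n, L ≤ n → c₁ * (n:ℝ) ^ (-(1 + α)) ≤ K n / 2) (ω : Ω) (n N : ℕ)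
    (hN : (n + 1) * L ≤ N) :
    0 < W K X l h N 0 ω ∧
    mm K X l h T L n ω * (log T + log c₁ - (1 + α) * (log (L / p) - 1)) -
      (1 + α) * p * n + log c₁ - (1 + α) * log N ≤ log (W K X l h N 0 ω) := by
  obtain ⟨h1, h2⟩ := block (X := X) hK hα hc hc1 (l := l) (h := h) hT hp hL hKL ω n
  set e := ee K X l h T L ω n with he
  have hen : e ≤ n := ee_le _ _ _ _ _ _ _ _
  have h3 : e * L + L ≤ N := by
    have : (e + 1) * L ≤ (n + 1) * L := Nat.mul_le_mul_right _ (by omega)
    have e2 : (e + 1) * L = e * L + L := by ring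
    omega
  have h4 : N - e * L ≠ 0 := by omega
  have h5 := W_ge hK X l h h4 (0 + e * L) ω
  have h6 := hKL (N - e * L) (by omega)
  have m1 := W_mul hK X l h (e * L) (N - e * L) 0 ω
  have e1 : e * L + (N - e * L) = N := by omega
  rw [e1] at m1
  have hpos : (0:ℝ) < ((N - e * L : ℕ) : ℝ) := by exact_mod_cast Nat.pos_of_ne_zero h4
  have hNpos : (0:ℝ) < N := by
    have : 0 < N := by omega
    exact_mod_cast this
  have h7 : c₁ * (N:ℝ) ^ (-(1 + α)) ≤ W K X l h (N - e * L) (0 + e * L) ω := by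
    refine le_trans ?_ (h6.trans h5)
    have h7' : ((N - e * L : ℕ) : ℝ) ≤ N := by exact_mod_cast Nat.sub_le _ _
    exact mul_le_mul_of_nonneg_left (rpow_le_rpow_of_nonpos hpos h7' (by linarith)) hc.le
  have h8 : 0 < c₁ * (N:ℝ) ^ (-(1 + α)) := by positivity
  have h9 : 0 < W K X l h (N - e * L) (0 + e * L) ω := h8.trans_le h7
  have h10 : 0 < W K X l h (e * L) 0 ω * W K X l h (N - e * L) (0 + e * L) ω := by positivity
  refine ⟨h10.trans_le m1, ?_⟩
  have h11 := log_le_log h10 m1
  rw [log_mul h1.ne' h9.ne'] at h11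
  have h12 := log_le_log h8 h7
  rw [log_mul hc.ne' (by positivity), log_rpow hNpos] at h12
  have h13 : (1 + α) * p * e ≤ (1 + α) * p * n := by
    have : (e:ℝ) ≤ n := by exact_mod_cast hen
    gcongr
  linarith

end det

variable {Ω : Type*} [mΩ : MeasurableSpace Ω] {X : ℕ → Ω → ℝ} {μ : Measure Ω} {K : ℕ → ℝ}

theorem mm_integral (hX : Charges X μ) (l h T : ℝ) (L n : ℕ) :
    Integrable (mm K X l h T L n) μ ∧
    ∫ ω, mm K X l h T L n ω ∂μ = n * μ.real {ω | T ≤ W K X l h L 0 ω} := by
  classical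
  have hprob := hX.prob
  have hms : ∀ a, MeasurableSet {ω | T ≤ W K X l h L a ω} := fun a =>
    measurableSet_le measurable_const (measurable_W hX l h L a)
  have e : mm K X l h T L n = fun ω => ∑ k ∈ Finset.range n,
      {ω | T ≤ W K X l h L (k * L) ω}.indicator (fun _ => (1:ℝ)) ω := by
    funext ω
    unfold mm
    refine Finset.sum_congr rfl fun k _ => ?_
    simp only [Set.indicator_apply, Set.mem_ofPred_eq]
  have hi : ∀ k ∈ Finset.range n, Integrable
      ({ω | T ≤ W K X l h L (k * L) ω}.indicator (fun _ => (1:ℝ))) μ := fun k _ =>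
    (integrable_const (1:ℝ)).indicator (hms _)
  have hpr : ∀ a, μ.real {ω | T ≤ W K X l h L a ω} = μ.real {ω | T ≤ W K X l h L 0 ω} := by
    intro a
    have := (W_ident (K := K) hX l h L a).measure_mem_eq (s := Set.Ici T) measurableSet_Ici
    exact congrArg ENNReal.toReal this
  rw [e]
  refine ⟨integrable_finsetSum _ hi, ?_⟩
  rw [integral_finsetSum _ hi]
  have : ∀ k ∈ Finset.range n, ∫ ω, {ω | T ≤ W K X l h L (k * L) ω}.indicator
      (fun _ => (1:ℝ)) ω ∂μ = μ.real {ω | T ≤ W K X l h L 0 ω} := by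
    intro k _
    rw [integral_indicator_const _ (hms _), smul_eq_mul, mul_one]
    exact hpr _
  rw [Finset.sum_congr rfl this]
  simp

/-- Rare stretches: linear growth of `E log W`. -/
theorem rare (hK : KK K) (hX : Charges X μ) {α γ c₁ l h : ℝ} (hα : 0 < α) (hγ : γ = 1 / (1 + α))
    (hl : 0 ≤ l) (hc : 0 < c₁) (hc1 : c₁ ≤ 1) {n₁ : ℕ}
    (hKL : ∀ n, n₁ ≤ n → c₁ * (n:ℝ) ^ (-(1 + α)) ≤ K n / 2)
    {b : ℕ → ℝ} (hb : ∀ n, b n = 0 ∨ 1 ≤ b n)
    (hbe : ∀ a n, n ≠ 0 → b n ≤ ∫ ω, ph X l h a n ω ^ γ ∂μ)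
    {n₀ : ℕ} (hn : 1 < ∑ i ∈ Finset.range n₀, K (i + 1) * b (i + 1)) :
    ∃ δ > 0, ∀ᶠ N : ℕ in atTop, (∀ ω, 0 < W K X l h N 0 ω) ∧
      Integrable (fun ω => log (W K X l h N 0 ω)) μ ∧
      δ * N ≤ ∫ ω, log (W K X l h N 0 ω) ∂μ := by
  have hprob := hX.prob
  have hα1 : 0 < 1 + α := by linarith
  have h0 : 0 < γ := by rw [hγ]; positivity
  have h1 : γ < 1 := by rw [hγ, div_lt_one hα1]; linarith
  obtain ⟨L, hL0, hL1, T, hT, hlev⟩ := level hK hX hl h0 h1 h hb hbe hn hc n₁
  set p := μ.real {ω | T ≤ W K X l h L 0 ω} with hp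
  have hLr : (1:ℝ) ≤ L := by exact_mod_cast hL1
  have hcT : 0 < (c₁ * T) ^ γ := by positivity
  have hp0 : 0 < p := by
    by_contra hneg
    have : p ≤ 0 := not_lt.1 hneg
    have : p * (c₁ * T) ^ γ ≤ 0 := mul_nonpos_of_nonpos_of_nonneg this hcT.le
    linarith
  -- the gain
  set D := log T + log c₁ - (1 + α) * log (L / p) with hD
  have hD0 : 0 < D := by
    have h2 : (L:ℝ) / p < (c₁ * T) ^ γ := by rw [div_lt_iff₀ hp0]; linarith
    have h3 := log_lt_log (by positivity) h2
    rw [log_rpow (by positivity), log_mul hc.ne' hT.ne', hγ] at h3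
    have h4 : (1 + α) * log (L / p) < (1 + α) * (1 / (1 + α) * (log c₁ + log T)) := by gcongr
    have h5 : (1 + α) * (1 / (1 + α) * (log c₁ + log T)) = log c₁ + log T := by field_simp
    linarith
  have hKL' : ∀ n, L ≤ n → c₁ * (n:ℝ) ^ (-(1 + α)) ≤ K n / 2 := fun n hn => hKL n (hL0.trans hn)
  -- lower bound on the expectation
  have key : ∀ n N : ℕ, (n + 1) * L ≤ N → (∀ ω, 0 < W K X l h N 0 ω) ∧
      Integrable (fun ω => log (W K X l h N 0 ω)) μ ∧
      n * p * D + log c₁ - (1 + α) * log N ≤ ∫ ω, log (W K X l h N 0 ω) ∂μ := by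
    intro n N hN
    have hfin := fun ω => final (X := X) hK hα hc hc1 (l := l) (h := h) hT hp0 hL1 hKL' ω n N hN
    have hfin0 := fun ω => final (X := X) hK hα hc hc1 (l := l) (h := h) hT hp0 hL1 hKL' ω 0 N
      (by nlinarith)
    have hpos : ∀ ω, 0 < W K X l h N 0 ω := fun ω => (hfin ω).1
    have hlogm : Measurable fun ω => log (W K X l h N 0 ω) := (measurable_W hX l h N 0).log
    have hint : Integrable (fun ω => log (W K X l h N 0 ω)) μ := by
      have hi1 : Integrable (fun ω => |log c₁ - (1 + α) * log N| + W K X l h N 0 ω) μ :=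
        (integrable_const _).add (int_W hK hX hl h N 0)
      refine Integrable.mono' hi1 hlogm.aestronglyMeasurable ?_
      refine Filter.Eventually.of_forall fun ω => ?_
      have h2 := (hfin0 ω).2
      simp only [mm, Finset.range_zero, Finset.sum_empty, zero_mul, Nat.cast_zero, mul_zero,
        sub_zero, zero_add] at h2
      have h3 := log_le_sub_one_of_pos (hpos ω)
      have h4 := neg_abs_le (log c₁ - (1 + α) * log N)
      have h5 := abs_nonneg (log c₁ - (1 + α) * log N)
      have h6 := hpos ω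
      rw [norm_eq_abs, abs_le]
      constructor <;> linarith
    refine ⟨hpos, hint, ?_⟩
    obtain ⟨hmi, hme⟩ := mm_integral (K := K) hX l h T L n
    set A' := log T + log c₁ - (1 + α) * (log (L / p) - 1) with hA'
    have hi2 : Integrable (fun ω => mm K X l h T L n ω * A' -
        (1 + α) * p * n + log c₁ - (1 + α) * log N) μ :=
      (((hmi.mul_const _).sub (integrable_const _)).add (integrable_const _)).sub
        (integrable_const _)
    have h3 := integral_mono hi2 hint fun ω => (hfin ω).2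
    refine le_trans (le_of_eq ?_) h3
    have e1 : (fun ω => mm K X l h T L n ω * A' - (1 + α) * p * n + log c₁ - (1 + α) * log N) =
        fun ω => mm K X l h T L n ω * A' + (-(1 + α) * p * n + log c₁ - (1 + α) * log N) := by
      funext ω; ring
    rw [e1, integral_add (hmi.mul_const _) (integrable_const _), integral_mul_const, hme]
    simp only [integral_const, probReal_univ, one_smul]
    rw [hA', hD, ← hp]
    ring
  -- choose n
  have hlin : ∀ᶠ N : ℕ in atTop, (p * D / (2 * L)) * N ≤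
      ((N:ℝ) / L - 2) * p * D + log c₁ - (1 + α) * log N := by
    have hlo : Tendsto (fun N : ℕ => log (N:ℝ) / N) atTop (𝓝 0) := by
      have h2 := (isLittleO_log_id_atTop.tendsto_div_nhds_zero).comp tendsto_natCast_atTop_atTop
      exact h2
    have hco : Tendsto (fun N : ℕ => (2 * p * D - log c₁) / (N:ℝ)) atTop (𝓝 0) :=
      tendsto_const_div_atTop_nhds_zero_nat _
    have h3 : Tendsto (fun N : ℕ => (1 + α) * (log (N:ℝ) / N) + (2 * p * D - log c₁) / N) atTop
        (𝓝 ((1 + α) * 0 + 0)) := (hlo.const_mul _).add hco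
    have hpos : (1 + α) * 0 + 0 < p * D / (2 * L) := by
      have : 0 < p * D / (2 * L) := by positivity
      linarith
    filter_upwards [h3.eventually (gt_mem_nhds hpos), eventually_gt_atTop 0] with N hN hN0
    have hN0' : (0:ℝ) < N := by exact_mod_cast hN0
    have h4 : ((1 + α) * (log (N:ℝ) / N) + (2 * p * D - log c₁) / N) * N <
        p * D / (2 * L) * N := by gcongr
    have h5 : ((1 + α) * (log (N:ℝ) / N) + (2 * p * D - log c₁) / N) * N =
        (1 + α) * log N + (2 * p * D - log c₁) := by field_simp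
    have h6 : ((N:ℝ) / L - 2) * p * D = 2 * (p * D / (2 * L) * N) - 2 * p * D := by
      field_simp
    rw [h5] at h4
    rw [h6]
    linarith
  refine ⟨p * D / (2 * L), by positivity, ?_⟩
  filter_upwards [hlin, eventually_ge_atTop L] with N hN hNL
  set n := N / L - 1 with hn'
  have hdiv : 1 ≤ N / L := (Nat.one_le_div_iff (by omega)).2 hNL
  have hnN : (n + 1) * L ≤ N := by
    rw [hn', Nat.sub_add_cancel hdiv]
    exact Nat.div_mul_le_self N L
  obtain ⟨k1, k2, k3⟩ := key n N hnN
  refine ⟨k1, k2, hN.trans (le_trans ?_ k3)⟩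
  have h4 : (N:ℝ) / L - 2 ≤ n := by
    have h5 : (N:ℝ) / L < (N / L : ℕ) + 1 := by
      rw [div_lt_iff₀ (by linarith)]
      have := Nat.lt_div_mul_add (a := N) (b := L) (by omega)
      have h6 : N < (N / L + 1) * L := by
        calc N < N / L * L + L := this
          _ = (N / L + 1) * L := by ring
      exact_mod_cast h6
    rw [hn', Nat.cast_sub hdiv]
    push_cast
    linarith
  have h7 : ((N:ℝ) / L - 2) * p * D ≤ n * p * D := by gcongr
  linarith

end Pool.Agent.K6.H76.Cop
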