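import Pool.Agent.K6.H76.Cop.Rare
import Pool.Agent.K6.H76.Cop.Defs

set_option autoImplicit false

namespace Pool.Agent.K6.H76.Cop

open Real Set Filter Topology MeasureTheory ProbabilityTheory

variable {T Ω : Type*} [mT : MeasurableSpace T] [mΩ : MeasurableSpace Ω]
  {K : ℕ → ℝ} {ξ : ℕ → T → ℕ} {ε : ℕ → T → ℤ} {P : Measure T} {X : ℕ → Ω → ℝ} {μ : Measure Ω}

theorem IsCharges.charges (h : IsCharges X μ) : Charges X μ :=
  ⟨h.measurable, h.indep, h.ident, h.mean, h.variance, h.expMoments⟩

theorem IsInterArrivalLaw.kk {α : ℝ} (h : IsInterArrivalLaw α K) : KK K := by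
  refine ⟨h.nonneg, fun n => ?_⟩
  have h1 := h.hasSum
  have h2 : ∑ i ∈ Finset.range n, K (i + 1) = ∑ i ∈ Finset.range (n + 1), K i := by
    rw [Finset.sum_range_succ', h.zero, add_zero]
  rw [h2, ← h1.tsum_eq]
  exact h1.summable.sum_le_tsum _ fun i _ => h.nonneg i

theorem IsInterArrivalLaw.tendsto_sum {α : ℝ} (h : IsInterArrivalLaw α K) :
    Tendsto (fun N => ∑ i ∈ Finset.range N, K (i + 1)) atTop (𝓝 1) := by
  have h1 := h.hasSum.tendsto_sum_nat
  have h2 := h1.comp (tendsto_add_atTop_nat 1)
  refine h2.congr fun n => ?_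
  simp only [Function.comp]
  rw [Finset.sum_range_succ', h.zero, add_zero]

theorem IsInterArrivalLaw.tendsto_tail {α : ℝ} (h : IsInterArrivalLaw α K) :
    ∃ c : ℝ, 0 < c ∧ Tendsto (fun n : ℕ => K n * (n:ℝ) ^ (1 + α)) atTop (𝓝 c) := by
  obtain ⟨c, hc, he⟩ := h.tail
  refine ⟨c, hc, ?_⟩
  have h1 := (Asymptotics.isEquivalent_iff_tendsto_one ?_).1 he
  · have h2 := h1.const_mul c
    rw [mul_one] at h2
    refine h2.congr' ?_
    filter_upwards [eventually_gt_atTop 0] with n hn
    have hn' : (0:ℝ) < n := by exact_mod_cast hn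
    simp only [Pi.div_apply]
    rw [rpow_neg hn'.le]
    have : 0 < (n:ℝ) ^ (1 + α) := rpow_pos_of_pos hn' _
    field_simp
  · filter_upwards [eventually_gt_atTop 0] with n hn
    have hn' : (0:ℝ) < n := by exact_mod_cast hn
    positivity

/-- pathwise pinned weight -/
noncomputable def FF (X : ℕ → Ω → ℝ) (l h : ℝ) (ω : Ω) (ξ : ℕ → T → ℕ) (ε : ℕ → T → ℤ) :
    ℕ → ℕ → ℕ → T → ℝ
  | 0, _, _, _ => 1
  | (L + 1), k, a, t => ∑ i : Fin (L + 1),
      (if ξ k t = i + 1 then (if ε k t = -1 then exp (-2 * uu X l h a (i + 1) ω) else 1) else 0) *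
        FF X l h ω ξ ε (L - i) (k + 1) (a + (i + 1)) t
  termination_by L => L

omit mT mΩ in
theorem FF_zero (X : ℕ → Ω → ℝ) (l h : ℝ) (ω : Ω) (ξ : ℕ → T → ℕ) (ε : ℕ → T → ℤ) (k a : ℕ)
    (t : T) : FF X l h ω ξ ε 0 k a t = 1 := by rw [FF]

omit mT mΩ in
theorem FF_succ (X : ℕ → Ω → ℝ) (l h : ℝ) (ω : Ω) (ξ : ℕ → T → ℕ) (ε : ℕ → T → ℤ) (L k a : ℕ)
    (t : T) : FF X l h ω ξ ε (L + 1) k a t = ∑ i ∈ Finset.range (L + 1),
      (if ξ k t = i + 1 then (if ε k t = -1 then exp (-2 * uu X l h a (i + 1) ω) else 1) else 0) *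
        FF X l h ω ξ ε (L - i) (k + 1) (a + (i + 1)) t := by
  rw [FF, Fin.sum_univ_eq_sum_range (fun i =>
    (if ξ k t = i + 1 then (if ε k t = -1 then exp (-2 * uu X l h a (i + 1) ω) else 1) else 0) *
        FF X l h ω ξ ε (L - i) (k + 1) (a + (i + 1)) t)]

omit mT in
theorem renewalPoint_succ (ξ : ℕ → T → ℕ) (i : ℕ) (t : T) :
    renewalPoint ξ (i + 1) t = renewalPoint ξ i t + ξ i t := by
  unfold renewalPoint
  rw [Finset.sum_range_succ]

omit mT in
theorem renewalPoint_mono (ξ : ℕ → T → ℕ) (t : T) : Monotone fun i => renewalPoint ξ i t :=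
  monotone_nat_of_le_succ fun i => by rw [renewalPoint_succ]; omega

omit mT in
theorem below_eq (ξ : ℕ → T → ℕ) (ε : ℕ → T → ℤ) {k a n : ℕ} {t : T}
    (hk : renewalPoint ξ k t = a) (h1 : a ≤ n) (h2 : n < a + ξ k t) :
    below ξ ε (n + 1) t = if ε k t = -1 then 1 else 0 := by
  classical
  have hiff : (∃ i, renewalPoint ξ i t < n + 1 ∧ n + 1 ≤ renewalPoint ξ (i + 1) t ∧ ε i t = -1) ↔
      ε k t = -1 := by
    constructor
    · rintro ⟨i, h3, h4, h5⟩
      have hik : i = k := by
        rcases lt_trichotomy i k with h | h | h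
        · have := renewalPoint_mono ξ t (show i + 1 ≤ k by omega)
          simp only at this
          omega
        · exact h
        · have := renewalPoint_mono ξ t (show k + 1 ≤ i by omega)
          simp only at this
          rw [renewalPoint_succ] at this
          omega
      rw [← hik]; exact h5
    · intro h5
      refine ⟨k, ?_, ?_, h5⟩
      · omega
      · rw [renewalPoint_succ]; omega
  unfold below
  simp only [hiff]

omit mT mΩ in
theorem FF_le (X : ℕ → Ω → ℝ) (l h : ℝ) (ω : Ω) (ξ : ℕ → T → ℕ) (ε : ℕ → T → ℤ) (L k a : ℕ)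
    (t : T) (hk : renewalPoint ξ k t = a) :
    FF X l h ω ξ ε L k a t ≤
      exp (-2 * l * ∑ n ∈ Finset.Ico a (a + L), below ξ ε (n + 1) t * (X n ω + h)) := by
  induction L using Nat.strong_induction_on generalizing k a with
  | _ L ih =>
    cases L with
    | zero => simp [FF_zero]
    | succ L =>
      rw [FF_succ]
      by_cases hex : ∃ i, i ≤ L ∧ ξ k t = i + 1
      · obtain ⟨i, hi, hξ⟩ := hex
        rw [Finset.sum_eq_single_of_mem i (Finset.mem_range.2 (by omega))]
        · rw [if_pos hξ]
          have hk' : renewalPoint ξ (k + 1) t = a + (i + 1) := by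
            rw [renewalPoint_succ, hk, hξ]
          have h1 := ih (L - i) (by omega) (k + 1) (a + (i + 1)) hk'
          have e1 : a + (i + 1) + (L - i) = a + (L + 1) := by omega
          rw [e1] at h1
          have h2 : (if ε k t = -1 then exp (-2 * uu X l h a (i + 1) ω) else 1) =
              exp (-2 * l * ∑ n ∈ Finset.Ico a (a + (i + 1)), below ξ ε (n + 1) t * (X n ω + h)) := by
            have h3 : ∑ n ∈ Finset.Ico a (a + (i + 1)), below ξ ε (n + 1) t * (X n ω + h) =
                ∑ n ∈ Finset.Ico a (a + (i + 1)), (if ε k t = -1 then 1 else 0) * (X n ω + h) := by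
              refine Finset.sum_congr rfl fun n hn => ?_
              simp only [Finset.mem_Ico] at hn
              rw [below_eq ξ ε hk hn.1 (by rw [hξ]; exact hn.2)]
            rw [h3]
            split_ifs with hε
            · simp only [one_mul]
              unfold uu
              congr 1
              ring
            · simp
          rw [h2, ← Finset.sum_Ico_consecutive _ (show a ≤ a + (i + 1) by omega)
            (show a + (i + 1) ≤ a + (L + 1) by omega), mul_add, exp_add]
          gcongr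
        · intro j _ hj
          rw [if_neg (by omega), zero_mul]
      · push Not at hex
        rw [Finset.sum_eq_zero]
        · exact (exp_pos _).le
        · intro i hi
          simp only [Finset.mem_range] at hi
          rw [if_neg (hex i (by omega)), zero_mul]

/-- sigma-algebra of the pairs with index in `S` -/
@[reducible] def sgp (ξ : ℕ → T → ℕ) (ε : ℕ → T → ℤ) (S : Set ℕ) : MeasurableSpace T :=
  ⨆ i ∈ S, MeasurableSpace.comap (fun t => (ξ i t, ε i t)) inferInstance

theorem sgp_mono (ξ : ℕ → T → ℕ) (ε : ℕ → T → ℤ) {S S' : Set ℕ} (h : S ⊆ S') :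
    sgp ξ ε S ≤ sgp ξ ε S' := biSup_mono fun _ hi => h hi

theorem meas_pair (ξ : ℕ → T → ℕ) (ε : ℕ → T → ℤ) {S : Set ℕ} {i : ℕ} (hi : i ∈ S) :
    @Measurable T (ℕ × ℤ) (sgp ξ ε S) _ (fun t => (ξ i t, ε i t)) :=
  Measurable.mono (comap_measurable (fun t => (ξ i t, ε i t)))
    (le_iSup₂_of_le (f := fun i (_ : i ∈ S) =>
      MeasurableSpace.comap (fun t => (ξ i t, ε i t)) inferInstance) i hi le_rfl) le_rfl

theorem sgp_le (hR : IsSignedRenewal K ξ ε P) (S : Set ℕ) : sgp ξ ε S ≤ mT :=
  iSup₂_le fun i _ => ((hR.measurable_time i).prodMk (hR.measurable_sign i)).comap_le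

theorem indep_sgp (hR : IsSignedRenewal K ξ ε P) {S S' : Set ℕ} (hS : Disjoint S S') {f g : T → ℝ}
    (hf : @Measurable T ℝ (sgp ξ ε S) _ f) (hg : @Measurable T ℝ (sgp ξ ε S') _ g) :
    IndepFun f g P := by
  rw [IndepFun_iff_Indep]
  refine indep_of_indep_of_le_left (indep_of_indep_of_le_right
    (indep_iSup_of_disjoint (fun i => ((hR.measurable_time i).prodMk
      (hR.measurable_sign i)).comap_le) hR.indep.iIndep hS) ?_) ?_
  · exact hg.comap_le
  · exact hf.comap_le

theorem meas_first (ξ : ℕ → T → ℕ) (ε : ℕ → T → ℤ) (k m : ℕ) (e : ℝ) {S : Set ℕ} (hk : k ∈ S) :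
    @Measurable T ℝ (sgp ξ ε S) _
      (fun t => if ξ k t = m then (if ε k t = -1 then e else 1) else 0) := by
  have h1 : Measurable fun q : ℕ × ℤ => if q.1 = m then (if q.2 = -1 then e else 1) else (0:ℝ) :=
    measurable_of_countable _
  exact h1.comp (meas_pair ξ ε hk)

theorem meas_FF (X : ℕ → Ω → ℝ) (l h : ℝ) (ω : Ω) (ξ : ℕ → T → ℕ) (ε : ℕ → T → ℤ) (L k a : ℕ) :
    @Measurable T ℝ (sgp ξ ε (Set.Ici k)) _ (FF X l h ω ξ ε L k a) := by
  induction L using Nat.strong_induction_on generalizing k a with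
  | _ L ih =>
    cases L with
    | zero =>
      have : FF X l h ω ξ ε 0 k a = fun _ => 1 := by funext t; exact FF_zero _ _ _ _ _ _ _ _ _
      rw [this]; exact measurable_const
    | succ L =>
      have : FF X l h ω ξ ε (L + 1) k a = fun t => ∑ i ∈ Finset.range (L + 1),
        (if ξ k t = i + 1 then (if ε k t = -1 then exp (-2 * uu X l h a (i + 1) ω) else 1) else 0) *
        FF X l h ω ξ ε (L - i) (k + 1) (a + (i + 1)) t := by
        funext t; exact FF_succ _ _ _ _ _ _ _ _ _ _
      rw [this]
      refine Finset.measurable_sum _ fun i _ => ?_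
      refine Measurable.mul (meas_first ξ ε k (i + 1) _ (by simp)) ?_
      exact (ih (L - i) (by omega) (k + 1) (a + (i + 1))).mono
        (sgp_mono ξ ε (Set.Ici_subset_Ici.2 (by omega))) le_rfl

theorem first_integral (hR : IsSignedRenewal K ξ ε P) (k m : ℕ) (e : ℝ) :
    Integrable (fun t => if ξ k t = m then (if ε k t = -1 then e else 1) else (0:ℝ)) P ∧
    ∫ t, (if ξ k t = m then (if ε k t = -1 then e else 1) else (0:ℝ)) ∂P = K m * ((1 + e) / 2) := by
  have hP : IsProbabilityMeasure P := hR.indep.isProbabilityMeasure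
  have hmξ : MeasurableSet {t | ξ k t = m} := (hR.measurable_time k) (measurableSet_singleton m)
  have hmε : MeasurableSet {t | ε k t = -1} := (hR.measurable_sign k) (measurableSet_singleton (-1))
  set f : T → ℝ := fun t => if ξ k t = m then 1 else 0 with hf
  set g : T → ℝ := fun t => if ε k t = -1 then e else 1 with hg
  have hfi : f = {t | ξ k t = m}.indicator (fun _ => (1:ℝ)) := by
    funext t; simp [hf, Set.indicator_apply]
  have hgi : g = fun t => 1 + (e - 1) * {t | ε k t = -1}.indicator (fun _ => (1:ℝ)) t := by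
    funext t
    simp only [hg, Set.indicator_apply, Set.mem_ofPred_eq]
    split_ifs <;> ring
  have if1 : Integrable f P := by rw [hfi]; exact (integrable_const _).indicator hmξ
  have ig2 : Integrable ({t | ε k t = -1}.indicator (fun _ => (1:ℝ))) P :=
    (integrable_const _).indicator hmε
  have ig1 : Integrable g P := by
    rw [hgi]
    exact (integrable_const _).add (ig2.const_mul _)
  have ef : ∫ t, f t ∂P = K m := by
    rw [hfi, integral_indicator_const _ hmξ, smul_eq_mul, mul_one]
    exact hR.law k m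
  have eg : ∫ t, g t ∂P = (1 + e) / 2 := by
    rw [hgi, integral_add (integrable_const _) (ig2.const_mul _), integral_const_mul,
      integral_indicator_const _ hmε, smul_eq_mul, mul_one, hR.minus k]
    simp
    ring
  have hind : IndepFun f g P :=
    (hR.indep_time_sign k).comp (φ := fun n : ℕ => if n = m then (1:ℝ) else 0)
      (ψ := fun n : ℤ => if n = -1 then e else 1) (measurable_of_countable _)
      (measurable_of_countable _)
  have e1 : (fun t => if ξ k t = m then (if ε k t = -1 then e else 1) else (0:ℝ)) =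
      fun t => f t * g t := by
    funext t
    simp only [hf, hg]
    split_ifs <;> simp
  rw [e1]
  refine ⟨hind.integrable_mul if1 ig1, ?_⟩
  rw [hind.integral_fun_mul_eq_mul_integral if1.aestronglyMeasurable ig1.aestronglyMeasurable,
    ef, eg]

theorem FF_integral (hR : IsSignedRenewal K ξ ε P) (X : ℕ → Ω → ℝ) (l h : ℝ) (ω : Ω)
    (L k a : ℕ) : Integrable (FF X l h ω ξ ε L k a) P ∧
      ∫ t, FF X l h ω ξ ε L k a t ∂P = W K X l h L a ω := by
  have hP : IsProbabilityMeasure P := hR.indep.isProbabilityMeasure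
  induction L using Nat.strong_induction_on generalizing k a with
  | _ L ih =>
    cases L with
    | zero =>
      have : FF X l h ω ξ ε 0 k a = fun _ => 1 := by funext t; exact FF_zero _ _ _ _ _ _ _ _ _
      rw [this, W_zero]
      simp
    | succ L =>
      have hF : FF X l h ω ξ ε (L + 1) k a = fun t => ∑ i ∈ Finset.range (L + 1),
        (if ξ k t = i + 1 then (if ε k t = -1 then exp (-2 * uu X l h a (i + 1) ω) else 1) else 0) *
        FF X l h ω ξ ε (L - i) (k + 1) (a + (i + 1)) t := by
        funext t; exact FF_succ _ _ _ _ _ _ _ _ _ _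
      have hterm : ∀ i ∈ Finset.range (L + 1), Integrable (fun t =>
          (if ξ k t = i + 1 then (if ε k t = -1 then exp (-2 * uu X l h a (i + 1) ω) else 1)
            else 0) * FF X l h ω ξ ε (L - i) (k + 1) (a + (i + 1)) t) P ∧
          ∫ t, (if ξ k t = i + 1 then (if ε k t = -1 then exp (-2 * uu X l h a (i + 1) ω) else 1)
            else 0) * FF X l h ω ξ ε (L - i) (k + 1) (a + (i + 1)) t ∂P =
          K (i + 1) * ph X l h a (i + 1) ω * W K X l h (L - i) (a + (i + 1)) ω := by
        intro i _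
        obtain ⟨i1, e1⟩ := first_integral hR k (i + 1) (exp (-2 * uu X l h a (i + 1) ω))
        obtain ⟨i2, e2⟩ := ih (L - i) (by omega) (k + 1) (a + (i + 1))
        have hind := indep_sgp hR (S := {k}) (S' := Set.Ici (k + 1)) (by simp)
          (meas_first ξ ε k (i + 1) (exp (-2 * uu X l h a (i + 1) ω)) (by simp))
          (meas_FF X l h ω ξ ε (L - i) (k + 1) (a + (i + 1)))
        refine ⟨hind.integrable_mul i1 i2, ?_⟩
        rw [hind.integral_fun_mul_eq_mul_integral i1.aestronglyMeasurable
          i2.aestronglyMeasurable, e1, e2]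
        rfl
      rw [hF]
      refine ⟨integrable_finsetSum _ fun i hi => (hterm i hi).1, ?_⟩
      rw [integral_finsetSum _ fun i hi => (hterm i hi).1, W_succ]
      exact Finset.sum_congr rfl fun i hi => (hterm i hi).2

/-! ### the partition function -/

theorem below_mem (ξ : ℕ → T → ℕ) (ε : ℕ → T → ℤ) (n : ℕ) (t : T) :
    0 ≤ below ξ ε n t ∧ below ξ ε n t ≤ 1 := by
  unfold below
  split_ifs <;> norm_num

theorem measurable_below (hR : IsSignedRenewal K ξ ε P) (n : ℕ) : Measurable (below ξ ε n) := by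
  classical
  have hτ : ∀ i, Measurable (renewalPoint ξ i) := by
    intro i
    have : renewalPoint ξ i = fun t => ∑ j ∈ Finset.range i, ξ j t := rfl
    rw [this]
    exact Finset.measurable_sum _ fun j _ => hR.measurable_time j
  have hset : MeasurableSet {t | ∃ i, renewalPoint ξ i t < n ∧ n ≤ renewalPoint ξ (i + 1) t ∧
      ε i t = -1} := by
    have : {t | ∃ i, renewalPoint ξ i t < n ∧ n ≤ renewalPoint ξ (i + 1) t ∧ ε i t = -1} =
        ⋃ i, ({t | renewalPoint ξ i t < n} ∩ ({t | n ≤ renewalPoint ξ (i + 1) t} ∩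
          {t | ε i t = -1})) := by
      ext t; simp
    rw [this]
    refine MeasurableSet.iUnion fun i => ?_
    refine (measurableSet_lt (hτ i) measurable_const).inter
      ((measurableSet_le measurable_const (hτ (i + 1))).inter ?_)
    exact (hR.measurable_sign i) (measurableSet_singleton (-1))
  have : below ξ ε n = fun t => if t ∈ {t | ∃ i, renewalPoint ξ i t < n ∧
      n ≤ renewalPoint ξ (i + 1) t ∧ ε i t = -1} then (1:ℝ) else 0 := by
    funext t
    unfold below
    simp only [Set.mem_ofPred_eq]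
  rw [this]
  exact Measurable.ite hset measurable_const measurable_const

/-- the sum in the exponent is bounded -/
theorem abs_sum_le (ξ : ℕ → T → ℕ) (ε : ℕ → T → ℤ) (h : ℝ) (N : ℕ) (x : ℕ → ℝ) (t : T) :
    |∑ n ∈ Finset.range N, below ξ ε (n + 1) t * (x n + h)| ≤
      ∑ n ∈ Finset.range N, (|x n| + |h|) := by
  refine (Finset.abs_sum_le_sum_abs _ _).trans (Finset.sum_le_sum fun n _ => ?_)
  obtain ⟨h1, h2⟩ := below_mem ξ ε (n + 1) t
  rw [abs_mul, abs_of_nonneg h1]
  calc below ξ ε (n + 1) t * |x n + h| ≤ 1 * |x n + h| := by gcongr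
    _ ≤ |x n| + |h| := by rw [one_mul]; exact abs_add_le _ _

theorem integrand_bounds (ξ : ℕ → T → ℕ) (ε : ℕ → T → ℤ) {l : ℝ} (hl : 0 ≤ l) (h : ℝ) (N : ℕ)
    (x : ℕ → ℝ) (t : T) :
    exp (-(2 * l * ∑ n ∈ Finset.range N, (|x n| + |h|))) ≤
      exp (-2 * l * ∑ n ∈ Finset.range N, below ξ ε (n + 1) t * (x n + h)) ∧
    exp (-2 * l * ∑ n ∈ Finset.range N, below ξ ε (n + 1) t * (x n + h)) ≤
      exp (2 * l * ∑ n ∈ Finset.range N, (|x n| + |h|)) := by
  have h1 := abs_le.1 (abs_sum_le ξ ε h N x t)
  constructor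
  · apply exp_le_exp.2
    have : 2 * l * ∑ n ∈ Finset.range N, below ξ ε (n + 1) t * (x n + h) ≤
      2 * l * ∑ n ∈ Finset.range N, (|x n| + |h|) :=
      mul_le_mul_of_nonneg_left h1.2 (by positivity)
    linarith
  · apply exp_le_exp.2
    have : 2 * l * -∑ n ∈ Finset.range N, (|x n| + |h|) ≤
      2 * l * ∑ n ∈ Finset.range N, below ξ ε (n + 1) t * (x n + h) :=
      mul_le_mul_of_nonneg_left h1.1 (by positivity)
    linarith

theorem measurable_expo (hR : IsSignedRenewal K ξ ε P) (l h : ℝ) (N : ℕ) (x : ℕ → ℝ) :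
    Measurable fun t => exp (-2 * l * ∑ n ∈ Finset.range N, below ξ ε (n + 1) t * (x n + h)) := by
  refine ((Finset.measurable_sum _ fun n _ => ?_).const_mul _).exp
  exact (measurable_below hR (n + 1)).mul_const _

theorem integrable_expo (hR : IsSignedRenewal K ξ ε P) {l : ℝ} (hl : 0 ≤ l) (h : ℝ) (N : ℕ)
    (x : ℕ → ℝ) : Integrable
    (fun t => exp (-2 * l * ∑ n ∈ Finset.range N, below ξ ε (n + 1) t * (x n + h))) P := by
  have hP : IsProbabilityMeasure P := hR.indep.isProbabilityMeasure
  refine Integrable.mono' (integrable_const (exp (2 * l * ∑ n ∈ Finset.range N, (|x n| + |h|))))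
    (measurable_expo hR l h N x).aestronglyMeasurable ?_
  refine Filter.Eventually.of_forall fun t => ?_
  rw [norm_eq_abs, abs_exp]
  exact (integrand_bounds ξ ε hl h N x t).2

theorem pf_bounds (hR : IsSignedRenewal K ξ ε P) {l : ℝ} (hl : 0 ≤ l) (h : ℝ) (N : ℕ)
    (x : ℕ → ℝ) :
    exp (-(2 * l * ∑ n ∈ Finset.range N, (|x n| + |h|))) ≤ partitionFunction ξ ε P l h N x ∧
    partitionFunction ξ ε P l h N x ≤ exp (2 * l * ∑ n ∈ Finset.range N, (|x n| + |h|)) := by
  have hP : IsProbabilityMeasure P := hR.indep.isProbabilityMeasure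
  have hi := integrable_expo hR hl h N x
  constructor
  · have := integral_mono (integrable_const _) hi fun t => (integrand_bounds ξ ε hl h N x t).1
    simpa [partitionFunction] using this
  · have := integral_mono hi (integrable_const _) fun t => (integrand_bounds ξ ε hl h N x t).2
    simpa [partitionFunction] using this

theorem pf_pos (hR : IsSignedRenewal K ξ ε P) {l : ℝ} (hl : 0 ≤ l) (h : ℝ) (N : ℕ)
    (x : ℕ → ℝ) : 0 < partitionFunction ξ ε P l h N x :=
  (exp_pos _).trans_le (pf_bounds hR hl h N x).1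

theorem abs_log_pf (hR : IsSignedRenewal K ξ ε P) {l : ℝ} (hl : 0 ≤ l) (h : ℝ) (N : ℕ)
    (x : ℕ → ℝ) : |log (partitionFunction ξ ε P l h N x)| ≤
      2 * l * ∑ n ∈ Finset.range N, (|x n| + |h|) := by
  obtain ⟨h1, h2⟩ := pf_bounds hR hl h N x
  have h3 := log_le_log (exp_pos _) h1
  have h4 := log_le_log (pf_pos hR hl h N x) h2
  rw [log_exp] at h3 h4
  rw [abs_le]
  exact ⟨by linarith, h4⟩

/-- The pinned partition function is a lower bound. -/
theorem W_le_pf (hR : IsSignedRenewal K ξ ε P) (X : ℕ → Ω → ℝ) {l : ℝ} (hl : 0 ≤ l) (h : ℝ)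
    (N : ℕ) (ω : Ω) : W K X l h N 0 ω ≤ partitionFunction ξ ε P l h N (fun n => X n ω) := by
  obtain ⟨h1, h2⟩ := FF_integral hR X l h ω N 0 0
  rw [← h2]
  refine integral_mono h1 (integrable_expo hR hl h N _) fun t => ?_
  have := FF_le X l h ω ξ ε N 0 0 t (by simp [renewalPoint])
  simpa using this

theorem measurable_pf (hR : IsSignedRenewal K ξ ε P) (hX : ∀ i, Measurable (X i)) (l h : ℝ)
    (N : ℕ) : Measurable fun ω => partitionFunction ξ ε P l h N (fun n => X n ω) := by
  have hP : IsProbabilityMeasure P := hR.indep.isProbabilityMeasure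
  have hm : Measurable fun p : Ω × T =>
      exp (-2 * l * ∑ n ∈ Finset.range N, below ξ ε (n + 1) p.2 * (X n p.1 + h)) := by
    refine ((Finset.measurable_sum _ fun n _ => ?_).const_mul _).exp
    exact ((measurable_below hR (n + 1)).comp measurable_snd).mul
      (((hX n).comp measurable_fst).add_const h)
  exact (hm.stronglyMeasurable.integral_prod_right (ν := P)).measurable

theorem integrable_log_pf (hR : IsSignedRenewal K ξ ε P) (hX : Charges X μ) {l : ℝ} (hl : 0 ≤ l)
    (h : ℝ) (N : ℕ) :
    Integrable (fun ω => log (partitionFunction ξ ε P l h N (fun n => X n ω))) μ := by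
  have hprob := hX.prob
  have hi : Integrable (fun ω => 2 * l * ∑ n ∈ Finset.range N, (|X n ω| + |h|)) μ := by
    refine Integrable.const_mul ?_ _
    exact integrable_finsetSum _ fun n _ => ((hX.int_id n).abs).add (integrable_const _)
  refine Integrable.mono' hi (measurable_pf hR hX.measurable l h N).log.aestronglyMeasurable ?_
  exact Filter.Eventually.of_forall fun ω => abs_log_pf hR hl h N _

/-- The mean of the absolute value gives a bound on the finite-volume free energy. -/
theorem abs_fv (hR : IsSignedRenewal K ξ ε P) (hX : Charges X μ) {l : ℝ} (hl : 0 ≤ l)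
    (h : ℝ) (N : ℕ) :
    |(1 / (N:ℝ)) * ∫ ω, log (partitionFunction ξ ε P l h N (fun n => X n ω)) ∂μ| ≤
      2 * l * ((∫ ω, |X 0 ω| ∂μ) + |h|) := by
  have hprob := hX.prob
  have hi : ∀ n, Integrable (fun ω => |X n ω| + |h|) μ := fun n =>
    ((hX.int_id n).abs).add (integrable_const _)
  have hb : |∫ ω, log (partitionFunction ξ ε P l h N (fun n => X n ω)) ∂μ| ≤
      2 * l * (N * ((∫ ω, |X 0 ω| ∂μ) + |h|)) := by
    refine abs_integral_le_integral_abs.trans ?_
    have h1 := integral_mono (integrable_log_pf hR hX hl h N).abs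
      ((integrable_finsetSum (Finset.range N) fun n _ => hi n).const_mul (2 * l))
      fun ω => abs_log_pf hR hl h N (fun n => X n ω)
    refine h1.trans (le_of_eq ?_)
    rw [integral_const_mul, integral_finsetSum _ fun n _ => hi n]
    congr 1
    have h2 : ∀ n ∈ Finset.range N, ∫ ω, (|X n ω| + |h|) ∂μ = (∫ ω, |X 0 ω| ∂μ) + |h| := by
      intro n _
      rw [integral_add (hX.int_id n).abs (integrable_const _)]
      have := ((hX.ident n).comp (u := fun x : ℝ => |x|) (by fun_prop)).integral_eq
      simp only [Function.comp] at this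
      rw [this]
      simp
    rw [Finset.sum_congr rfl h2]
    simp
    ring
  rcases Nat.eq_zero_or_pos N with h0 | h0
  · have : 0 ≤ (∫ ω, |X 0 ω| ∂μ) := integral_nonneg fun ω => abs_nonneg _
    have h5 := abs_nonneg h
    rw [h0]
    simp only [Nat.cast_zero, div_zero, zero_mul, abs_zero]
    positivity
  · have hN : (0:ℝ) < N := by exact_mod_cast h0
    rw [abs_mul, abs_of_pos (by positivity : (0:ℝ) < 1 / N)]
    calc 1 / (N:ℝ) * |∫ ω, log (partitionFunction ξ ε P l h N (fun n => X n ω)) ∂μ|
        ≤ 1 / (N:ℝ) * (2 * l * (N * ((∫ ω, |X 0 ω| ∂μ) + |h|))) := by gcongr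
      _ = _ := by field_simp

/-- annealed bound -/
theorem annealed (hR : IsSignedRenewal K ξ ε P) (hX : Charges X μ) {l : ℝ} (hl : 0 ≤ l)
    {h : ℝ} (hh : (∫ ω, exp (-2 * l * X 0 ω) ∂μ) * exp (-2 * l * h) ≤ 1) (N : ℕ) :
    ∫ ω, log (partitionFunction ξ ε P l h N (fun n => X n ω)) ∂μ ≤ 0 := by
  have hprob := hX.prob
  have hP : IsProbabilityMeasure P := hR.indep.isProbabilityMeasure
  have hS : Integrable (fun ω => exp (2 * l * ∑ n ∈ Finset.range N, (|X n ω| + |h|))) μ := by
    have := (int_mj hX l h 0 N).1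
    unfold mj at this
    simpa using this
  -- joint integrability
  have hm : Measurable fun p : Ω × T =>
      exp (-2 * l * ∑ n ∈ Finset.range N, below ξ ε (n + 1) p.2 * (X n p.1 + h)) := by
    refine ((Finset.measurable_sum _ fun n _ => ?_).const_mul _).exp
    exact ((measurable_below hR (n + 1)).comp measurable_snd).mul
      (((hX.measurable n).comp measurable_fst).add_const h)
  have hjoint : Integrable (fun p : Ω × T =>
      exp (-2 * l * ∑ n ∈ Finset.range N, below ξ ε (n + 1) p.2 * (X n p.1 + h))) (μ.prod P) := by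
    have h1 : Integrable (fun p : Ω × T =>
        exp (2 * l * ∑ n ∈ Finset.range N, (|X n p.1| + |h|))) (μ.prod P) := hS.comp_fst P
    refine Integrable.mono' h1 hm.aestronglyMeasurable ?_
    refine Filter.Eventually.of_forall fun p => ?_
    rw [norm_eq_abs, abs_exp]
    exact (integrand_bounds ξ ε hl h N (fun n => X n p.1) p.2).2
  have hZi : Integrable (fun ω => partitionFunction ξ ε P l h N (fun n => X n ω)) μ :=
    hjoint.integral_prod_left
  -- inner integral
  have hinner : ∀ t, ∫ ω, exp (-2 * l * ∑ n ∈ Finset.range N,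
      below ξ ε (n + 1) t * (X n ω + h)) ∂μ ≤ 1 := by
    intro t
    set Y : ℕ → Ω → ℝ := fun n ω => below ξ ε (n + 1) t * (X n ω + h) with hY
    have hYi : iIndepFun Y μ :=
      hX.indep.comp (fun n x => below ξ ε (n + 1) t * (x + h)) (fun _ => by fun_prop)
    have hYm : ∀ i, Measurable (Y i) := fun i => ((hX.measurable i).add_const _).const_mul _
    have h1 := hYi.mgf_sum (t := -2 * l) hYm (Finset.range N)
    have h2 : ∫ ω, exp (-2 * l * ∑ n ∈ Finset.range N, below ξ ε (n + 1) t * (X n ω + h)) ∂μ =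
        mgf (∑ n ∈ Finset.range N, Y n) μ (-2 * l) := by
      unfold mgf
      refine integral_congr_ae (Filter.Eventually.of_forall fun ω => ?_)
      simp [hY]
    rw [h2, h1]
    refine Finset.prod_le_one (fun n _ => mgf_nonneg) fun n _ => ?_
    have h3 : below ξ ε (n + 1) t = 0 ∨ below ξ ε (n + 1) t = 1 := by
      unfold below
      split_ifs <;> simp
    rcases h3 with h3 | h3
    · have : Y n = fun _ => 0 := by funext ω; simp [hY, h3]
      rw [this]
      simp [mgf]
    · have h4 : mgf (Y n) μ (-2 * l) = (∫ ω, exp (-2 * l * X 0 ω) ∂μ) * exp (-2 * l * h) := by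
        unfold mgf
        have : (fun ω => exp (-2 * l * Y n ω)) = fun ω => exp (-2 * l * X n ω) * exp (-2 * l * h) := by
          funext ω
          simp only [hY, h3, one_mul]
          rw [← exp_add]; ring_nf
        rw [this, integral_mul_const]
        congr 1
        exact ((hX.ident n).comp (u := fun x : ℝ => exp (-2 * l * x)) (by fun_prop)).integral_eq
      rw [h4]
      exact hh
  have hEZ : ∫ ω, partitionFunction ξ ε P l h N (fun n => X n ω) ∂μ ≤ 1 := by
    have h1 : ∫ ω, partitionFunction ξ ε P l h N (fun n => X n ω) ∂μ =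
        ∫ t, ∫ ω, exp (-2 * l * ∑ n ∈ Finset.range N,
          below ξ ε (n + 1) t * (X n ω + h)) ∂μ ∂P := by
      unfold partitionFunction
      exact integral_integral_swap hjoint
    rw [h1]
    have h2 := integral_mono (hjoint.integral_prod_right) (integrable_const (μ := P) (1:ℝ)) hinner
    simpa using h2
  have h5 : ∫ ω, log (partitionFunction ξ ε P l h N (fun n => X n ω)) ∂μ ≤
      ∫ ω, (partitionFunction ξ ε P l h N (fun n => X n ω) - 1) ∂μ := by
    refine integral_mono (integrable_log_pf hR hX hl h N) (hZi.sub (integrable_const _)) fun ω => ?_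
    exact log_le_sub_one_of_pos (pf_pos hR hl h N _)
  rw [integral_sub hZi (integrable_const _)] at h5
  simp only [integral_const, probReal_univ, one_smul] at h5
  linarith

end Pool.Agent.K6.H76.Cop
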