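import Pool.Agent.K6.H76.Cop.Mom2

set_option autoImplicit false

namespace Pool.Agent.K6.H76.Cop

open Real Set MeasureTheory ProbabilityTheory

variable {Ω : Type*}

/-- weight of one excursion over the segment `{a, ..., a+n-1}`, averaged over its sign -/
noncomputable def ph (X : ℕ → Ω → ℝ) (l h : ℝ) (a n : ℕ) (ω : Ω) : ℝ :=
  (1 + exp (-2 * uu X l h a n ω)) / 2

theorem ph_pos (X : ℕ → Ω → ℝ) (l h : ℝ) (a n : ℕ) (ω : Ω) : 0 < ph X l h a n ω := by
  unfold ph; positivity

theorem half_le_ph (X : ℕ → Ω → ℝ) (l h : ℝ) (a n : ℕ) (ω : Ω) : 1 / 2 ≤ ph X l h a n ω := by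
  unfold ph
  have := exp_pos (-2 * uu X l h a n ω)
  linarith

theorem ph_rpow (X : ℕ → Ω → ℝ) (l h γ : ℝ) (a n : ℕ) (ω : Ω) :
    ph X l h a n ω ^ γ = gg γ (uu X l h a n ω) := rfl

/-- the pinned partition function of the segment `{a, ..., a+L-1}` -/
noncomputable def W (K : ℕ → ℝ) (X : ℕ → Ω → ℝ) (l h : ℝ) : ℕ → ℕ → Ω → ℝ
  | 0, _, _ => 1
  | (L + 1), a, ω => ∑ i : Fin (L + 1),
      K (i + 1) * ph X l h a (i + 1) ω * W K X l h (L - i) (a + (i + 1)) ω
  termination_by L => L

theorem W_zero (K : ℕ → ℝ) (X : ℕ → Ω → ℝ) (l h : ℝ) (a : ℕ) (ω : Ω) : W K X l h 0 a ω = 1 := by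
  rw [W]

theorem W_succ (K : ℕ → ℝ) (X : ℕ → Ω → ℝ) (l h : ℝ) (L a : ℕ) (ω : Ω) :
    W K X l h (L + 1) a ω = ∑ i ∈ Finset.range (L + 1),
      K (i + 1) * ph X l h a (i + 1) ω * W K X l h (L - i) (a + (i + 1)) ω := by
  rw [W, Fin.sum_univ_eq_sum_range
    (fun i => K (i + 1) * ph X l h a (i + 1) ω * W K X l h (L - i) (a + (i + 1)) ω)]

/-- Hypotheses on `K` used here. -/
structure KK (K : ℕ → ℝ) : Prop where
  nonneg : ∀ n, 0 ≤ K n
  sum_le : ∀ n, ∑ i ∈ Finset.range n, K (i + 1) ≤ 1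

variable {K : ℕ → ℝ}

theorem W_nonneg (hK : KK K) (X : ℕ → Ω → ℝ) (l h : ℝ) (L a : ℕ) (ω : Ω) :
    0 ≤ W K X l h L a ω := by
  induction L using Nat.strong_induction_on generalizing a with
  | _ L ih =>
    cases L with
    | zero => rw [W_zero]; norm_num
    | succ L =>
      rw [W_succ]
      refine Finset.sum_nonneg fun i hi => ?_
      have := ph_pos X l h a (i + 1) ω
      have := ih (L - i) (by omega) (a + (i + 1))
      have := hK.nonneg (i + 1)
      positivity

theorem W_ge (hK : KK K) (X : ℕ → Ω → ℝ) (l h : ℝ) {L : ℕ} (hL : L ≠ 0) (a : ℕ) (ω : Ω) :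
    K L / 2 ≤ W K X l h L a ω := by
  obtain ⟨L, rfl⟩ := Nat.exists_eq_succ_of_ne_zero hL
  rw [Nat.succ_eq_add_one, W_succ]
  refine le_trans ?_ (Finset.single_le_sum (f := fun i => K (i + 1) * ph X l h a (i + 1) ω *
    W K X l h (L - i) (a + (i + 1)) ω) (fun i _ => ?_) (Finset.self_mem_range_succ L))
  · simp only [Nat.sub_self, W_zero, mul_one]
    have := half_le_ph X l h a (L + 1) ω
    have := hK.nonneg (L + 1)
    nlinarith
  · have := ph_pos X l h a (i + 1) ω
    have := W_nonneg hK X l h (L - i) (a + (i + 1)) ω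
    have := hK.nonneg (i + 1)
    positivity

theorem W_mul (hK : KK K) (X : ℕ → Ω → ℝ) (l h : ℝ) (L M a : ℕ) (ω : Ω) :
    W K X l h L a ω * W K X l h M (a + L) ω ≤ W K X l h (L + M) a ω := by
  induction L using Nat.strong_induction_on generalizing a with
  | _ L ih =>
    cases L with
    | zero => simp [W_zero]
    | succ L =>
      have e : L + 1 + M = (L + M) + 1 := by ring
      rw [e, W_succ, W_succ, Finset.sum_mul]
      have h1 : Finset.range (L + 1) ⊆ Finset.range (L + M + 1) := by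
        intro x hx
        simp only [Finset.mem_range] at hx ⊢
        omega
      refine le_trans (Finset.sum_le_sum fun i hi => ?_)
        (Finset.sum_le_sum_of_subset_of_nonneg h1 fun i _ _ => ?_)
      · have hi' : i ≤ L := by simp only [Finset.mem_range] at hi; omega
        have h2 := ih (L - i) (by omega) (a + (i + 1))
        have e1 : a + (i + 1) + (L - i) = a + (L + 1) := by omega
        have e2 : L - i + M = L + M - i := by omega
        rw [e1, e2] at h2
        have h3 := ph_pos X l h a (i + 1) ω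
        have h4 := hK.nonneg (i + 1)
        calc K (i + 1) * ph X l h a (i + 1) ω * W K X l h (L - i) (a + (i + 1)) ω *
              W K X l h M (a + (L + 1)) ω
            = K (i + 1) * ph X l h a (i + 1) ω * (W K X l h (L - i) (a + (i + 1)) ω *
              W K X l h M (a + (L + 1)) ω) := by ring
          _ ≤ _ := by gcongr
      · have := ph_pos X l h a (i + 1) ω
        have := W_nonneg hK X l h (L + M - i) (a + (i + 1)) ω
        have := hK.nonneg (i + 1)
        positivity

/-- the pathwise majorant -/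
noncomputable def mj (X : ℕ → Ω → ℝ) (l h : ℝ) (a n : ℕ) (ω : Ω) : ℝ :=
  exp (2 * l * ∑ i ∈ Finset.Ico a (a + n), (|X i ω| + |h|))

theorem ph_le_mj (X : ℕ → Ω → ℝ) {l : ℝ} (hl : 0 ≤ l) (h : ℝ) (a n : ℕ) (ω : Ω) :
    ph X l h a n ω ≤ mj X l h a n ω := by
  unfold ph mj uu
  have h1 : -2 * (l * ∑ i ∈ Finset.Ico a (a + n), (X i ω + h)) ≤
      2 * l * ∑ i ∈ Finset.Ico a (a + n), (|X i ω| + |h|) := by
    have : -∑ i ∈ Finset.Ico a (a + n), (X i ω + h) ≤
        ∑ i ∈ Finset.Ico a (a + n), (|X i ω| + |h|) := by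
      rw [← Finset.sum_neg_distrib]
      refine Finset.sum_le_sum fun i _ => ?_
      have := neg_abs_le (X i ω)
      have := neg_abs_le h
      linarith
    have h2 : 2 * l * -∑ i ∈ Finset.Ico a (a + n), (X i ω + h) ≤
      2 * l * ∑ i ∈ Finset.Ico a (a + n), (|X i ω| + |h|) := by gcongr
    linarith
  have h3 := exp_le_exp.2 h1
  have h4 : (1:ℝ) ≤ exp (2 * l * ∑ i ∈ Finset.Ico a (a + n), (|X i ω| + |h|)) :=
    one_le_exp (by positivity)
  linarith

theorem W_le_mj (hK : KK K) (X : ℕ → Ω → ℝ) {l : ℝ} (hl : 0 ≤ l) (h : ℝ) (L a : ℕ) (ω : Ω) :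
    W K X l h L a ω ≤ mj X l h a L ω := by
  induction L using Nat.strong_induction_on generalizing a with
  | _ L ih =>
    cases L with
    | zero => simp [W_zero, mj]
    | succ L =>
      rw [W_succ]
      calc ∑ i ∈ Finset.range (L + 1), K (i + 1) * ph X l h a (i + 1) ω *
            W K X l h (L - i) (a + (i + 1)) ω
          ≤ ∑ i ∈ Finset.range (L + 1), K (i + 1) * mj X l h a (L + 1) ω := by
            refine Finset.sum_le_sum fun i hi => ?_
            have hi' : i ≤ L := by simp only [Finset.mem_range] at hi; omega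
            have h2 := ih (L - i) (by omega) (a + (i + 1))
            have h3 := ph_le_mj X hl h a (i + 1) ω
            have h4 := hK.nonneg (i + 1)
            have h5 := ph_pos X l h a (i + 1) ω
            have e1 : mj X l h a (i + 1) ω * mj X l h (a + (i + 1)) (L - i) ω =
                mj X l h a (L + 1) ω := by
              unfold mj
              rw [← exp_add, ← mul_add]
              congr 2
              have := Finset.sum_Ico_consecutive (fun i => |X i ω| + |h|)
                (show a ≤ a + (i + 1) by omega) (show a + (i + 1) ≤ a + (L + 1) by omega)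
              rw [← this]
              congr 3
              omega
            rw [mul_assoc, ← e1]
            have h6 := W_nonneg hK X l h (L - i) (a + (i + 1)) ω
            gcongr
            exact h5.le.trans h3
        _ = (∑ i ∈ Finset.range (L + 1), K (i + 1)) * mj X l h a (L + 1) ω := by
            rw [Finset.sum_mul]
        _ ≤ 1 * mj X l h a (L + 1) ω := by
            have : 0 ≤ mj X l h a (L + 1) ω := (exp_pos _).le
            exact mul_le_mul_of_nonneg_right (hK.sum_le _) this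
        _ = _ := one_mul _

/-- `W` depends on the charges only through the shifted sequence. -/
theorem W_shift (K : ℕ → ℝ) (X : ℕ → Ω → ℝ) (l h : ℝ) (L a b : ℕ) (ω : Ω) :
    W K X l h L (a + b) ω = W K (fun i (x : ℕ → ℝ) => x i) l h L b (fun i => X (a + i) ω) := by
  induction L using Nat.strong_induction_on generalizing b with
  | _ L ih =>
    cases L with
    | zero => rw [W_zero, W_zero]
    | succ L =>
      rw [W_succ, W_succ]
      refine Finset.sum_congr rfl fun i hi => ?_
      have h2 := ih (L - i) (by omega) (b + (i + 1))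
      rw [← add_assoc a b (i + 1)] at h2
      rw [h2]
      congr 2
      unfold ph uu
      congr 5
      rw [Finset.sum_Ico_eq_sum_range, Finset.sum_Ico_eq_sum_range]
      have e1 : a + b + (i + 1) - (a + b) = i + 1 := by omega
      have e2 : b + (i + 1) - b = i + 1 := by omega
      rw [e1, e2]
      refine Finset.sum_congr rfl fun j _ => ?_
      simp only [add_assoc]

variable [mΩ : MeasurableSpace Ω] {X : ℕ → Ω → ℝ} {μ : Measure Ω}

theorem meas_ph (X : ℕ → Ω → ℝ) (l h : ℝ) (a n : ℕ) :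
    @Measurable Ω ℝ (sgm X (Set.Ico a (a + n))) _ (ph X l h a n) := by
  have h1 := meas_uu X l h a n
  have : ph X l h a n = fun ω => (1 + exp (-2 * uu X l h a n ω)) / 2 := rfl
  rw [this]
  exact (((h1.const_mul (-2)).exp).const_add 1).div_const 2

theorem meas_W (K : ℕ → ℝ) (X : ℕ → Ω → ℝ) (l h : ℝ) (L a : ℕ) :
    @Measurable Ω ℝ (sgm X (Set.Ico a (a + L))) _ (W K X l h L a) := by
  induction L using Nat.strong_induction_on generalizing a with
  | _ L ih =>
    cases L with
    | zero =>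
      have : W K X l h 0 a = fun _ => 1 := by funext ω; exact W_zero _ _ _ _ _ _
      rw [this]; exact measurable_const
    | succ L =>
      have : W K X l h (L + 1) a = fun ω => ∑ i ∈ Finset.range (L + 1),
        K (i + 1) * ph X l h a (i + 1) ω * W K X l h (L - i) (a + (i + 1)) ω := by
        funext ω; exact W_succ _ _ _ _ _ _ _
      rw [this]
      refine Finset.measurable_sum _ fun i hi => ?_
      have hi' : i ≤ L := by simp only [Finset.mem_range] at hi; omega
      refine Measurable.mul (Measurable.const_mul ?_ _) ?_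
      · exact (meas_ph X l h a (i + 1)).mono (sgm_mono X (Set.Ico_subset_Ico_right (by omega))) le_rfl
      · refine (ih (L - i) (by omega) (a + (i + 1))).mono (sgm_mono X ?_) le_rfl
        exact Set.Ico_subset_Ico (by omega) (by omega)

theorem measurable_W (hX : Charges X μ) (l h : ℝ) (L a : ℕ) : Measurable (W K X l h L a) :=
  (meas_W K X l h L a).mono (sgm_le hX _) le_rfl

theorem measurable_ph (hX : Charges X μ) (l h : ℝ) (a n : ℕ) : Measurable (ph X l h a n) :=
  (meas_ph X l h a n).mono (sgm_le hX _) le_rfl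

/-- `W L a` has the law of `W L 0`. -/
theorem W_ident (hX : Charges X μ) (l h : ℝ) (L a : ℕ) :
    IdentDistrib (W K X l h L a) (W K X l h L 0) μ μ := by
  have h1 : IdentDistrib (fun ω (i : ℕ) => X (a + i) ω) (fun ω (i : ℕ) => X i ω) μ μ := by
    refine IdentDistrib.pi (fun i => ?_) ?_ hX.indep
    · exact (hX.ident (a + i)).trans (hX.ident i).symm
    · exact hX.indep.precomp (g := fun i => a + i) (fun i j hij => by simpa using hij)
  have hmeas : Measurable (fun x : ℕ → ℝ => W K (fun i (x : ℕ → ℝ) => x i) l h L 0 x) := by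
    have h2 := meas_W K (fun i (x : ℕ → ℝ) => x i) l h L 0
    refine h2.mono ?_ le_rfl
    exact iSup₂_le fun i _ => (measurable_pi_apply i).comap_le
  have h3 := h1.comp hmeas
  have e1 : W K X l h L a =
      (fun x : ℕ → ℝ => W K (fun i (x : ℕ → ℝ) => x i) l h L 0 x) ∘ (fun ω (i : ℕ) => X (a + i) ω) := by
    funext ω
    have := W_shift K X l h L a 0 ω
    simpa using this
  have e2 : W K X l h L 0 =
      (fun x : ℕ → ℝ => W K (fun i (x : ℕ → ℝ) => x i) l h L 0 x) ∘ (fun ω (i : ℕ) => X i ω) := by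
    funext ω
    have := W_shift K X l h L 0 0 ω
    simpa using this
  rw [e1, e2]
  exact h3

/-- `ρ = E exp (2 l (|X| + |h|))` -/
noncomputable def rho (X : ℕ → Ω → ℝ) (μ : Measure Ω) (l h : ℝ) : ℝ :=
  ∫ ω, exp (2 * l * (|X 0 ω| + |h|)) ∂μ

theorem int_mj (hX : Charges X μ) (l h : ℝ) (a n : ℕ) :
    Integrable (mj X l h a n) μ ∧ ∫ ω, mj X l h a n ω ∂μ = rho X μ l h ^ n := by
  have hprob := hX.prob
  set Y : ℕ → Ω → ℝ := fun i ω => |X i ω| + |h| with hY
  have hYi : iIndepFun Y μ := hX.indep.comp (fun _ x => |x| + |h|) (fun _ => by fun_prop)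
  have hYm : ∀ i, Measurable (Y i) := fun i => (hX.measurable i).abs.add_const _
  have hYe : ∀ i, Integrable (fun ω => exp (2 * l * Y i ω)) μ := by
    intro i
    have : (fun ω => exp (2 * l * Y i ω)) =
        fun ω => exp (2 * l * |h|) * exp (2 * l * |X i ω|) := by
      funext ω; rw [hY, ← exp_add]; ring_nf
    rw [this]
    exact (hX.mgf_abs (2 * l) i).const_mul _
  have e : mj X l h a n = fun ω => exp (2 * l * (∑ i ∈ Finset.Ico a (a + n), Y i) ω) := by
    funext ω
    simp [mj, hY]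
  refine ⟨?_, ?_⟩
  · rw [e]
    exact hYi.integrable_exp_mul_sum hYm (fun i _ => hYe i)
  · rw [e]
    have h1 := hYi.mgf_sum (t := 2 * l) hYm (Finset.Ico a (a + n))
    have h2 : ∀ i, mgf (Y i) μ (2 * l) = rho X μ l h := by
      intro i
      have := ((hX.ident i).comp (u := fun x : ℝ => exp (2 * l * (|x| + |h|)))
        (by fun_prop)).integral_eq
      exact this
    simp only [h2, Finset.prod_const, Nat.card_Ico, Nat.add_sub_cancel_left] at h1
    exact h1

theorem one_le_rho (hX : Charges X μ) {l : ℝ} (hl : 0 ≤ l) (h : ℝ) : 1 ≤ rho X μ l h := by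
  have hprob := hX.prob
  have h1 := (int_mj hX l h 0 1)
  have e : (fun ω => exp (2 * l * (|X 0 ω| + |h|))) = mj X l h 0 1 := by
    funext ω; simp [mj]
  have h2 : ∫ _ω : Ω, (1:ℝ) ∂μ ≤ ∫ ω, exp (2 * l * (|X 0 ω| + |h|)) ∂μ := by
    refine integral_mono (integrable_const _) (by rw [e]; exact h1.1) fun ω => ?_
    exact one_le_exp (by positivity)
  unfold rho
  simpa using h2

theorem int_W (hK : KK K) (hX : Charges X μ) {l : ℝ} (hl : 0 ≤ l) (h : ℝ) (L a : ℕ) :
    Integrable (W K X l h L a) μ := by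
  refine Integrable.mono' (int_mj hX l h a L).1 (measurable_W hX l h L a).aestronglyMeasurable ?_
  refine Filter.Eventually.of_forall fun ω => ?_
  rw [norm_eq_abs, abs_of_nonneg (W_nonneg hK X l h L a ω)]
  exact W_le_mj hK X hl h L a ω

theorem integral_W_le (hK : KK K) (hX : Charges X μ) {l : ℝ} (hl : 0 ≤ l) (h : ℝ) (L a : ℕ) :
    ∫ ω, W K X l h L a ω ∂μ ≤ rho X μ l h ^ L := by
  rw [← (int_mj hX l h a L).2]
  exact integral_mono (int_W hK hX hl h L a) (int_mj hX l h a L).1
    fun ω => W_le_mj hK X hl h L a ω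

theorem rpow_le_one_add {x γ : ℝ} (hx : 0 ≤ x) (h0 : 0 ≤ γ) (h1 : γ ≤ 1) : x ^ γ ≤ 1 + x := by
  rcases le_total x 1 with h | h
  · have := rpow_le_one hx h h0
    linarith
  · have := rpow_le_rpow_of_exponent_le h h1
    rw [rpow_one] at this
    linarith

theorem int_W_rpow (hK : KK K) (hX : Charges X μ) {l γ : ℝ} (hl : 0 ≤ l) (h0 : 0 ≤ γ) (h1 : γ ≤ 1)
    (h : ℝ) (L a : ℕ) : Integrable (fun ω => W K X l h L a ω ^ γ) μ := by
  have hprob := hX.prob
  refine Integrable.mono' ((integrable_const (1:ℝ)).add (int_W hK hX hl h L a))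
    ((measurable_W hX l h L a).pow_const γ).aestronglyMeasurable ?_
  refine Filter.Eventually.of_forall fun ω => ?_
  have h2 := W_nonneg hK X l h L a ω
  rw [norm_eq_abs, abs_of_nonneg (rpow_nonneg h2 _)]
  exact rpow_le_one_add h2 h0 h1

theorem int_ph_rpow (hX : Charges X μ) {l γ : ℝ} (hl : 0 ≤ l) (h0 : 0 ≤ γ) (h1 : γ ≤ 1)
    (h : ℝ) (a n : ℕ) : Integrable (fun ω => ph X l h a n ω ^ γ) μ := by
  have hprob := hX.prob
  refine Integrable.mono' ((integrable_const (1:ℝ)).add (int_mj hX l h a n).1)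
    ((measurable_ph hX l h a n).pow_const γ).aestronglyMeasurable ?_
  refine Filter.Eventually.of_forall fun ω => ?_
  have h2 := (ph_pos X l h a n ω).le
  rw [norm_eq_abs, abs_of_nonneg (rpow_nonneg h2 _)]
  refine (rpow_le_one_add h2 h0 h1).trans ?_
  have := ph_le_mj X hl h a n ω
  simp only [Pi.add_apply]
  linarith

/-- Reverse Minkowski inequality for exponent `γ ≤ 1`. -/
theorem reverse_minkowski {ι : Type*} (s : Finset ι) {γ : ℝ} (h0 : 0 < γ) (h1 : γ ≤ 1)
    (Y : ι → Ω → ℝ) (y : ι → ℝ) (hY : ∀ i ∈ s, ∀ ω, 0 ≤ Y i ω) (hy : ∀ i ∈ s, 0 ≤ y i)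
    (hi : ∀ i ∈ s, Integrable (fun ω => Y i ω ^ γ) μ)
    (hs : Integrable (fun ω => (∑ i ∈ s, Y i ω) ^ γ) μ)
    (hb : ∀ i ∈ s, y i ^ γ ≤ ∫ ω, Y i ω ^ γ ∂μ) :
    (∑ i ∈ s, y i) ^ γ ≤ ∫ ω, (∑ i ∈ s, Y i ω) ^ γ ∂μ := by
  set S := ∑ i ∈ s, y i with hS
  have hS0 : 0 ≤ S := Finset.sum_nonneg hy
  rcases hS0.eq_or_lt with h | h
  · rw [← h, zero_rpow h0.ne']
    exact integral_nonneg fun ω => rpow_nonneg (Finset.sum_nonneg fun i hi => hY i hi ω) _
  set θ : ι → ℝ := fun i => y i / S with hθ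
  have hθ0 : ∀ i ∈ s, 0 ≤ θ i := fun i hi => div_nonneg (hy i hi) hS0
  have hθ1 : ∑ i ∈ s, θ i = 1 := by
    rw [hθ, ← Finset.sum_div, ← hS, div_self h.ne']
  have hpt : ∀ ω, ∑ i ∈ s, θ i * (Y i ω / θ i) ^ γ ≤ (∑ i ∈ s, Y i ω) ^ γ := by
    intro ω
    have hc := (Real.concaveOn_rpow h0.le h1).le_map_sum (t := s) (w := θ)
      (p := fun i => Y i ω / θ i) hθ0 hθ1
      (fun i hi => Set.mem_Ici.2 (div_nonneg (hY i hi ω) (hθ0 i hi)))
    simp only [smul_eq_mul] at hc
    refine hc.trans (rpow_le_rpow ?_ ?_ h0.le)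
    · exact Finset.sum_nonneg fun i hi =>
        mul_nonneg (hθ0 i hi) (div_nonneg (hY i hi ω) (hθ0 i hi))
    · refine Finset.sum_le_sum fun i hi => ?_
      rcases (hθ0 i hi).eq_or_lt with h2 | h2
      · rw [← h2]; simpa using hY i hi ω
      · rw [mul_div_cancel₀ _ h2.ne']
  have hpe : ∀ i ∈ s, ∀ ω, θ i * (Y i ω / θ i) ^ γ = θ i * (θ i ^ γ)⁻¹ * Y i ω ^ γ := by
    intro i hi ω
    rw [div_rpow (hY i hi ω) (hθ0 i hi)]
    field_simp
  have hint : Integrable (fun ω => ∑ i ∈ s, θ i * (Y i ω / θ i) ^ γ) μ := by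
    refine integrable_finsetSum _ fun i his => ?_
    have : (fun ω => θ i * (Y i ω / θ i) ^ γ) = fun ω => θ i * (θ i ^ γ)⁻¹ * Y i ω ^ γ := by
      funext ω; exact hpe i his ω
    rw [this]
    exact (hi i his).const_mul _
  refine le_trans ?_ (integral_mono hint hs hpt)
  have e1 : ∫ ω, ∑ i ∈ s, θ i * (Y i ω / θ i) ^ γ ∂μ =
      ∑ i ∈ s, θ i * (θ i ^ γ)⁻¹ * ∫ ω, Y i ω ^ γ ∂μ := by
    rw [integral_finsetSum]
    · refine Finset.sum_congr rfl fun i his => ?_
      rw [← integral_const_mul]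
      congr 1
      funext ω; exact hpe i his ω
    · intro i his
      have : (fun ω => θ i * (Y i ω / θ i) ^ γ) = fun ω => θ i * (θ i ^ γ)⁻¹ * Y i ω ^ γ := by
        funext ω; exact hpe i his ω
      rw [this]
      exact (hi i his).const_mul _
  rw [e1]
  have e2 : S ^ γ = ∑ i ∈ s, θ i * S ^ γ := by rw [← Finset.sum_mul, hθ1, one_mul]
  rw [e2]
  refine Finset.sum_le_sum fun i his => ?_
  rcases (hθ0 i his).eq_or_lt with h2 | h2
  · rw [← h2]; simp
  · have h3 := hb i his
    have h4 : 0 < θ i ^ γ := rpow_pos_of_pos h2 _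
    have e3 : y i ^ γ = θ i ^ γ * S ^ γ := by
      rw [← mul_rpow h2.le hS0]
      congr 1
      rw [hθ]
      field_simp
    rw [e3] at h3
    calc θ i * S ^ γ = θ i * (θ i ^ γ)⁻¹ * (θ i ^ γ * S ^ γ) := by field_simp
      _ ≤ _ := by gcongr

/-- the renewal sequence with weights `w` -/
noncomputable def uR (w : ℕ → ℝ) : ℕ → ℝ
  | 0 => 1
  | (L + 1) => ∑ i : Fin (L + 1), w (i + 1) * uR w (L - i)
  termination_by L => L

theorem uR_zero (w : ℕ → ℝ) : uR w 0 = 1 := by rw [uR]

theorem uR_succ (w : ℕ → ℝ) (L : ℕ) :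
    uR w (L + 1) = ∑ i ∈ Finset.range (L + 1), w (i + 1) * uR w (L - i) := by
  rw [uR, Fin.sum_univ_eq_sum_range (fun i => w (i + 1) * uR w (L - i))]

theorem uR_nonneg {w : ℕ → ℝ} (hw : ∀ n, 0 ≤ w n) (L : ℕ) : 0 ≤ uR w L := by
  induction L using Nat.strong_induction_on with
  | _ L ih =>
    cases L with
    | zero => rw [uR_zero]; norm_num
    | succ L =>
      rw [uR_succ]
      exact Finset.sum_nonneg fun i _ => mul_nonneg (hw _) (ih (L - i) (by omega))

/-- The fractional moments of `W` dominate a renewal sequence. -/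
theorem frac_moment (hK : KK K) (hX : Charges X μ) {l γ : ℝ} (hl : 0 ≤ l) (h0 : 0 < γ)
    (h1 : γ ≤ 1) (h : ℝ) {b : ℕ → ℝ} (hb : ∀ n, b n = 0 ∨ 1 ≤ b n)
    (hbe : ∀ a n, n ≠ 0 → b n ≤ ∫ ω, ph X l h a n ω ^ γ ∂μ) (L a : ℕ) :
    uR (fun n => K n * b n) L ^ γ ≤ ∫ ω, W K X l h L a ω ^ γ ∂μ := by
  have hprob := hX.prob
  have hb0 : ∀ n, 0 ≤ b n := fun n => by rcases hb n with h | h <;> linarith
  have hw : ∀ n, 0 ≤ K n * b n := fun n => mul_nonneg (hK.nonneg n) (hb0 n)
  induction L using Nat.strong_induction_on generalizing a with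
  | _ L ih =>
    cases L with
    | zero =>
      rw [uR_zero]
      simp [W_zero]
    | succ L =>
      rw [uR_succ]
      have e : (fun ω => W K X l h (L + 1) a ω ^ γ) = fun ω => (∑ i ∈ Finset.range (L + 1),
        K (i + 1) * ph X l h a (i + 1) ω * W K X l h (L - i) (a + (i + 1)) ω) ^ γ := by
        funext ω; rw [W_succ]
      have hint := int_W_rpow hK hX hl h0.le h1 h (L + 1) a
      rw [e] at hint ⊢
      have hsplit : ∀ i ω, (K (i + 1) * ph X l h a (i + 1) ω *
          W K X l h (L - i) (a + (i + 1)) ω) ^ γ =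
          K (i + 1) ^ γ * (ph X l h a (i + 1) ω ^ γ * W K X l h (L - i) (a + (i + 1)) ω ^ γ) := by
        intro i ω
        rw [mul_assoc, mul_rpow (hK.nonneg _) (mul_nonneg (ph_pos _ _ _ _ _ _).le
          (W_nonneg hK _ _ _ _ _ _)), mul_rpow (ph_pos _ _ _ _ _ _).le (W_nonneg hK _ _ _ _ _ _)]
      have hind : ∀ i, IndepFun (fun ω => ph X l h a (i + 1) ω ^ γ)
          (fun ω => W K X l h (L - i) (a + (i + 1)) ω ^ γ) μ := by
        intro i
        refine (indep_of hX (S := Set.Ico a (a + (i + 1)))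
          (T := Set.Ico (a + (i + 1)) (a + (i + 1) + (L - i))) ?_ (meas_ph X l h a (i + 1))
          (meas_W K X l h (L - i) (a + (i + 1)))).comp (φ := fun x => x ^ γ) (ψ := fun x => x ^ γ)
            (by fun_prop) (by fun_prop)
        rw [Set.disjoint_left]
        intro x hx hx'
        simp only [Set.mem_Ico] at hx hx'
        omega
      have hiprod : ∀ i, Integrable (fun ω => ph X l h a (i + 1) ω ^ γ *
          W K X l h (L - i) (a + (i + 1)) ω ^ γ) μ := fun i =>
        (hind i).integrable_mul (int_ph_rpow hX hl h0.le h1 h a (i + 1))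
          (int_W_rpow hK hX hl h0.le h1 h (L - i) (a + (i + 1)))
      have heprod : ∀ i, ∫ ω, ph X l h a (i + 1) ω ^ γ *
          W K X l h (L - i) (a + (i + 1)) ω ^ γ ∂μ = (∫ ω, ph X l h a (i + 1) ω ^ γ ∂μ) *
          ∫ ω, W K X l h (L - i) (a + (i + 1)) ω ^ γ ∂μ := fun i =>
        (hind i).integral_fun_mul_eq_mul_integral
          (int_ph_rpow hX hl h0.le h1 h a (i + 1)).aestronglyMeasurable
          (int_W_rpow hK hX hl h0.le h1 h (L - i) (a + (i + 1))).aestronglyMeasurable
      refine reverse_minkowski (Finset.range (L + 1)) h0 h1 _ _ ?_ ?_ ?_ hint ?_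
      · intro i _ ω
        exact mul_nonneg (mul_nonneg (hK.nonneg _) (ph_pos _ _ _ _ _ _).le)
          (W_nonneg hK _ _ _ _ _ _)
      · intro i _
        exact mul_nonneg (hw _) (uR_nonneg hw _)
      · intro i _
        have : (fun ω => (K (i + 1) * ph X l h a (i + 1) ω *
          W K X l h (L - i) (a + (i + 1)) ω) ^ γ) = fun ω => K (i + 1) ^ γ *
          (ph X l h a (i + 1) ω ^ γ * W K X l h (L - i) (a + (i + 1)) ω ^ γ) := by
          funext ω; exact hsplit i ω
        rw [this]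
        exact (hiprod i).const_mul _
      · intro i _
        have : (fun ω => (K (i + 1) * ph X l h a (i + 1) ω *
          W K X l h (L - i) (a + (i + 1)) ω) ^ γ) = fun ω => K (i + 1) ^ γ *
          (ph X l h a (i + 1) ω ^ γ * W K X l h (L - i) (a + (i + 1)) ω ^ γ) := by
          funext ω; exact hsplit i ω
        rw [this, integral_const_mul, heprod i]
        have i1 := ih (L - i) (by omega) (a + (i + 1))
        have i2 := hbe a (i + 1) (by omega)
        have hu := uR_nonneg hw (L - i)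
        rw [mul_rpow (hw _) hu, mul_rpow (hK.nonneg _) (hb0 _), mul_assoc]
        have i3 : b (i + 1) ^ γ ≤ b (i + 1) := by
          rcases hb (i + 1) with h | h
          · rw [h, zero_rpow h0.ne']
          · calc b (i + 1) ^ γ ≤ b (i + 1) ^ (1:ℝ) := rpow_le_rpow_of_exponent_le h h1
              _ = b (i + 1) := rpow_one _
        have i4 : 0 ≤ K (i + 1) ^ γ := rpow_nonneg (hK.nonneg _) _
        have i5 : 0 ≤ uR (fun n => K n * b n) (L - i) ^ γ := rpow_nonneg hu _
        have i6 := i3.trans i2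
        refine mul_le_mul_of_nonneg_left ?_ i4
        exact mul_le_mul i6 i1 i5 ((hb0 _).trans i2)

end Pool.Agent.K6.H76.Cop
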